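import Pool.Agent.H.MP_7783b9_co.B.Rules

/-!
# There are few vertices of large blue degree
-/

set_option autoImplicit false

open Finset

namespace Pool.MP7783b9

theorem Dense_blue3 {α : Type} [DecidableEq α] {R : Finset α → Prop} {W M A : Finset α} {a : α}
    (ha : a ∉ W) (hA : A ⊆ W) (hM : M ⊆ A) (hB : BlueTo R a M) {p q : α} (hp : p ∈ M) (hq : q ∈ M)
    (hpq : p ≠ q) : Blue3 R a p q := by
  refine ⟨?_, ?_, hpq, hB p hp q hq hpq⟩
  · rintro rfl; exact ha (hA (hM hp))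
  · rintro rfl; exact ha (hA (hM hq))

theorem Dense_sum {α : Type} [DecidableEq α] (W : Finset α) (G : Finset (α × α))
    (hG : G ⊆ W ×ˢ W) :
    (G.card : ℝ) = ∑ q ∈ W, ((W.filter fun r => (q, r) ∈ G).card : ℝ) := by
  have h : G.card = ∑ q ∈ W, (W.filter fun r => (q, r) ∈ G).card := by
    have h1 : G.card = ∑ q ∈ W, (G.filter fun p => p.1 = q).card := by
      apply Finset.card_eq_sum_card_fiberwise
      intro p hp
      exact (Finset.mem_product.mp (hG hp)).1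
    rw [h1]
    refine Finset.sum_congr rfl fun q hq => ?_
    apply Finset.card_bij (fun p _ => p.2)
    · intro p hp
      rw [Finset.mem_filter] at hp ⊢
      obtain ⟨hp1, hp2⟩ := hp
      refine ⟨(Finset.mem_product.mp (hG hp1)).2, ?_⟩
      rw [← hp2]
      exact hp1
    · intro p hp p' hp' h
      rw [Finset.mem_filter] at hp hp'
      exact Prod.ext (hp.2.trans hp'.2.symm) h
    · intro r hr
      rw [Finset.mem_filter] at hr
      exact ⟨(q, r), Finset.mem_filter.mpr ⟨hr.2, rfl⟩, rfl⟩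
  rw [h]
  push_cast
  rfl

theorem few_dense {α : Type} [DecidableEq α] (R : Finset α → Prop) (W : Finset α) (a : α)
    (ha : a ∉ W) (hF : ¬ BlueFano R (insert a W)) (hW : W.Nonempty) (m : ℕ) (hm : 0 < m)
    (ε τ : ℝ) (hε : 2 ≤ ε * m) (hτ0 : 0 < τ) (hτ : 2 * (m : ℝ) ^ 4 * τ ≤ 1)
    (hC : ∀ A ⊆ W, τ * (W.card : ℝ) ≤ (A.card : ℝ) →
      ∃ M ⊆ A, M.card = 2 * m ^ 2 ∧ BlueTo R a M) :
    ((dense R W ε).card : ℝ) < τ * (W.card : ℝ) := by
  by_contra hcon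
  rw [not_lt] at hcon
  have hDW : dense R W ε ⊆ W := fun x hx => (mem_dense.mp hx).1
  obtain ⟨M, hMD, hMc, hMB⟩ := hC _ hDW hcon
  have hm1 : (1 : ℝ) ≤ (m : ℝ) := by exact_mod_cast hm
  have hw0 : (0 : ℝ) < (W.card : ℝ) := by exact_mod_cast hW.card_pos
  have hle : m ≤ M.card := by rw [hMc]; nlinarith
  obtain ⟨M1, hM1, hM1c⟩ := Finset.exists_subset_card_eq hle
  have hM1n : M1.Nonempty := by
    rw [← Finset.card_pos, hM1c]; exact hm
  have hUn : (W ×ˢ W).Nonempty := hW.product hW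
  obtain ⟨u, hu, v, hv, huv, hcard⟩ := pigeon M1 (W ×ˢ W) (fun v => bpairs R W v)
    (fun i _ p hp => by
      obtain ⟨p1, p2⟩ := p
      obtain ⟨h1, h2, _⟩ := mem_bpairs.mp hp
      exact Finset.mem_product.mpr ⟨h1, h2⟩) hM1n hUn
    (fun i hi => by
      have h1 := (mem_dense.mp (hMD (hM1 hi))).2
      rw [Finset.card_product, hM1c]
      push_cast
      have h2 : (m : ℝ) * (ε * (W.card : ℝ) ^ 2) ≤ (m : ℝ) * ((bpairs R W i).card : ℝ) :=
        mul_le_mul_of_nonneg_left h1 (by linarith)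
      have h3 : 2 * (W.card : ℝ) ^ 2 ≤ (ε * m) * (W.card : ℝ) ^ 2 :=
        mul_le_mul_of_nonneg_right hε (by positivity)
      nlinarith)
  rw [Finset.card_product, hM1c] at hcard
  push_cast at hcard
  set G : Finset (α × α) := bpairs R W u ∩ bpairs R W v with hGdef
  have hGW : G ⊆ W ×ˢ W := by
    intro p hp
    obtain ⟨p1, p2⟩ := p
    obtain ⟨h1, h2, _⟩ := mem_bpairs.mp (Finset.mem_inter.mp hp).1
    exact Finset.mem_product.mpr ⟨h1, h2⟩
  set F : α → Finset α := fun q => W.filter fun r => (q, r) ∈ G with hFdef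
  have hFW : ∀ q, F q ⊆ W := fun q => Finset.filter_subset _ _
  have hsum : (G.card : ℝ) = ∑ q ∈ W, ((F q).card : ℝ) := Dense_sum W G hGW
  set A : Finset α := W.filter fun q => (W.card : ℝ) ≤ (m : ℝ) ^ 2 * ((F q).card : ℝ) with hAdef
  have hAW : A ⊆ W := Finset.filter_subset _ _
  have hm2 : (0 : ℝ) < (m : ℝ) ^ 2 := by positivity
  have hupper : (m : ℝ) ^ 2 * (G.card : ℝ) ≤
      (m : ℝ) ^ 2 * ((A.card : ℝ) * (W.card : ℝ)) + (W.card : ℝ) * (W.card : ℝ) := by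
    rw [hsum, Finset.mul_sum]
    have hterm : ∀ q ∈ W, (m : ℝ) ^ 2 * ((F q).card : ℝ) ≤
        (if q ∈ A then (m : ℝ) ^ 2 * (W.card : ℝ) else 0) + (W.card : ℝ) := by
      intro q hq
      by_cases hqA : q ∈ A
      · rw [if_pos hqA]
        have h1 : ((F q).card : ℝ) ≤ (W.card : ℝ) := by
          exact_mod_cast Finset.card_le_card (hFW q)
        nlinarith
      · rw [if_neg hqA]
        have h1 : ¬ ((W.card : ℝ) ≤ (m : ℝ) ^ 2 * ((F q).card : ℝ)) := by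
          intro h
          exact hqA (Finset.mem_filter.mpr ⟨hq, h⟩)
        linarith
    refine (Finset.sum_le_sum hterm).trans ?_
    rw [Finset.sum_add_distrib, Finset.sum_ite_mem, Finset.inter_eq_right.mpr hAW,
      Finset.sum_const, Finset.sum_const, nsmul_eq_mul, nsmul_eq_mul]
    nlinarith
  have hAcard : (W.card : ℝ) ≤ (m : ℝ) ^ 2 * (A.card : ℝ) := by
    have h1 : (W.card : ℝ) * (W.card : ℝ) ≤ ((m : ℝ) ^ 2 * (A.card : ℝ)) * (W.card : ℝ) := by
      nlinarith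
    exact le_of_mul_le_mul_right h1 hw0
  have hm4 : (m : ℝ) ^ 2 ≤ (m : ℝ) ^ 4 := pow_le_pow_right₀ hm1 (by norm_num)
  have hAτ : τ * (W.card : ℝ) ≤ (A.card : ℝ) := by
    have h1 : (m : ℝ) ^ 2 * τ ≤ 1 := by
      have : (m : ℝ) ^ 2 * τ ≤ (m : ℝ) ^ 4 * τ := mul_le_mul_of_nonneg_right hm4 hτ0.le
      nlinarith
    have h2 : (m : ℝ) ^ 2 * (τ * (W.card : ℝ)) ≤ (m : ℝ) ^ 2 * (A.card : ℝ) := by
      have h3 : ((m : ℝ) ^ 2 * τ) * (W.card : ℝ) ≤ 1 * (W.card : ℝ) :=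
        mul_le_mul_of_nonneg_right h1 hw0.le
      nlinarith
    exact le_of_mul_le_mul_left h2 hm2
  obtain ⟨M2, hM2A, hM2c, hM2B⟩ := hC A hAW hAτ
  have hM2n : M2.Nonempty := by
    rw [← Finset.card_pos, hM2c]; positivity
  obtain ⟨q, hq, q', hq', hqq, hcard2⟩ := pigeon M2 W F (fun i _ => hFW i) hM2n hW
    (fun i hi => by
      have h1 := (Finset.mem_filter.mp (hM2A hi)).2
      rw [hM2c]
      push_cast
      nlinarith)
  rw [hM2c] at hcard2
  push_cast at hcard2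
  have hIW : F q ∩ F q' ⊆ W := Finset.inter_subset_left.trans (hFW q)
  have hIτ : τ * (W.card : ℝ) ≤ ((F q ∩ F q').card : ℝ) := by
    have hm4' : (0 : ℝ) < 2 * (m : ℝ) ^ 4 := by positivity
    have h2 : (2 * (m : ℝ) ^ 4) * (τ * (W.card : ℝ)) ≤
        (2 * (m : ℝ) ^ 4) * ((F q ∩ F q').card : ℝ) := by
      have h3 : (2 * (m : ℝ) ^ 4 * τ) * (W.card : ℝ) ≤ 1 * (W.card : ℝ) :=
        mul_le_mul_of_nonneg_right hτ hw0.le
      have h4 : (2 * (m : ℝ) ^ 2) ^ 2 * ((F q ∩ F q').card : ℝ) =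
        2 * ((2 * (m : ℝ) ^ 4) * ((F q ∩ F q').card : ℝ)) := by ring
      rw [h4] at hcard2
      linarith
    exact le_of_mul_le_mul_left h2 hm4'
  obtain ⟨M3, hM3I, hM3c, hM3B⟩ := hC _ hIW hIτ
  have h1lt : 1 < M3.card := by rw [hM3c]; nlinarith
  obtain ⟨r, hr, r', hr', hrr⟩ := Finset.one_lt_card.mp h1lt
  have hmem : ∀ {x y : α}, y ∈ F x → (x, y) ∈ G := fun h => (Finset.mem_filter.mp h).2
  have hr1 := Finset.mem_inter.mp (hM3I hr)
  have hr2 := Finset.mem_inter.mp (hM3I hr')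
  have huW : u ∈ W := hDW (hMD (hM1 hu))
  have hvW : v ∈ W := hDW (hMD (hM1 hv))
  apply hF
  exact fano_pairs R (insert a W) (Finset.mem_insert_self _ _) (Finset.mem_insert_of_mem huW)
    (Finset.mem_insert_of_mem hvW) (Finset.mem_insert_of_mem (hAW (hM2A hq)))
    (Finset.mem_insert_of_mem (hAW (hM2A hq'))) (Finset.mem_insert_of_mem (hIW (hM3I hr)))
    (Finset.mem_insert_of_mem (hIW (hM3I hr')))
    (Dense_blue3 ha hDW hMD hMB (hM1 hu) (hM1 hv) huv)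
    (Dense_blue3 ha hAW hM2A hM2B hq hq' hqq)
    (Dense_blue3 ha hIW hM3I hM3B hr hr' hrr)
    (mem_bpairs.mp (Finset.mem_inter.mp (hmem hr1.1)).1).2.2
    (mem_bpairs.mp (Finset.mem_inter.mp (hmem hr2.2)).1).2.2
    (mem_bpairs.mp (Finset.mem_inter.mp (hmem hr2.1)).2).2.2
    (mem_bpairs.mp (Finset.mem_inter.mp (hmem hr1.2)).2).2.2

end Pool.MP7783b9
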