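import Pool.Agent.H.MP_7783b9_co.B.Basic

/-!
# Nice sets exist
-/

set_option autoImplicit false

open Finset

namespace Pool.MP7783b9

open Classical in
/-- the points which have a large blue codegree with `x` -/
noncomputable def NiceX_bad {α : Type*} [DecidableEq α] (R : Finset α → Prop) (W : Finset α)
    (η : ℝ) (x : α) : Finset α :=
  W.filter fun y => x ≠ y ∧ η * (W.card : ℝ) ≤ ((cod R W x y).card : ℝ)

theorem NiceX_bad_card {α : Type*} [DecidableEq α] (R : Finset α → Prop) (W : Finset α)
    (ε η : ℝ) (hη : 0 < η) (hw : (0 : ℝ) < W.card) (x : α)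
    (hx : ((bpairs R W x).card : ℝ) < ε * (W.card : ℝ) ^ 2) :
    ((NiceX_bad R W η x).card : ℝ) ≤ (ε / η) * (W.card : ℝ) := by
  classical
  have h1 : (bpairs R W x).card =
      ∑ y ∈ W, ((bpairs R W x).filter fun p => p.1 = y).card :=
    Finset.card_eq_sum_card_fiberwise fun p hp => by
      obtain ⟨p1, p2⟩ := p
      exact (mem_bpairs.1 hp).1
  have h2 : ∀ y ∈ W, (cod R W x y).card ≤ ((bpairs R W x).filter fun p => p.1 = y).card := by
    intro y hy
    refine Finset.card_le_card_of_injOn (fun z => (y, z)) ?_ ?_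
    · intro z hz
      have hz' := mem_cod.1 (Finset.mem_coe.1 hz)
      exact Finset.mem_coe.2 (Finset.mem_filter.2 ⟨mem_bpairs.2 ⟨hy, hz'.1, hz'.2⟩, rfl⟩)
    · intro z _ z' _ hzz
      exact (Prod.mk.inj hzz).2
  have h3 : (NiceX_bad R W η x).card * (η * (W.card : ℝ)) ≤ ((bpairs R W x).card : ℝ) := by
    rw [h1]
    push_cast
    have h4 : ∑ y ∈ NiceX_bad R W η x, (((bpairs R W x).filter fun p => p.1 = y).card : ℝ) ≤
        ∑ y ∈ W, (((bpairs R W x).filter fun p => p.1 = y).card : ℝ) :=
      Finset.sum_le_sum_of_subset_of_nonneg (Finset.filter_subset _ _)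
        fun _ _ _ => Nat.cast_nonneg _
    refine le_trans ?_ h4
    rw [← nsmul_eq_mul, ← Finset.sum_const]
    refine Finset.sum_le_sum fun y hy => ?_
    have h5 := (Finset.mem_filter.1 hy).2.2
    exact h5.trans (by exact_mod_cast h2 y (Finset.mem_filter.1 hy).1)
  have h6 : ((NiceX_bad R W η x).card : ℝ) * η ≤ ε * W.card := by
    have h7 : ((NiceX_bad R W η x).card : ℝ) * η * W.card ≤ ε * W.card * W.card := by
      nlinarith
    exact le_of_mul_le_mul_right h7 hw
  rw [div_mul_eq_mul_div, le_div_iff₀ hη]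
  exact h6

theorem exists_nice {α : Type*} [DecidableEq α] (R : Finset α → Prop) (W : Finset α)
    (ε η τ : ℝ) (hε : 0 < ε) (hη : 0 < η) (r : ℕ) (A : Finset α) (hA : A ⊆ W)
    (hD : ((dense R W ε).card : ℝ) ≤ τ * (W.card : ℝ))
    (h : τ * (W.card : ℝ) + r * (ε / η) * (W.card : ℝ) + (r : ℝ) ^ 2 * η * (W.card : ℝ) + r
      < (A.card : ℝ)) :
    ∃ X ⊆ A, Nice R W ε η X ∧ X.card = r := by
  classical
  have hτ : 0 ≤ τ * (W.card : ℝ) := (Nat.cast_nonneg _).trans hD
  have hεη : 0 < ε / η := div_pos hε hη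
  have hw : (0 : ℝ) < W.card := by
    rcases Nat.eq_zero_or_pos W.card with h0 | h0
    · exfalso
      have h1 : A.card ≤ W.card := Finset.card_le_card hA
      have h2 : (A.card : ℝ) = 0 := by
        have : A.card = 0 := by omega
        rw [this]; norm_num
      rw [h2, h0] at h
      have h3 : (0 : ℝ) ≤ r := Nat.cast_nonneg r
      norm_num at h
      linarith
    · exact_mod_cast h0
  suffices H : ∀ j : ℕ, j ≤ r → ∃ X ⊆ A, Nice R W ε η X ∧ X.card = j from H r le_rfl
  intro j
  induction j with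
  | zero =>
    intro _
    refine ⟨∅, Finset.empty_subset _, ⟨Finset.empty_subset _, ?_, ?_, ?_⟩, Finset.card_empty⟩
    · intro x hx
      exact absurd hx (Finset.notMem_empty x)
    · intro x hx
      exact absurd hx (Finset.notMem_empty x)
    · intro f hf hc
      have : f = ∅ := Finset.subset_empty.1 hf
      rw [this] at hc
      simp at hc
  | succ j ih =>
    intro hj
    obtain ⟨X, hXA, hX, hXc⟩ := ih (by omega)
    set U1 : Finset α := X.biUnion (NiceX_bad R W η) with hU1
    set U2 : Finset α := ((X ×ˢ X).filter fun p => p.1 ≠ p.2).biUnion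
      (fun p => cod R W p.1 p.2) with hU2
    set U : Finset α := (X ∪ dense R W ε) ∪ (U1 ∪ U2) with hU
    have c1 : (U1.card : ℝ) ≤ j * ((ε / η) * W.card) := by
      have h1 : U1.card ≤ ∑ x ∈ X, (NiceX_bad R W η x).card := Finset.card_biUnion_le
      have h2 : (U1.card : ℝ) ≤ ∑ x ∈ X, ((NiceX_bad R W η x).card : ℝ) := by exact_mod_cast h1
      refine h2.trans ?_
      rw [← hXc, ← nsmul_eq_mul, ← Finset.sum_const]
      exact Finset.sum_le_sum fun x hx => NiceX_bad_card R W ε η hη hw x (hX.deg x hx)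
    have c2 : (U2.card : ℝ) ≤ (j : ℝ) ^ 2 * (η * W.card) := by
      have h1 : U2.card ≤ ∑ p ∈ (X ×ˢ X).filter (fun p => p.1 ≠ p.2), (cod R W p.1 p.2).card :=
        Finset.card_biUnion_le
      have h2 : (U2.card : ℝ) ≤ ∑ p ∈ (X ×ˢ X).filter (fun p => p.1 ≠ p.2),
          ((cod R W p.1 p.2).card : ℝ) := by exact_mod_cast h1
      have h3 : ∑ p ∈ (X ×ˢ X).filter (fun p => p.1 ≠ p.2), ((cod R W p.1 p.2).card : ℝ) ≤
          ∑ _p ∈ (X ×ˢ X).filter (fun p => p.1 ≠ p.2), (η * (W.card : ℝ)) := by
        refine Finset.sum_le_sum fun p hp => ?_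
        obtain ⟨hp1, hp2⟩ := Finset.mem_filter.1 hp
        obtain ⟨hp3, hp4⟩ := Finset.mem_product.1 hp1
        exact (hX.cod p.1 hp3 p.2 hp4 hp2).le
      refine h2.trans (h3.trans ?_)
      rw [Finset.sum_const, nsmul_eq_mul]
      refine mul_le_mul_of_nonneg_right ?_ (by positivity)
      have h4 : ((X ×ˢ X).filter fun p => p.1 ≠ p.2).card ≤ j ^ 2 := by
        refine (Finset.card_filter_le _ _).trans ?_
        rw [Finset.card_product, hXc, sq]
      exact_mod_cast h4
    have c3 : (U.card : ℝ) ≤ ((X.card : ℝ) + (dense R W ε).card) + (U1.card + U2.card) := by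
      have h1 : U.card ≤ (X.card + (dense R W ε).card) + (U1.card + U2.card) :=
        (Finset.card_union_le _ _).trans
          (Nat.add_le_add (Finset.card_union_le _ _) (Finset.card_union_le _ _))
      exact_mod_cast h1
    have hjr : (j : ℝ) ≤ r := by exact_mod_cast (by omega : j ≤ r)
    have hj0 : (0 : ℝ) ≤ j := Nat.cast_nonneg j
    have c4 : (U.card : ℝ) < A.card := by
      have e1 : (j : ℝ) * ((ε / η) * W.card) ≤ r * (ε / η) * W.card := by
        rw [← mul_assoc]
        have := mul_le_mul_of_nonneg_right hjr (mul_pos hεη hw).le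
        linarith
      have e2 : (j : ℝ) ^ 2 * (η * W.card) ≤ (r : ℝ) ^ 2 * η * W.card := by
        have h5 : (j : ℝ) ^ 2 ≤ (r : ℝ) ^ 2 := pow_le_pow_left₀ hj0 hjr 2
        have := mul_le_mul_of_nonneg_right h5 (mul_pos hη hw).le
        linarith
      rw [hXc] at c3
      linarith
    have c5 : U.card < A.card := by exact_mod_cast c4
    obtain ⟨y, hyA, hyU⟩ := Finset.exists_mem_notMem_of_card_lt_card c5
    have hyX : y ∉ X := fun h1 => hyU (Finset.mem_union_left _ (Finset.mem_union_left _ h1))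
    have hyD : y ∉ dense R W ε :=
      fun h1 => hyU (Finset.mem_union_left _ (Finset.mem_union_right _ h1))
    have hyB : ∀ x ∈ X, y ∉ NiceX_bad R W η x := fun x hx h1 =>
      hyU (Finset.mem_union_right _ (Finset.mem_union_left _ (Finset.mem_biUnion.2 ⟨x, hx, h1⟩)))
    have hyC : ∀ x ∈ X, ∀ x' ∈ X, x ≠ x' → y ∉ cod R W x x' := fun x hx x' hx' hne h1 =>
      hyU (Finset.mem_union_right _ (Finset.mem_union_right _ (Finset.mem_biUnion.2
        ⟨(x, x'), Finset.mem_filter.2 ⟨Finset.mem_product.2 ⟨hx, hx'⟩, hne⟩, h1⟩)))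
    have hyW : y ∈ W := hA hyA
    have hyne : ∀ x ∈ X, x ≠ y := fun x hx e => hyX (e ▸ hx)
    have hcod : ∀ x ∈ X, ((cod R W x y).card : ℝ) < η * W.card := by
      intro x hx
      by_contra hcon
      exact hyB x hx (Finset.mem_filter.2 ⟨hyW, hyne x hx, not_lt.1 hcon⟩)
    have hcs : ∀ x, cod R W y x = cod R W x y := by
      intro x
      ext z
      rw [mem_cod, mem_cod]
      constructor
      · rintro ⟨h1, h2, h3, h4, h5⟩
        refine ⟨h1, h2.symm, h4, h3, ?_⟩
        rwa [Finset.insert_comm x y]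
      · rintro ⟨h1, h2, h3, h4, h5⟩
        refine ⟨h1, h2.symm, h4, h3, ?_⟩
        rwa [Finset.insert_comm y x]
    refine ⟨insert y X, Finset.insert_subset hyA hXA, ⟨Finset.insert_subset hyW hX.sub, ?_, ?_, ?_⟩,
      by rw [Finset.card_insert_of_notMem hyX, hXc]⟩
    · intro x hx
      rcases Finset.mem_insert.1 hx with rfl | hx
      · by_contra hcon
        exact hyD (mem_dense.2 ⟨hyW, not_lt.1 hcon⟩)
      · exact hX.deg x hx
    · intro x hx x' hx' hne
      rcases Finset.mem_insert.1 hx with hxy | hx1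
      · rcases Finset.mem_insert.1 hx' with hxy' | hx1'
        · exact absurd (hxy.trans hxy'.symm) hne
        · rw [hxy, hcs]
          exact hcod x' hx1'
      · rcases Finset.mem_insert.1 hx' with hxy' | hx1'
        · rw [hxy']
          exact hcod x hx1
        · exact hX.cod x hx1 x' hx1' hne
    · intro f hf hc
      by_cases hyf : y ∈ f
      · have h1 : (f.erase y).card = 2 := by rw [Finset.card_erase_of_mem hyf, hc]
        obtain ⟨x, x', hne, he⟩ := Finset.card_eq_two.1 h1
        have hxX : ∀ z ∈ f.erase y, z ∈ X := by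
          intro z hz
          obtain ⟨h2, h3⟩ := Finset.mem_erase.1 hz
          exact (Finset.mem_insert.1 (hf h3)).resolve_left h2
        have hx : x ∈ X := hxX x (by rw [he]; simp)
        have hx' : x' ∈ X := hxX x' (by rw [he]; simp)
        have hfe : f = {x, x', y} := by
          rw [← Finset.insert_erase hyf, he]
          ext z
          simp only [Finset.mem_insert, Finset.mem_singleton]
          tauto
        by_contra hcon
        rw [hfe] at hcon
        exact hyC x hx x' hx' hne (mem_cod.2 ⟨hyW, hne, hyne x hx, hyne x' hx', hcon⟩)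
      · refine hX.red f (fun z hz => ?_) hc
        rcases Finset.mem_insert.1 (hf hz) with rfl | h2
        · exact absurd hz hyf
        · exact h2

end Pool.MP7783b9
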