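import Pool.Agent.H.MP_7783b9_co.B.CoreB
import Pool.Agent.H.MP_7783b9_co.B.NiceX
import Pool.Agent.H.MP_7783b9_co.B.Dense

/-!
# The gluing step for pieces of bounded size
-/

set_option autoImplicit false

open Finset

namespace Pool.MP7783b9

theorem GlueB_hasPair_mono {α : Type*} {R : Finset α → Prop} [DecidableEq α] {a : α}
    {A B : Finset α} (h : A ⊆ B) (hA : HasPair R a A) : HasPair R a B := by
  obtain ⟨p, hp, q, hq, hpq, hR⟩ := hA
  exact ⟨p, h hp, q, h hq, hpq, hR⟩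

theorem GlueB_blueFano_mono {α : Type*} [DecidableEq α] {R : Finset α → Prop}
    {A B : Finset α} (h : A ⊆ B) (hA : BlueFano R A) : BlueFano R B := by
  obtain ⟨ψ, h1, h2, h3⟩ := hA
  exact ⟨ψ, h1, fun i => h (h2 i), h3⟩

theorem GlueB_hasRed_mono {V α : Type*} [DecidableEq V] [DecidableEq α] {R : Finset α → Prop}
    {S : Finset V} {E : Finset (Finset V)} {A B : Finset α} (h : A ⊆ B)
    (hA : HasRed R S E A) : HasRed R S E B := by
  obtain ⟨φ, h1, h2, h3⟩ := hA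
  exact ⟨φ, h1, fun v hv => h (h2 v hv), h3⟩

/-- Large subsets contain blue cliques of the link of `a`. -/
theorem GlueB_blue {s M ρ : ℕ}
    (hρ : ∀ {α : Type} [DecidableEq α] (X : Finset α) (f : α → α → Bool),
      (∀ x y, f x y = f y x) → ρ ≤ X.card →
      ∃ Y ⊆ X, Y.card = max s M ∧ ∃ c, ∀ x ∈ Y, ∀ y ∈ Y, x ≠ y → f x y = c)
    {α : Type} [DecidableEq α] (R : Finset α → Prop) (a : α) (A : Finset α)
    (hLs : ∀ B ⊆ A, s ≤ B.card → HasPair R a B) (hA : ρ ≤ A.card) :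
    ∃ Y ⊆ A, Y.card = M ∧ BlueTo R a Y := by
  classical
  obtain ⟨Y, hYA, hYc, c, hc⟩ := hρ A (fun p q => decide (R {a, p, q}))
    (fun x y => by simp only [Finset.pair_comm x y]) hA
  have hY : BlueTo R a Y := by
    obtain ⟨p, hp, q, hq, hpq, hR⟩ := hLs Y hYA (by rw [hYc]; exact le_max_left _ _)
    have h1 : c = false := by
      rw [← hc p hp q hq hpq]
      simpa using hR
    intro x hx y hy hxy
    have h2 := hc x hx y hy hxy
    rw [h1] at h2
    simpa using h2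
  obtain ⟨Y', hY', hc'⟩ := Finset.exists_subset_card_eq (s := Y) (n := M)
    (by rw [hYc]; exact le_max_right _ _)
  exact ⟨Y', hY'.trans hYA, hc', fun p hp q hq => hY p (hY' hp) q (hY' hq)⟩

/-- If no red `k`-clique in `W` is red to `a`, then all of `H` embeds into `W`. -/
theorem glue_step (Δ k : ℕ) :
    ∃ n₀ : ℕ, ∀ {V : Type*} {α : Type} [DecidableEq V] [DecidableEq α]
      (S : Finset V) (E : Finset (Finset V)) (_ : Hyp S E Δ) (R : Finset α → Prop)
      (W : Finset α) (a : α) (_ : a ∉ W) (_ : ¬ BlueFano R (insert a W))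
      (_ : n₀ ≤ S.card) (_ : S.card + k ≤ W.card + 1)
      (_ : ∀ K ⊆ W, K.card = k → RedClique R K → HasPair R a K),
      HasRed R S E W := by
  rcases Nat.eq_zero_or_pos k with rfl | hk
  · refine ⟨0, fun {V α} _ _ S E hE R W a ha hF hn hW hK => ?_⟩
    obtain ⟨p, hp, -⟩ := hK ∅ (Finset.empty_subset _) rfl (by
      intro f hf hf3
      rw [Finset.subset_empty.1 hf, Finset.card_empty] at hf3
      omega)
    exact absurd hp (Finset.notMem_empty p)
  obtain ⟨s, hs⟩ := ram3 k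
  obtain ⟨c, hc, n₁, r, hcore⟩ := core Δ s
  -- the constants
  obtain ⟨η, hη, hηc, hηr⟩ : ∃ η : ℝ, 0 < η ∧ η ≤ c ∧ (r : ℝ) ^ 2 * η ≤ 1 / 16 := by
    refine ⟨min c (1 / (16 * ((r : ℝ) + 1) ^ 2)), lt_min hc (by positivity), min_le_left _ _, ?_⟩
    have h1 : min c (1 / (16 * ((r : ℝ) + 1) ^ 2)) ≤ 1 / (16 * ((r : ℝ) + 1) ^ 2) :=
      min_le_right _ _
    have hr : (0 : ℝ) ≤ r := Nat.cast_nonneg r
    have h2 : (r : ℝ) ^ 2 * (1 / (16 * ((r : ℝ) + 1) ^ 2)) ≤ 1 / 16 := by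
      rw [mul_one_div, div_le_div_iff₀ (by positivity) (by norm_num)]
      nlinarith
    exact (mul_le_mul_of_nonneg_left h1 (by positivity)).trans h2
  obtain ⟨ε, hε, hεc, hεr⟩ : ∃ ε : ℝ, 0 < ε ∧ ε ≤ c ∧ (r : ℝ) * (ε / η) ≤ 1 / 16 := by
    refine ⟨min c (η / (16 * ((r : ℝ) + 1))), lt_min hc (by positivity), min_le_left _ _, ?_⟩
    have h1 : min c (η / (16 * ((r : ℝ) + 1))) / η ≤ 1 / (16 * ((r : ℝ) + 1)) := by
      rw [div_le_iff₀ hη]
      refine (min_le_right _ _).trans (le_of_eq ?_)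
      ring
    have hr : (0 : ℝ) ≤ r := Nat.cast_nonneg r
    have h2 : (r : ℝ) * (1 / (16 * ((r : ℝ) + 1))) ≤ 1 / 16 := by
      rw [mul_one_div, div_le_div_iff₀ (by positivity) (by norm_num)]
      nlinarith
    exact (mul_le_mul_of_nonneg_left h1 (by positivity)).trans h2
  obtain ⟨m, hm, hεm⟩ : ∃ m : ℕ, 0 < m ∧ 2 ≤ ε * m := by
    obtain ⟨m, hm⟩ := exists_nat_ge (2 / ε)
    refine ⟨m, ?_, ?_⟩
    · rcases Nat.eq_zero_or_pos m with rfl | h
      · exfalso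
        have : 0 < 2 / ε := by positivity
        simp only [Nat.cast_zero] at hm
        linarith
      · exact h
    · rw [div_le_iff₀ hε] at hm
      linarith
  have hm' : (0 : ℝ) < m := by exact_mod_cast hm
  obtain ⟨τ, hτ, hτc, hτm, hτΔ⟩ : ∃ τ : ℝ, 0 < τ ∧ τ ≤ c ∧ 2 * (m : ℝ) ^ 4 * τ ≤ 1 ∧
      ((Δ : ℝ) + 1) * τ ≤ 1 / 100 := by
    refine ⟨min c (min (1 / (2 * (m : ℝ) ^ 4)) (1 / (100 * ((Δ : ℝ) + 1)))),
      lt_min hc (lt_min (by positivity) (by positivity)), min_le_left _ _, ?_, ?_⟩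
    · have h1 : min c (min (1 / (2 * (m : ℝ) ^ 4)) (1 / (100 * ((Δ : ℝ) + 1)))) ≤
          1 / (2 * (m : ℝ) ^ 4) := (min_le_right _ _).trans (min_le_left _ _)
      refine (mul_le_mul_of_nonneg_left h1 (by positivity)).trans (le_of_eq ?_)
      field_simp
    · have h1 : min c (min (1 / (2 * (m : ℝ) ^ 4)) (1 / (100 * ((Δ : ℝ) + 1)))) ≤
          1 / (100 * ((Δ : ℝ) + 1)) := (min_le_right _ _).trans (min_le_right _ _)
      refine (mul_le_mul_of_nonneg_left h1 (by positivity)).trans (le_of_eq ?_)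
      field_simp
  obtain ⟨ρ, hρ⟩ := ram2 Bool (max s (2 * m ^ 2))
  obtain ⟨n₂, hn₂⟩ := exists_nat_ge ((ρ : ℝ) / τ)
  refine ⟨n₁ + n₂ + 100 * k + 2 * (r + 3) + 1, fun {V α} _ _ S E hE R W a ha hF hn hW hK => ?_⟩
  -- the reduction to a set of the right size
  obtain ⟨W₁, hW₁, hc₁⟩ := Finset.exists_subset_card_eq (s := W) (n := S.card + k - 1)
    (by omega)
  refine GlueB_hasRed_mono hW₁ ?_
  have hF₁ : ¬ BlueFano R (insert a W₁) := fun h =>
    hF (GlueB_blueFano_mono (Finset.insert_subset_insert a hW₁) h)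
  have hLs : ∀ A ⊆ W₁, s ≤ A.card → HasPair R a A := by
    intro A hA hsA
    rcases hs R A hsA with h | ⟨K, hKA, hKc, hKr⟩
    · exact absurd (GlueB_blueFano_mono (hA.trans (Finset.subset_insert a W₁)) h) hF₁
    · exact GlueB_hasPair_mono hKA (hK K (hKA.trans (hA.trans hW₁)) hKc hKr)
  have hwS : S.card ≤ W₁.card := by omega
  have hwn : n₁ + n₂ + 100 * k + 2 * (r + 3) + 1 ≤ W₁.card := hn.trans hwS
  have hw : ((n₁ : ℝ) + n₂ + 100 * k + 2 * (r + 3) + 1) ≤ W₁.card := by exact_mod_cast hwn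
  have hn₁ : (0 : ℝ) ≤ n₁ := Nat.cast_nonneg _
  have hn₂' : (0 : ℝ) ≤ n₂ := Nat.cast_nonneg _
  have hr0 : (0 : ℝ) ≤ r := Nat.cast_nonneg _
  have hk0 : (0 : ℝ) ≤ k := Nat.cast_nonneg _
  have hwpos : (0 : ℝ) < W₁.card := by linarith
  have hne : W₁.Nonempty := by
    rw [← Finset.card_pos]
    omega
  have hD : ((dense R W₁ ε).card : ℝ) < τ * (W₁.card : ℝ) := by
    refine few_dense R W₁ a (fun h => ha (hW₁ h)) hF₁ hne m hm ε τ hεm hτ hτm ?_
    intro A hA hcA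
    refine GlueB_blue (s := s) hρ R a A (fun B hB hsB => hLs B (hB.trans hA) hsB) ?_
    have h1 : (ρ : ℝ) ≤ A.card := by
      refine le_trans ?_ hcA
      rw [div_le_iff₀ hτ] at hn₂
      have h2 : (n₂ : ℝ) * τ ≤ (W₁.card : ℝ) * τ :=
        mul_le_mul_of_nonneg_right (by linarith) hτ.le
      linarith
    exact_mod_cast h1
  have hτ1 : τ ≤ 1 / 100 := by
    have hΔ : (0 : ℝ) ≤ Δ := Nat.cast_nonneg _
    nlinarith
  refine hcore ε η τ ((2 * (Δ : ℝ) + 2) * τ + 1 / 100) (1 / 100) hε hεc hη hηc hτ.le hτc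
    (by norm_num) (by norm_num) le_rfl S E hE R W₁ a (fun h => ha (hW₁ h)) hF₁ (by omega) hwS
    ?_ hD.le ?_ ?_
  · have h1 : (W₁.card : ℝ) = S.card + k - 1 := by
      have h2 : W₁.card + 1 = S.card + k := by omega
      have h3 : (W₁.card : ℝ) + 1 = S.card + k := by exact_mod_cast h2
      linarith
    have h4 : 100 * (k : ℝ) ≤ W₁.card := by linarith
    linarith
  · intro Φ hΦ
    have hcard : (W₁.card : ℝ) - Φ.card ≤ ((W₁ \ Φ).card : ℝ) := by
      have h2 : W₁.card ≤ (W₁ \ Φ).card + Φ.card := by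
        have := Finset.le_card_sdiff Φ W₁
        omega
      have h3 : (W₁.card : ℝ) ≤ ((W₁ \ Φ).card : ℝ) + Φ.card := by exact_mod_cast h2
      linarith
    obtain ⟨X, hX, hXn, hXc⟩ := exists_nice R W₁ ε η τ hε hη r (W₁ \ Φ)
      Finset.sdiff_subset hD.le (by
        have h5 : τ * (W₁.card : ℝ) ≤ 1 / 100 * (W₁.card : ℝ) :=
          mul_le_mul_of_nonneg_right hτ1 hwpos.le
        have h6 : (r : ℝ) * (ε / η) * (W₁.card : ℝ) ≤ 1 / 16 * (W₁.card : ℝ) :=
          mul_le_mul_of_nonneg_right hεr hwpos.le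
        have h7 : (r : ℝ) ^ 2 * η * (W₁.card : ℝ) ≤ 1 / 16 * (W₁.card : ℝ) :=
          mul_le_mul_of_nonneg_right hηr hwpos.le
        have h8 : 3 * ((2 * (Δ : ℝ) + 2) * τ + 1 / 100) * (W₁.card : ℝ) ≤
            9 / 100 * (W₁.card : ℝ) :=
          mul_le_mul_of_nonneg_right (by linarith) hwpos.le
        linarith)
    refine ⟨X, hXn, hXc, ?_, fun A hA hAs => hLs A ?_ hAs.ge⟩
    · exact Finset.disjoint_of_subset_left hX Finset.sdiff_disjoint
    · exact hA.trans (hX.trans Finset.sdiff_subset)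
  · intro U hU hUc hUr
    exact hK U (hU.trans hW₁) (by omega) hUr

end Pool.MP7783b9
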