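import Pool.Agent.H.MP_7783b9_co.B.BagsA
import Pool.Agent.H.MP_7783b9_co.B.GlueB

/-!
# The upper bound for hypergraphs that are built by gluing
-/

set_option autoImplicit false

open Finset

namespace Pool.MP7783b9

theorem BuiltU_sub {V : Type*} [DecidableEq V] {b : ℕ} {S : Finset V} {E : Finset (Finset V)}
    (h : Built b S E) : ∀ f ∈ E, f ⊆ S := by
  induction h with
  | base v => simp
  | glue S E u K E' _ hu _ _ hE' ih =>
    intro f hf
    rcases Finset.mem_union.1 hf with hf | hf
    · exact (ih f hf).trans Finset.subset_union_left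
    · refine (hE' f hf).trans ?_
      intro x hx
      rcases Finset.mem_insert.1 hx with rfl | hx
      · exact Finset.mem_union_left _ hu
      · exact Finset.mem_union_right _ hx

theorem BuiltU_fano_mono {α : Type*} [DecidableEq α] {R : Finset α → Prop} {W U : Finset α}
    (h : W ⊆ U) (hF : BlueFano R W) : BlueFano R U := by
  obtain ⟨ψ, h1, h2, h3⟩ := hF
  exact ⟨ψ, h1, fun i => h (h2 i), h3⟩

/-- extension of a copy by a red clique which is red to the image of the gluing vertex -/
theorem BuiltU_ext {V α : Type*} [DecidableEq V] [DecidableEq α] {b : ℕ} {S : Finset V}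
    {E : Finset (Finset V)} (hb : Built b S E) {u : V} {K : Finset V} {E' : Finset (Finset V)}
    (hu : u ∈ S) (hd : Disjoint S K) (hE' : ∀ f ∈ E', f ⊆ insert u K)
    (h3 : ∀ f ∈ E', f.card = 3) {R : Finset α → Prop} {U : Finset α} {φ : V → α}
    (hφ : IsCopy R S E U φ) {K₀ : Finset α} (hK₀ : K₀ ⊆ U \ S.image φ) (hc : K₀.card = K.card)
    (hr : RedClique R K₀) (hp : ¬ HasPair R (φ u) K₀) : HasRed R (S ∪ K) (E ∪ E') U := by
  obtain ⟨hinj, hmem, hred⟩ := hφ
  let e : K ≃ K₀ := Finset.equivOfCardEq hc.symm
  let φ' : V → α := fun v => if h : v ∈ K then (e ⟨v, h⟩ : α) else φ v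
  have hK : ∀ v ∈ K, φ' v ∈ K₀ := by
    intro v hv
    simp only [φ', dif_pos hv]
    exact (e ⟨v, hv⟩).2
  have hS : ∀ v ∉ K, φ' v = φ v := fun v hv => by simp only [φ', dif_neg hv]
  have hSK : ∀ v ∈ S, v ∉ K := fun v hv hv' => Finset.disjoint_left.1 hd hv hv'
  have hu' : φ' u = φ u := hS u (hSK u hu)
  have hinj' : Set.InjOn φ' (S ∪ K : Finset V) := by
    intro x hx y hy hxy
    have hx' := Finset.mem_union.1 (Finset.mem_coe.1 hx)
    have hy' := Finset.mem_union.1 (Finset.mem_coe.1 hy)
    by_cases hxK : x ∈ K
    · by_cases hyK : y ∈ K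
      · simp only [φ', dif_pos hxK, dif_pos hyK] at hxy
        have := e.injective (Subtype.ext hxy)
        exact congrArg Subtype.val this
      · exfalso
        have hyS : y ∈ S := hy'.resolve_right hyK
        have h1 := (Finset.mem_sdiff.1 (hK₀ (hK x hxK))).2
        rw [hxy, hS y hyK] at h1
        exact h1 (Finset.mem_image_of_mem φ hyS)
    · have hxS : x ∈ S := hx'.resolve_right hxK
      by_cases hyK : y ∈ K
      · exfalso
        have h1 := (Finset.mem_sdiff.1 (hK₀ (hK y hyK))).2
        rw [← hxy, hS x hxK] at h1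
        exact h1 (Finset.mem_image_of_mem φ hxS)
      · have hyS : y ∈ S := hy'.resolve_right hyK
        rw [hS x hxK, hS y hyK] at hxy
        exact hinj hxS hyS hxy
  refine ⟨φ', hinj', ?_, ?_⟩
  · intro v hv
    by_cases hvK : v ∈ K
    · exact (Finset.mem_sdiff.1 (hK₀ (hK v hvK))).1
    · rw [hS v hvK]
      exact hmem v ((Finset.mem_union.1 hv).resolve_right hvK)
  · intro f hf
    rcases Finset.mem_union.1 hf with hf | hf
    · have h1 : f.image φ' = f.image φ := by
        refine Finset.image_congr fun x hx => ?_
        exact hS x (hSK x (BuiltU_sub hb f hf hx))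
      rw [h1]
      exact hred f hf
    · have hfs : f ⊆ S ∪ K := by
        refine (hE' f hf).trans ?_
        intro x hx
        rcases Finset.mem_insert.1 hx with rfl | hx
        · exact Finset.mem_union_left _ hu
        · exact Finset.mem_union_right _ hx
      have hcard : (f.image φ').card = 3 := by
        rw [Finset.card_image_of_injOn (hinj'.mono (Finset.coe_subset.2 hfs)), h3 f hf]
      have hsub : f.image φ' ⊆ insert (φ u) K₀ := by
        intro y hy
        obtain ⟨x, hx, rfl⟩ := Finset.mem_image.1 hy
        rcases Finset.mem_insert.1 (hE' f hf hx) with rfl | hx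
        · rw [hu']; exact Finset.mem_insert_self _ _
        · exact Finset.mem_insert_of_mem (hK x hx)
      by_cases ha : φ u ∈ f.image φ'
      · have hc2 : ((f.image φ').erase (φ u)).card = 2 := by
          rw [Finset.card_erase_of_mem ha, hcard]
        obtain ⟨p, q, hpq, he⟩ := Finset.card_eq_two.1 hc2
        have hmem2 : ∀ z ∈ ({p, q} : Finset α), z ∈ K₀ := by
          intro z hz
          rw [← he] at hz
          obtain ⟨hz1, hz2⟩ := Finset.mem_erase.1 hz
          exact (Finset.mem_insert.1 (hsub hz2)).resolve_left hz1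
        have h4 : f.image φ' = {φ u, p, q} := by
          rw [← Finset.insert_erase ha, he]
        rw [h4]
        by_contra hR
        exact hp ⟨p, hmem2 p (by simp), q, hmem2 q (by simp), hpq, hR⟩
      · refine hr _ ?_ hcard
        intro y hy
        refine (Finset.mem_insert.1 (hsub hy)).resolve_left ?_
        rintro rfl
        exact ha hy

theorem built_upper (Δ b : ℕ) :
    ∃ n₀ : ℕ, ∀ {V : Type*} {α : Type} [DecidableEq V] [DecidableEq α]
      (S : Finset V) (E : Finset (Finset V)) (_ : Hyp S E Δ) (_ : Built b S E)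
      (_ : n₀ ≤ S.card) (R : Finset α → Prop) (U : Finset α) (_ : 2 * S.card - 1 ≤ U.card),
      HasRed R S E U ∨ BlueFano R U := by
  choose N hN using glue_step Δ
  refine ⟨(Finset.range (b + 1)).sup N + 1, ?_⟩
  intro V α _ _ S E hyp hb hn R U hU
  by_cases hF : BlueFano R U
  · exact Or.inr hF
  left
  have key : ∀ S' E', Built b S' E' → S' ⊆ S → E' ⊆ E →
      HasRed R S E U ∨ HasRed R S' E' U := by
    intro S' E' h
    induction h with
    | base v =>
      intro _ _
      right
      have hne : U.Nonempty := by
        rw [← Finset.card_pos]; omega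
      obtain ⟨a, ha⟩ := hne
      exact ⟨fun _ => a, by simp [Set.InjOn], fun _ _ => ha, by simp⟩
    | glue S' E' u K E'' hb' hu hd hK hE'' ih =>
      intro hS hE
      rcases ih (Finset.union_subset_left hS) (Finset.union_subset_left hE) with h1 | ⟨φ, hφ⟩
      · exact Or.inl h1
      have hWc : (U \ S'.image φ).card = U.card - S'.card := by
        rw [Finset.card_sdiff_of_subset, Finset.card_image_of_injOn hφ.1]
        intro y hy
        obtain ⟨x, hx, rfl⟩ := Finset.mem_image.1 hy
        exact hφ.2.1 x hx
      have haW : φ u ∉ U \ S'.image φ := fun h =>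
        (Finset.mem_sdiff.1 h).2 (Finset.mem_image_of_mem φ hu)
      by_cases hall : ∀ K₀ ⊆ U \ S'.image φ, K₀.card = K.card → RedClique R K₀ →
          HasPair R (φ u) K₀
      · left
        have hsum : S'.card + K.card ≤ S.card := by
          rw [← Finset.card_union_of_disjoint hd]
          exact Finset.card_le_card hS
        have hNK : N K.card ≤ (Finset.range (b + 1)).sup N :=
          Finset.le_sup (f := N) (Finset.mem_range.2 (by omega))
        have hsubU : insert (φ u) (U \ S'.image φ) ⊆ U := by
          intro y hy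
          rcases Finset.mem_insert.1 hy with rfl | hy
          · exact hφ.2.1 u hu
          · exact (Finset.mem_sdiff.1 hy).1
        obtain ⟨ψ, h1, h2, h3⟩ := hN K.card S E hyp R (U \ S'.image φ) (φ u) haW
          (fun h => hF (BuiltU_fano_mono hsubU h)) (by omega) (by rw [hWc]; omega) hall
        exact ⟨ψ, h1, fun v hv => (Finset.mem_sdiff.1 (h2 v hv)).1, h3⟩
      · right
        push Not at hall
        obtain ⟨K₀, hK₀, hc, hr, hp⟩ := hall
        exact BuiltU_ext hb' hu hd hE'' (fun f hf => hyp.three f (hE (Finset.mem_union_right _ hf)))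
          hφ hK₀ hc hr hp
  rcases key S E hb (Finset.Subset.refl _) (Finset.Subset.refl _) with h | h <;> exact h

end Pool.MP7783b9
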