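import Pool.Agent.H.MP_7783b9_co.B.BagsA
import Pool.Agent.H.MP_7783b9_co.B.BuiltU
import Pool.Agent.H.MP_7783b9_co.Final

/-!
# Hypergraphs of bounded degree with blocks of bounded size are Fano-good
-/

set_option autoImplicit false

open Finset

namespace Pool.MP7783b9

/-- the value of the Ramsey number -/
private theorem Bags_ramsey_eq {V : Type*} [Fintype V] [DecidableEq V] (E : Finset (Finset V))
    (n : ℕ) (h1 : Arrows E n) (h2 : ∀ m, m < n → ¬ Arrows E m) : ramsey E = n := by
  unfold ramsey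
  apply le_antisymm
  · exact Nat.sInf_le h1
  · by_contra hlt
    push Not at hlt
    have hne : {N | Arrows E N}.Nonempty := ⟨n, h1⟩
    exact h2 _ hlt (Nat.sInf_mem hne)

theorem small_blocks (Δ b : ℕ) :
    ∃ n₀ : ℕ, ∀ {V : Type*} [Fintype V] [DecidableEq V] (E : Finset (Finset V))
      (_ : ∀ f ∈ E, f.card = 3) (_ : ∀ x, (edgesAt E x).card ≤ Δ) (_ : (incidence E).Connected)
      {ι : Type*} [Fintype ι] (B : ι → Finset V) (_ : ∀ i, (B i).card ≤ b)
      (_ : ∀ f ∈ E, ∃ i, f ⊆ B i) (_ : (bagGraph B).IsAcyclic) (_ : n₀ ≤ Fintype.card V),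
      FanoGood E := by
  obtain ⟨n₀, hn₀⟩ := built_upper Δ b
  refine ⟨n₀ + 1, ?_⟩
  intro V _ _ E h3 hdeg hc ι _ B hB hE hac hn
  have hcard : (Finset.univ : Finset V).card = Fintype.card V := Finset.card_univ
  have hbuilt : Built b (Finset.univ : Finset V) E := built_of_bags E h3 hc b B hB hE hac
  have hyp : Hyp (Finset.univ : Finset V) E Δ := ⟨h3, fun f _ => Finset.subset_univ f, hdeg⟩
  unfold FanoGood
  apply Bags_ramsey_eq
  · apply arrows_of
    intro R
    apply hn₀ Finset.univ E hyp hbuilt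
    · rw [hcard]; omega
    · rw [hcard, Finset.card_univ, Fintype.card_fin]; omega
  · intro m hm
    apply not_arrows_of_connected E h3 hc
    omega

end Pool.MP7783b9
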