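import Pool.Agent.H.MP_7783b9_co.B.Basic

/-!
# Blocks of bounded size
-/

set_option autoImplicit false

open Finset

namespace Pool.MP7783b9

/-- `(S, E)` arises from one vertex by successively gluing hypergraphs with at most `b` new
vertices at one old vertex -/
inductive Built {V : Type*} [DecidableEq V] (b : ℕ) : Finset V → Finset (Finset V) → Prop
  | base (v : V) : Built b {v} ∅
  | glue (S : Finset V) (E : Finset (Finset V)) (u : V) (K : Finset V) (E' : Finset (Finset V)) :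
      Built b S E → u ∈ S → Disjoint S K → K.card ≤ b → (∀ f ∈ E', f ⊆ insert u K) →
      Built b (S ∪ K) (E ∪ E')

/-- The incidence graph of the vertices and of a family of bags (vertex sets) `B`. -/
def bagGraph {V ι : Type*} (B : ι → Finset V) : SimpleGraph (V ⊕ ι) where
  Adj a b := match a, b with
    | Sum.inl v, Sum.inr i => v ∈ B i
    | Sum.inr i, Sum.inl v => v ∈ B i
    | _, _ => False
  symm := ⟨by rintro (v | f) (w | g) h <;> simp_all⟩
  loopless := ⟨by rintro (v | f) h <;> simp_all⟩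

/-- the bag graph restricted to the bags in `J` -/
def BagsA_G {V ι : Type*} (B : ι → Finset V) (J : Finset ι) : SimpleGraph (V ⊕ ι) where
  Adj a b := match a, b with
    | Sum.inl v, Sum.inr i => v ∈ B i ∧ i ∈ J
    | Sum.inr i, Sum.inl v => v ∈ B i ∧ i ∈ J
    | _, _ => False
  symm := ⟨by rintro (v | f) (w | g) h <;> simp_all⟩
  loopless := ⟨by rintro (v | f) h <;> simp_all⟩

theorem BagsA_mono {V ι : Type*} (B : ι → Finset V) {J J' : Finset ι} (h : J ⊆ J') :
    BagsA_G B J ≤ BagsA_G B J' := by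
  rintro (v | i) (w | j) hadj
  · exact hadj.elim
  · exact ⟨hadj.1, h hadj.2⟩
  · exact ⟨hadj.1, h hadj.2⟩
  · exact hadj.elim

theorem BagsA_le {V ι : Type*} (B : ι → Finset V) {J : Finset ι} {i : ι} (hi : i ∉ J) (u : V) :
    BagsA_G B J ≤ (bagGraph B).deleteEdges {s(Sum.inl u, Sum.inr i)} := by
  intro x y hadj
  rw [SimpleGraph.deleteEdges_adj]
  rcases x with v | j
  · rcases y with w | k
    · exact hadj.elim
    · refine ⟨hadj.1, ?_⟩
      intro h1
      rw [Set.mem_singleton_iff, Sym2.eq_iff] at h1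
      rcases h1 with ⟨-, h1⟩ | ⟨h1, -⟩
      · exact hi (Sum.inr.inj h1 ▸ hadj.2)
      · cases h1
  · rcases y with w | k
    · refine ⟨hadj.1, ?_⟩
      intro h1
      rw [Set.mem_singleton_iff, Sym2.eq_iff] at h1
      rcases h1 with ⟨h1, -⟩ | ⟨h1, -⟩
      · cases h1
      · exact hi (Sum.inr.inj h1 ▸ hadj.2)
    · exact hadj.elim

/-- the vertices of the bags in `J` -/
def BagsA_S {V ι : Type*} [DecidableEq V] (B : ι → Finset V) (v₀ : V) (J : Finset ι) : Finset V :=
  insert v₀ (J.biUnion B)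

open Classical in
/-- the edges inside the bags in `J` -/
noncomputable def BagsA_E {V ι : Type*} (E : Finset (Finset V)) (B : ι → Finset V)
    (J : Finset ι) : Finset (Finset V) :=
  E.filter fun f => ∃ i ∈ J, f ⊆ B i

theorem BagsA_mem_E {V ι : Type*} {E : Finset (Finset V)} {B : ι → Finset V} {J : Finset ι}
    {f : Finset V} : f ∈ BagsA_E E B J ↔ f ∈ E ∧ ∃ i ∈ J, f ⊆ B i := by
  classical
  unfold BagsA_E
  rw [Finset.mem_filter]

/-- the invariant -/
def BagsA_P {V ι : Type*} [DecidableEq V] (E : Finset (Finset V)) (b : ℕ) (B : ι → Finset V)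
    (v₀ : V) (J : Finset ι) : Prop :=
  Built b (BagsA_S B v₀ J) (BagsA_E E B J) ∧
    ∀ u ∈ BagsA_S B v₀ J, (BagsA_G B J).Reachable (Sum.inl v₀) (Sum.inl u)

theorem BagsA_empty {V ι : Type*} [DecidableEq V] (E : Finset (Finset V)) (b : ℕ)
    (B : ι → Finset V) (v₀ : V) : BagsA_P E b B v₀ ∅ := by
  have h1 : BagsA_S B v₀ ∅ = {v₀} := by
    unfold BagsA_S
    rw [Finset.biUnion_empty]
    rfl
  have h2 : BagsA_E E B ∅ = ∅ := by
    unfold BagsA_E
    simp
  refine ⟨?_, ?_⟩
  · rw [h1, h2]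
    exact Built.base v₀
  · intro u hu
    rw [h1, Finset.mem_singleton] at hu
    rw [hu]

theorem BagsA_unique {V ι : Type*} [DecidableEq V] (E : Finset (Finset V)) (b : ℕ)
    (B : ι → Finset V) (v₀ : V) (hac : (bagGraph B).IsAcyclic) {J : Finset ι}
    (hP : BagsA_P E b B v₀ J) {i : ι} (hi : i ∉ J) {u u' : V} (hu : u ∈ B i)
    (huS : u ∈ BagsA_S B v₀ J) (hu' : u' ∈ B i) (huS' : u' ∈ BagsA_S B v₀ J) : u' = u := by
  by_contra hne
  have hadj : (bagGraph B).Adj (Sum.inl u) (Sum.inr i) := hu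
  have hbr := (SimpleGraph.isAcyclic_iff_forall_adj_isBridge.1 hac) hadj
  rw [SimpleGraph.isBridge_iff] at hbr
  refine hbr ?_
  have h1 : ((bagGraph B).deleteEdges {s(Sum.inl u, Sum.inr i)}).Reachable
      (Sum.inl u) (Sum.inl u') :=
    ((hP.2 u huS).symm.trans (hP.2 u' huS')).mono (BagsA_le B hi u)
  refine h1.trans (SimpleGraph.Adj.reachable ?_)
  rw [SimpleGraph.deleteEdges_adj]
  refine ⟨hu', ?_⟩
  intro h2
  rw [Set.mem_singleton_iff, Sym2.eq_iff] at h2
  rcases h2 with ⟨h2, -⟩ | ⟨h2, -⟩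
  · exact hne (Sum.inl.inj h2)
  · cases h2

theorem BagsA_step {V ι : Type*} [DecidableEq V] [DecidableEq ι] (E : Finset (Finset V)) (b : ℕ)
    (B : ι → Finset V) (hB : ∀ i, (B i).card ≤ b) (v₀ : V) (hac : (bagGraph B).IsAcyclic)
    {J : Finset ι} (hP : BagsA_P E b B v₀ J) {i : ι} (hi : i ∉ J) {u : V} (hu : u ∈ B i)
    (huS : u ∈ BagsA_S B v₀ J) : BagsA_P E b B v₀ (insert i J) := by
  classical
  have hS : BagsA_S B v₀ (insert i J) = BagsA_S B v₀ J ∪ (B i \ BagsA_S B v₀ J) := by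
    rw [Finset.union_sdiff_self_eq_union]
    unfold BagsA_S
    rw [Finset.biUnion_insert, Finset.insert_union, Finset.union_comm (B i)]
  have hE : BagsA_E E B (insert i J) = BagsA_E E B J ∪ E.filter fun f => f ⊆ B i := by
    unfold BagsA_E
    ext f
    simp only [Finset.mem_filter, Finset.mem_union, Finset.mem_insert]
    constructor
    · rintro ⟨h1, j, rfl | hj, h2⟩
      · exact Or.inr ⟨h1, h2⟩
      · exact Or.inl ⟨h1, j, hj, h2⟩
    · rintro (⟨h1, j, hj, h2⟩ | ⟨h1, h2⟩)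
      · exact ⟨h1, j, Or.inr hj, h2⟩
      · exact ⟨h1, i, Or.inl rfl, h2⟩
  refine ⟨?_, ?_⟩
  · rw [hS, hE]
    refine Built.glue _ _ u _ _ hP.1 huS Finset.disjoint_sdiff
      ((Finset.card_le_card Finset.sdiff_subset).trans (hB i)) ?_
    intro f hf w hw
    have hw' : w ∈ B i := (Finset.mem_filter.1 hf).2 hw
    rw [Finset.mem_insert]
    by_cases hwS : w ∈ BagsA_S B v₀ J
    · exact Or.inl (BagsA_unique E b B v₀ hac hP hi hu huS hw' hwS)
    · exact Or.inr (Finset.mem_sdiff.2 ⟨hw', hwS⟩)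
  · intro w hw
    rw [hS, Finset.mem_union, Finset.mem_sdiff] at hw
    have hmono := BagsA_mono B (Finset.subset_insert i J)
    rcases hw with hw | ⟨hw, -⟩
    · exact (hP.2 w hw).mono hmono
    · refine ((hP.2 u huS).mono hmono).trans ?_
      have h1 : (BagsA_G B (insert i J)).Adj (Sum.inl u) (Sum.inr i) :=
        ⟨hu, Finset.mem_insert_self i J⟩
      have h2 : (BagsA_G B (insert i J)).Adj (Sum.inr i) (Sum.inl w) :=
        ⟨hw, Finset.mem_insert_self i J⟩
      exact h1.reachable.trans h2.reachable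

/-- being inside `S` -/
def BagsA_Q {V : Type*} {E : Finset (Finset V)} (S : Finset V) (x : V ⊕ {f // f ∈ E}) : Prop :=
  match x with
  | Sum.inl v => v ∈ S
  | Sum.inr f => f.1 ⊆ S

theorem BagsA_reach {V : Type*} {E : Finset (Finset V)} {S : Finset V}
    (h : ∀ f ∈ E, (∃ v ∈ f, v ∈ S) → f ⊆ S) {x y : V ⊕ {f // f ∈ E}}
    (w : (incidence E).Walk x y) : BagsA_Q S x → BagsA_Q S y := by
  induction w with
  | nil => exact id
  | @cons a c d hadj p ih =>
    intro hx
    apply ih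
    rcases a with v | f
    · rcases c with v' | f'
      · exact hadj.elim
      · exact h f'.1 f'.2 ⟨v, hadj, hx⟩
    · rcases c with v' | f'
      · exact hx hadj
      · exact hadj.elim

/-- a connected hypergraph with a tree-like cover by bags of size at most `b + 1` is built by gluing -/
theorem built_of_bags {V : Type*} [Fintype V] [DecidableEq V] (E : Finset (Finset V))
    (h3 : ∀ f ∈ E, f.card = 3) (hc : (incidence E).Connected) (b : ℕ) {ι : Type*} [Fintype ι]
    (B : ι → Finset V) (hB : ∀ i, (B i).card ≤ b) (hE : ∀ f ∈ E, ∃ i, f ⊆ B i)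
    (hac : (bagGraph B).IsAcyclic) : Built b (Finset.univ : Finset V) E := by
  classical
  have hne : ∀ f ∈ E, ∃ v, v ∈ f := fun f hf => by
    have h1 : 0 < f.card := by rw [h3 f hf]; norm_num
    exact Finset.card_pos.1 h1
  obtain ⟨v₀⟩ : Nonempty V := by
    obtain ⟨x⟩ := hc.nonempty
    rcases x with v | f
    · exact ⟨v⟩
    · obtain ⟨v, -⟩ := hne f.1 f.2
      exact ⟨v⟩
  obtain ⟨J, hJ, hmax⟩ := Finset.exists_max_image
    ((Finset.univ : Finset (Finset ι)).filter fun J => BagsA_P E b B v₀ J) Finset.card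
    ⟨∅, Finset.mem_filter.2 ⟨Finset.mem_univ _, BagsA_empty E b B v₀⟩⟩
  have hP := (Finset.mem_filter.1 hJ).2
  have hin : ∀ f ∈ E, (∃ v ∈ f, v ∈ BagsA_S B v₀ J) → ∃ i ∈ J, f ⊆ B i := by
    rintro f hf ⟨v, hv, hvS⟩
    obtain ⟨i, hi⟩ := hE f hf
    by_cases hiJ : i ∈ J
    · exact ⟨i, hiJ, hi⟩
    · exfalso
      have h1 := BagsA_step E b B hB v₀ hac hP hiJ (hi hv) hvS
      have h2 := hmax _ (Finset.mem_filter.2 ⟨Finset.mem_univ _, h1⟩)
      rw [Finset.card_insert_of_notMem hiJ] at h2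
      omega
  have hin' : ∀ f ∈ E, (∃ v ∈ f, v ∈ BagsA_S B v₀ J) → f ⊆ BagsA_S B v₀ J := by
    intro f hf h1
    obtain ⟨i, hi, h2⟩ := hin f hf h1
    intro w hw
    exact Finset.mem_insert_of_mem (Finset.mem_biUnion.2 ⟨i, hi, h2 hw⟩)
  have hS : BagsA_S B v₀ J = Finset.univ := by
    rw [Finset.eq_univ_iff_forall]
    intro v
    obtain ⟨w⟩ := hc.preconnected (Sum.inl v₀) (Sum.inl v)
    have h0 : BagsA_Q (E := E) (BagsA_S B v₀ J) (Sum.inl v₀) := Finset.mem_insert_self _ _
    exact BagsA_reach hin' w h0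
  have hEJ : BagsA_E E B J = E := by
    ext f
    constructor
    · intro hf
      exact (BagsA_mem_E.1 hf).1
    · intro hf
      obtain ⟨v, hv⟩ := hne f hf
      refine BagsA_mem_E.2 ⟨hf, hin f hf ⟨v, hv, ?_⟩⟩
      rw [hS]
      exact Finset.mem_univ v
  have h := hP.1
  rw [hS, hEJ] at h
  exact h

end Pool.MP7783b9
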