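import Pool.Agent.H.MP_7783b9_co.Core

/-!
# Fano-goodness, bounded degree: working definitions

`R` is the set of red triples; a triple is blue if it is not red.
-/

set_option autoImplicit false

open Finset

namespace Pool.MP7783b9

/-- all triples inside `X` are red -/
def RedClique {α : Type*} (R : Finset α → Prop) (X : Finset α) : Prop :=
  ∀ f : Finset α, f ⊆ X → f.card = 3 → R f

section

variable {α : Type*} [DecidableEq α]

/-- the pair `p, q` is blue with `v` (and `v, p, q` are distinct) -/
def Blue3 (R : Finset α → Prop) (v p q : α) : Prop :=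
  v ≠ p ∧ v ≠ q ∧ p ≠ q ∧ ¬ R {v, p, q}

open Classical in
/-- ordered pairs of `W` that are blue with `v` -/
noncomputable def bpairs (R : Finset α → Prop) (W : Finset α) (v : α) : Finset (α × α) :=
  (W ×ˢ W).filter fun p => Blue3 R v p.1 p.2

open Classical in
/-- the vertices of `W` that are blue with the pair `u, v` -/
noncomputable def cod (R : Finset α → Prop) (W : Finset α) (u v : α) : Finset α :=
  W.filter fun z => Blue3 R u v z

open Classical in
/-- vertices of `W` of large blue degree -/
noncomputable def dense (R : Finset α → Prop) (W : Finset α) (ε : ℝ) : Finset α :=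
  W.filter fun v => ε * (W.card : ℝ) ^ 2 ≤ ((bpairs R W v).card : ℝ)

/-- a nice set: a red clique in `W` that avoids the vertices of large blue degree and all of whose
pairs have small blue codegree -/
structure Nice (R : Finset α → Prop) (W : Finset α) (ε η : ℝ) (X : Finset α) : Prop where
  sub : X ⊆ W
  deg : ∀ x ∈ X, ((bpairs R W x).card : ℝ) < ε * (W.card : ℝ) ^ 2
  cod : ∀ x ∈ X, ∀ y ∈ X, x ≠ y → ((cod R W x y).card : ℝ) < η * (W.card : ℝ)
  red : RedClique R X

/-- all pairs of `Y` are red with `v` -/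
def RedTo (R : Finset α → Prop) (v : α) (Y : Finset α) : Prop :=
  v ∉ Y ∧ ∀ p ∈ Y, ∀ q ∈ Y, p ≠ q → R {v, p, q}

/-- `A` contains a pair that is blue with `a` -/
def HasPair (R : Finset α → Prop) (a : α) (A : Finset α) : Prop :=
  ∃ p ∈ A, ∃ q ∈ A, p ≠ q ∧ ¬ R {a, p, q}

/-- `M` is a clique of the blue link of `a` -/
def BlueTo (R : Finset α → Prop) (a : α) (M : Finset α) : Prop :=
  ∀ p ∈ M, ∀ q ∈ M, p ≠ q → ¬ R {a, p, q}

/-- `v` is usable: outside every small set there is a nice `t`-set which is red to `v` -/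
def Usable (R : Finset α → Prop) (W : Finset α) (ε η φ : ℝ) (t : ℕ) (v : α) : Prop :=
  ∀ Φ : Finset α, (Φ.card : ℝ) ≤ φ * (W.card : ℝ) →
    ∃ Y, Nice R W ε η Y ∧ Y.card = t ∧ Disjoint Y Φ ∧ RedTo R v Y

theorem pair_rot (a b c : α) : ({a, b, c} : Finset α) = {b, c, a} := by
  ext z
  simp only [Finset.mem_insert, Finset.mem_singleton]
  tauto

theorem Blue3.swap {R : Finset α → Prop} {v p q : α} (h : Blue3 R v p q) : Blue3 R v q p := by
  obtain ⟨h1, h2, h3, h4⟩ := h
  exact ⟨h2, h1, h3.symm, by rwa [Finset.pair_comm q p]⟩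

theorem Blue3.rot {R : Finset α → Prop} {v p q : α} (h : Blue3 R v p q) : Blue3 R p q v := by
  obtain ⟨h1, h2, h3, h4⟩ := h
  exact ⟨h3, h1.symm, h2.symm, by rwa [← pair_rot v p q]⟩

theorem mem_bpairs {R : Finset α → Prop} {W : Finset α} {v p q : α} :
    (p, q) ∈ bpairs R W v ↔ p ∈ W ∧ q ∈ W ∧ Blue3 R v p q := by
  classical
  unfold bpairs
  rw [Finset.mem_filter, Finset.mem_product, and_assoc]

theorem mem_cod {R : Finset α → Prop} {W : Finset α} {u v z : α} :
    z ∈ cod R W u v ↔ z ∈ W ∧ Blue3 R u v z := by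
  classical
  unfold Pool.MP7783b9.cod
  rw [Finset.mem_filter]

theorem mem_dense {R : Finset α → Prop} {W : Finset α} {ε : ℝ} {v : α} :
    v ∈ dense R W ε ↔ v ∈ W ∧ ε * (W.card : ℝ) ^ 2 ≤ ((bpairs R W v).card : ℝ) := by
  classical
  unfold Pool.MP7783b9.dense
  rw [Finset.mem_filter]

theorem Nice.subset {R : Finset α → Prop} {W : Finset α} {ε η : ℝ} {X Y : Finset α}
    (h : Nice R W ε η X) (hY : Y ⊆ X) : Nice R W ε η Y where
  sub := hY.trans h.sub
  deg := fun x hx => h.deg x (hY hx)
  cod := fun x hx y hy => h.cod x (hY hx) y (hY hy)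
  red := fun f hf => h.red f (hf.trans hY)

end

section

variable {V : Type*} [DecidableEq V]

/-- the edges at `x` -/
def edgesAt (E : Finset (Finset V)) (x : V) : Finset (Finset V) := E.filter fun f => x ∈ f

/-- the closed neighbourhood of `x` -/
def nbc (E : Finset (Finset V)) (x : V) : Finset V := insert x ((edgesAt E x).biUnion id)

/-- the neighbours of `x` -/
def nbo (E : Finset (Finset V)) (x : V) : Finset V := (nbc E x).erase x

/-- a 3-uniform hypergraph with vertex set `S` and maximum degree at most `Δ` -/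
structure Hyp (S : Finset V) (E : Finset (Finset V)) (Δ : ℕ) : Prop where
  three : ∀ f ∈ E, f.card = 3
  sub : ∀ f ∈ E, f ⊆ S
  deg : ∀ x, (edgesAt E x).card ≤ Δ

end

end Pool.MP7783b9
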