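import Pool.Agent.H.MP_7783b9_co.B.Perm

/-!
# A bijection which avoids a sparse family of partial maps
-/

set_option autoImplicit false

open Finset

namespace Pool.MP7783b9

/-- the probability of a canonical event -/
theorem Pack_prob {A B : Type*} [Fintype A] [Fintype B] [DecidableEq A] [DecidableEq B]
    (hAB : Fintype.card A = Fintype.card B) (T : Finset A) (τ : A → B)
    (hτ : Set.InjOn τ T) :
    ((ext T τ).card : ℝ) / (Fintype.card (A ≃ B) : ℝ) =
      (1 : ℝ) / ((Fintype.card A).descFactorial T.card : ℝ) := by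
  have hc : (ext T τ).card * (Fintype.card A).descFactorial T.card = Fintype.card (A ≃ B) :=
    card_ext hAB T τ hτ
  have hΩ : 0 < Fintype.card (A ≃ B) :=
    Fintype.card_pos_iff.2 (Fintype.card_eq.1 hAB)
  have hd : 0 < (Fintype.card A).descFactorial T.card :=
    Nat.descFactorial_pos.2 (Finset.card_le_univ T)
  have hΩ' : (Fintype.card (A ≃ B) : ℝ) ≠ 0 := by exact_mod_cast hΩ.ne'
  have hd' : ((Fintype.card A).descFactorial T.card : ℝ) ≠ 0 := by exact_mod_cast hd.ne'
  rw [div_eq_div_iff hΩ' hd', one_mul]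
  exact_mod_cast hc

/-- a weighted count of the indices whose set meets a given set -/
theorem Pack_meet {X ι : Type*} [DecidableEq X] (I : Finset ι) (S : ι → Finset X) (w : ι → ℝ)
    (U : Finset X)
    (hU : U.card ≤ 3) (hS : ∀ x, ∑ i ∈ I with x ∈ S i, w i ≤ 1 / 24) :
    ∑ j ∈ I, ∑ x ∈ U, (if x ∈ S j then w j else 0) ≤ 1 / 8 := by
  rw [Finset.sum_comm]
  calc ∑ x ∈ U, ∑ j ∈ I, (if x ∈ S j then w j else 0)
      = ∑ x ∈ U, ∑ i ∈ I with x ∈ S i, w i :=
        Finset.sum_congr rfl fun x _ => (Finset.sum_filter _ _).symm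
    _ ≤ ∑ _x ∈ U, (1 / 24 : ℝ) := Finset.sum_le_sum fun x _ => hS x
    _ = (U.card : ℝ) * (1 / 24) := by rw [Finset.sum_const, nsmul_eq_mul]
    _ ≤ 3 * (1 / 24) := by
        refine mul_le_mul_of_nonneg_right ?_ (by norm_num)
        exact_mod_cast hU
    _ = 1 / 8 := by norm_num

theorem pack {A B ι : Type*} [Fintype A] [Fintype B] [DecidableEq A] [DecidableEq B]
    (hAB : Fintype.card A = Fintype.card B) (I : Finset ι) (T : ι → Finset A) (τ : ι → A → B)
    (hT : ∀ i ∈ I, (T i).Nonempty ∧ (T i).card ≤ 3) (hinj : ∀ i ∈ I, Set.InjOn (τ i) (T i))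
    (hx : ∀ x, ∑ i ∈ I with x ∈ T i,
      (1 : ℝ) / ((Fintype.card A).descFactorial (T i).card : ℝ) ≤ 1 / 24)
    (hp : ∀ p, ∑ i ∈ I with p ∈ (T i).image (τ i),
      (1 : ℝ) / ((Fintype.card A).descFactorial (T i).card : ℝ) ≤ 1 / 24) :
    ∃ g : A ≃ B, ∀ i ∈ I, ∃ x ∈ T i, g x ≠ τ i x := by
  classical
  have hne : Nonempty (A ≃ B) := Fintype.card_eq.1 hAB
  set w : ι → ℝ := fun i => (1 : ℝ) / ((Fintype.card A).descFactorial (T i).card : ℝ) with hw
  have hw0 : ∀ i, 0 ≤ w i := fun i => by
    simp only [hw]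
    positivity
  have hprob : ∀ i ∈ I, ((ext (T i) (τ i)).card : ℝ) / (Fintype.card (A ≃ B) : ℝ) = w i :=
    fun i hi => Pack_prob hAB (T i) (τ i) (hinj i hi)
  set Γ : ι → Finset ι := fun i => I.filter fun j =>
    ¬ (Disjoint (T i) (T j) ∧ Disjoint ((T i).image (τ i)) ((T j).image (τ j))) with hΓ
  suffices h : ∃ g : A ≃ B, ∀ i ∈ I, g ∉ ext (T i) (τ i) by
    obtain ⟨g, hg⟩ := h
    refine ⟨g, fun i hi => ?_⟩
    have := hg i hi
    simp only [ext, Finset.mem_filter, Finset.mem_univ, true_and, not_forall] at this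
    obtain ⟨x, hx1, hx2⟩ := this
    exact ⟨x, hx1, hx2⟩
  refine lop_local I (fun i => ext (T i) (τ i)) Γ ?_ ?_ ?_
  · intro i hi S hS
    have := neg_dep hAB (T i) (τ i) (hinj i hi) S T τ fun j hj => by
      have h1 := hS hj
      rw [Finset.mem_sdiff] at h1
      obtain ⟨h2, h3⟩ := h1
      by_contra h4
      exact h3 (Finset.mem_filter.2 ⟨h2, h4⟩)
    exact_mod_cast this
  · intro i hi
    have h1 : ∑ j ∈ I ∩ Γ i, ((ext (T j) (τ j)).card : ℝ) / (Fintype.card (A ≃ B) : ℝ) =
        ∑ j ∈ I ∩ Γ i, w j :=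
      Finset.sum_congr rfl fun j hj => hprob j (Finset.mem_inter.1 hj).1
    rw [h1]
    set F : ι → ℝ := fun j => (∑ x ∈ T i, if x ∈ T j then w j else 0) +
      ∑ p ∈ (T i).image (τ i), if p ∈ (T j).image (τ j) then w j else 0 with hF
    have hA0 : ∀ j, 0 ≤ ∑ x ∈ T i, (if x ∈ T j then w j else 0) := fun j =>
      Finset.sum_nonneg fun x _ => by
        split_ifs
        · exact hw0 j
        · exact le_refl 0
    have hB0 : ∀ j, 0 ≤ ∑ p ∈ (T i).image (τ i), (if p ∈ (T j).image (τ j) then w j else 0) :=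
      fun j => Finset.sum_nonneg fun x _ => by
        split_ifs
        · exact hw0 j
        · exact le_refl 0
    have hF0 : ∀ j, 0 ≤ F j := fun j => add_nonneg (hA0 j) (hB0 j)
    have h2 : ∑ j ∈ I ∩ Γ i, w j ≤ ∑ j ∈ I ∩ Γ i, F j := by
      refine Finset.sum_le_sum fun j hj => ?_
      have hj2 := (Finset.mem_filter.1 (Finset.mem_inter.1 hj).2).2
      rw [not_and_or, Finset.not_disjoint_iff, Finset.not_disjoint_iff] at hj2
      rcases hj2 with ⟨x, hx1, hx2⟩ | ⟨p, hp1, hp2⟩
      · have := Finset.single_le_sum (f := fun x => if x ∈ T j then w j else 0)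
          (fun y _ => by
            show 0 ≤ if y ∈ T j then w j else 0
            split_ifs
            · exact hw0 j
            · exact le_refl 0) hx1
        simp only [if_pos hx2] at this
        have hb := hB0 j
        simp only [hF]
        linarith
      · have := Finset.single_le_sum (f := fun p => if p ∈ (T j).image (τ j) then w j else 0)
          (fun y _ => by
            show 0 ≤ if y ∈ (T j).image (τ j) then w j else 0
            split_ifs
            · exact hw0 j
            · exact le_refl 0) hp1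
        simp only [if_pos hp2] at this
        have ha := hA0 j
        simp only [hF]
        linarith
    have h3 : ∑ j ∈ I ∩ Γ i, F j ≤ ∑ j ∈ I, F j :=
      Finset.sum_le_sum_of_subset_of_nonneg Finset.inter_subset_left fun j _ _ => hF0 j
    have h4 : ∑ j ∈ I, F j ≤ 1 / 8 + 1 / 8 := by
      simp only [hF]
      rw [Finset.sum_add_distrib]
      exact add_le_add (Pack_meet I T w (T i) (hT i hi).2 hx)
        (Pack_meet I (fun j => (T j).image (τ j)) w ((T i).image (τ i))
          (Finset.card_image_le.trans (hT i hi).2) hp)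
    linarith
  · intro i hi
    rw [hprob i hi]
    obtain ⟨x, hx1⟩ := (hT i hi).1
    have h1 := hx x
    have h2 := Finset.single_le_sum (s := I.filter fun i => x ∈ T i) (f := w)
      (fun j _ => hw0 j) (Finset.mem_filter.2 ⟨hi, hx1⟩)
    have h3 : w i ≤ 1 / 24 := h2.trans h1
    linarith

end Pool.MP7783b9
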