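import Pool.Agent.H.MP_7783b9_co.B.Basic
import Pool.Agent.H.MP_7783b9_co.B.Pack

/-!
# Embedding a hypergraph of bounded degree into a set with few blue triples
-/

set_option autoImplicit false

open Finset

namespace Pool.MP7783b9

section

variable {V : Type*} {α : Type} [DecidableEq V] [DecidableEq α]

theorem Fixed_fin3 : ∀ a b c : Fin 3, a ≠ b → a ≠ c → b ≠ c → ∀ j, j = a ∨ j = b ∨ j = c := by
  decide

theorem Fixed_img (σ : Fin 3 → α) (a b c : Fin 3) (hab : a ≠ b) (hac : a ≠ c) (hbc : b ≠ c) :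
    Finset.univ.image σ = {σ a, σ b, σ c} := by
  ext z
  simp only [Finset.mem_image, Finset.mem_univ, true_and, Finset.mem_insert,
    Finset.mem_singleton]
  constructor
  · rintro ⟨j, rfl⟩
    rcases Fixed_fin3 a b c hab hac hbc j with rfl | rfl | rfl
    · exact Or.inl rfl
    · exact Or.inr (Or.inl rfl)
    · exact Or.inr (Or.inr rfl)
  · rintro (rfl | rfl | rfl)
    · exact ⟨a, rfl⟩
    · exact ⟨b, rfl⟩
    · exact ⟨c, rfl⟩

theorem Fixed_en [Nonempty V] : ∃ en : Finset V → Fin 3 → V, ∀ f, f.card = 3 →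
    Function.Injective (en f) ∧ Finset.univ.image (en f) = f := by
  classical
  have h : ∀ f : Finset V, ∃ e : Fin 3 → V, f.card = 3 →
      Function.Injective e ∧ Finset.univ.image e = f := by
    intro f
    by_cases hf : f.card = 3
    · let e := (Finset.equivFinOfCardEq hf).symm
      refine ⟨fun i => (e i : V), fun _ => ⟨?_, ?_⟩⟩
      · intro i j hij
        exact e.injective (Subtype.ext hij)
      · ext z
        simp only [Finset.mem_image, Finset.mem_univ, true_and]
        constructor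
        · rintro ⟨i, rfl⟩
          exact (e i).2
        · intro hz
          exact ⟨e.symm ⟨z, hz⟩, by simp⟩
    · exact ⟨fun _ => Classical.arbitrary V, fun h => absurd h hf⟩
  choose en hen using h
  exact ⟨en, hen⟩

open Classical in
/-- the blue images of the edge `f` which are compatible with the prescribed map -/
noncomputable def FixedSig (R : Finset α → Prop) (W' : Finset α) (X : Finset V) (φ : V → α)
    (e : Fin 3 → V) : Finset (Fin 3 → α) :=
  (Fintype.piFinset fun _ : Fin 3 => W').filter fun σ =>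
    (∀ j, e j ∈ X → σ j = φ (e j)) ∧ (∀ j, e j ∉ X → σ j ∉ X.image φ) ∧
      Function.Injective σ ∧ ¬ R (Finset.univ.image σ)

theorem mem_FixedSig {R : Finset α → Prop} {W' : Finset α} {X : Finset V} {φ : V → α}
    {e : Fin 3 → V} {σ : Fin 3 → α} : σ ∈ FixedSig R W' X φ e ↔ (∀ j, σ j ∈ W') ∧
    (∀ j, e j ∈ X → σ j = φ (e j)) ∧ (∀ j, e j ∉ X → σ j ∉ X.image φ) ∧
      Function.Injective σ ∧ ¬ R (Finset.univ.image σ) := by
  classical
  unfold FixedSig
  rw [Finset.mem_filter, Fintype.mem_piFinset]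

/-- the free indices -/
def FixedFree (X : Finset V) (e : Fin 3 → V) : Finset (Fin 3) :=
  Finset.univ.filter fun j => e j ∉ X

theorem Fixed_blue {R : Finset α → Prop} {W' : Finset α} {X : Finset V} {φ : V → α}
    {e : Fin 3 → V} {σ : Fin 3 → α} (h : σ ∈ FixedSig R W' X φ e) {a b c : Fin 3}
    (hab : a ≠ b) (hac : a ≠ c) (hbc : b ≠ c) : Blue3 R (σ a) (σ b) (σ c) := by
  rw [mem_FixedSig] at h
  obtain ⟨-, -, -, hinj, hR⟩ := h
  refine ⟨fun h => hab (hinj h), fun h => hac (hinj h), fun h => hbc (hinj h), ?_⟩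
  rwa [← Fixed_img σ a b c hab hac hbc]

/-- number of blue images with a prescribed value at `a` -/
theorem Fixed_count2 {R : Finset α → Prop} {W W' : Finset α} (hW : W' ⊆ W) {X : Finset V}
    {φ : V → α} {e : Fin 3 → V} {a b c : Fin 3} (hab : a ≠ b) (hac : a ≠ c) (hbc : b ≠ c)
    (p : α) (Q : Finset (Fin 3 → α)) (hQ : ∀ σ ∈ Q, σ ∈ FixedSig R W' X φ e ∧ σ a = p) :
    Q.card ≤ (bpairs R W p).card := by
  refine Finset.card_le_card_of_injOn (fun σ => (σ b, σ c)) ?_ ?_
  · intro σ hσ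
    obtain ⟨h1, h2⟩ := hQ σ hσ
    have hb := Fixed_blue h1 hab hac hbc
    rw [h2] at hb
    rw [mem_FixedSig] at h1
    exact Finset.mem_coe.2 (mem_bpairs.2 ⟨hW (h1.1 b), hW (h1.1 c), hb⟩)
  · intro σ hσ σ' hσ' heq
    simp only [Prod.mk.injEq] at heq
    have h1 := (hQ σ hσ).2
    have h2 := (hQ σ' hσ').2
    funext j
    rcases Fixed_fin3 a b c hab hac hbc j with rfl | rfl | rfl
    · rw [h1, h2]
    · exact heq.1
    · exact heq.2

theorem Fixed_count1 {R : Finset α → Prop} {W W' : Finset α} (hW : W' ⊆ W) {X : Finset V}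
    {φ : V → α} {e : Fin 3 → V} {a b c : Fin 3} (hab : a ≠ b) (hac : a ≠ c) (hbc : b ≠ c)
    (p q : α) (Q : Finset (Fin 3 → α))
    (hQ : ∀ σ ∈ Q, σ ∈ FixedSig R W' X φ e ∧ σ a = p ∧ σ b = q) :
    Q.card ≤ (cod R W p q).card := by
  refine Finset.card_le_card_of_injOn (fun σ => σ c) ?_ ?_
  · intro σ hσ
    obtain ⟨h1, h2, h3⟩ := hQ σ hσ
    have hb := Fixed_blue h1 hab hac hbc
    rw [h2, h3] at hb
    rw [mem_FixedSig] at h1
    exact Finset.mem_coe.2 (mem_cod.2 ⟨hW (h1.1 c), hb⟩)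
  · intro σ hσ σ' hσ' heq
    have h1 := (hQ σ hσ).2
    have h2 := (hQ σ' hσ').2
    funext j
    rcases Fixed_fin3 a b c hab hac hbc j with rfl | rfl | rfl
    · rw [h1.1, h2.1]
    · rw [h1.2, h2.2]
    · exact heq

omit [DecidableEq α] in
/-- number of maps which are prescribed outside `J` -/
theorem Fixed_countJ {W : Finset α} (J : Finset (Fin 3)) (s : Fin 3 → α)
    (Q : Finset (Fin 3 → α)) (hQ : ∀ σ ∈ Q, (∀ j, σ j ∈ W) ∧ ∀ j, j ∉ J → σ j = s j) :
    Q.card ≤ W.card ^ J.card := by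
  classical
  have h : (Fintype.piFinset fun _ : J => W).card = W.card ^ J.card := by
    rw [Fintype.card_piFinset, Finset.prod_const, Finset.card_univ, Fintype.card_coe]
  rw [← h]
  refine Finset.card_le_card_of_injOn (fun σ j => σ j.1) ?_ ?_
  · intro σ hσ
    refine Finset.mem_coe.2 (Fintype.mem_piFinset.2 fun j => (hQ σ hσ).1 _)
  · intro σ hσ σ' hσ' heq
    funext j
    by_cases hj : j ∈ J
    · exact congrFun heq ⟨j, hj⟩
    · rw [(hQ σ hσ).2 j hj, (hQ σ' hσ').2 j hj]

theorem Fixed_other2 : ∀ b c : Fin 3, ∃ a, a ≠ b ∧ a ≠ c := by decide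

theorem Fixed_other1 : ∀ c : Fin 3, ∃ a b, a ≠ b ∧ a ≠ c ∧ b ≠ c := by decide

theorem mem_FixedFree {X : Finset V} {e : Fin 3 → V} {j : Fin 3} :
    j ∈ FixedFree X e ↔ e j ∉ X := by
  unfold FixedFree
  rw [Finset.mem_filter]
  simp

/-- the number of blue images of an edge -/
theorem Fixed_N {R : Finset α → Prop} {W W' : Finset α} (hW : W' ⊆ W) {X : Finset V}
    {φ : V → α} {e : Fin 3 → V} {c : ℝ} (hc : 0 < c)
    (h3 : ∀ p ∈ W', p ∉ X.image φ → ((bpairs R W p).card : ℝ) ≤ c * (W.card : ℝ) ^ 2)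
    (h2 : ∀ j, e j ∈ X → (∀ j', j' ≠ j → e j' ∉ X) →
      ((bpairs R W (φ (e j))).card : ℝ) ≤ c * (W.card : ℝ) ^ 2)
    (h1 : ∀ i j k, e i ∈ X → e j ∈ X → i ≠ j → e k ∉ X →
      ((cod R W (φ (e i)) (φ (e j))).card : ℝ) ≤ c * (W.card : ℝ))
    (hne : (FixedFree X e).Nonempty) :
    ((FixedSig R W' X φ e).card : ℝ) ≤ c * (W.card : ℝ) ^ (FixedFree X e).card := by
  classical
  have hle : (FixedFree X e).card ≤ 3 := by
    calc (FixedFree X e).card ≤ (Finset.univ : Finset (Fin 3)).card :=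
          Finset.card_le_card (Finset.subset_univ _)
      _ = 3 := by simp
  have hpos : 0 < (FixedFree X e).card := Finset.card_pos.2 hne
  obtain h | h | h : (FixedFree X e).card = 1 ∨ (FixedFree X e).card = 2 ∨
      (FixedFree X e).card = 3 := by omega
  · obtain ⟨k, hk⟩ := Finset.card_eq_one.1 h
    obtain ⟨i, j, hij, hik, hjk⟩ := Fixed_other1 k
    have hi : e i ∈ X := by
      by_contra hc'
      have : i ∈ FixedFree X e := mem_FixedFree.2 hc'
      rw [hk, Finset.mem_singleton] at this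
      exact hik this
    have hj : e j ∈ X := by
      by_contra hc'
      have : j ∈ FixedFree X e := mem_FixedFree.2 hc'
      rw [hk, Finset.mem_singleton] at this
      exact hjk this
    have hk' : e k ∉ X := by
      apply mem_FixedFree.1
      rw [hk]
      exact Finset.mem_singleton_self k
    rw [h, pow_one]
    refine le_trans ?_ (h1 i j k hi hj hij hk')
    have := Fixed_count1 hW hij hik hjk (φ (e i)) (φ (e j)) (FixedSig R W' X φ e)
      (fun σ hσ => ⟨hσ, (mem_FixedSig.1 hσ).2.1 i hi, (mem_FixedSig.1 hσ).2.1 j hj⟩)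
    exact_mod_cast this
  · obtain ⟨b, c', hbc, hf⟩ := Finset.card_eq_two.1 h
    obtain ⟨a, hab, hac⟩ := Fixed_other2 b c'
    have ha : e a ∈ X := by
      by_contra hcon
      have : a ∈ FixedFree X e := mem_FixedFree.2 hcon
      rw [hf, Finset.mem_insert, Finset.mem_singleton] at this
      rcases this with h' | h'
      · exact hab h'
      · exact hac h'
    have hb : e b ∉ X := by
      apply mem_FixedFree.1
      rw [hf]
      exact Finset.mem_insert_self _ _
    have hc'' : e c' ∉ X := by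
      apply mem_FixedFree.1
      rw [hf]
      exact Finset.mem_insert_of_mem (Finset.mem_singleton_self _)
    rw [h]
    refine le_trans ?_ (h2 a ha ?_)
    · have := Fixed_count2 hW hab hac hbc (φ (e a)) (FixedSig R W' X φ e)
        (fun σ hσ => ⟨hσ, (mem_FixedSig.1 hσ).2.1 a ha⟩)
      exact_mod_cast this
    · intro j' hj'
      rcases Fixed_fin3 a b c' hab hac hbc j' with rfl | rfl | rfl
      · exact absurd rfl hj'
      · exact hb
      · exact hc''
  · have hall : ∀ j, e j ∉ X := by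
      intro j
      apply mem_FixedFree.1
      have : FixedFree X e = Finset.univ := by
        rw [← Finset.card_eq_iff_eq_univ, h]
        simp
      rw [this]
      exact Finset.mem_univ j
    rw [h]
    have hfib := Finset.card_eq_sum_card_fiberwise (s := FixedSig R W' X φ e)
      (t := W'.filter fun p => p ∉ X.image φ) (f := fun σ => σ 0) (by
        intro σ hσ
        have hσ' := mem_FixedSig.1 (Finset.mem_coe.1 hσ)
        exact Finset.mem_coe.2 (Finset.mem_filter.2 ⟨hσ'.1 0, hσ'.2.2.1 0 (hall 0)⟩))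
    rw [hfib]
    push_cast
    have hb : ∀ p ∈ W'.filter (fun p => p ∉ X.image φ),
        (((FixedSig R W' X φ e).filter fun σ => σ 0 = p).card : ℝ) ≤ c * (W.card : ℝ) ^ 2 := by
      intro p hp
      rw [Finset.mem_filter] at hp
      refine le_trans ?_ (h3 p hp.1 hp.2)
      have := Fixed_count2 hW (a := 0) (b := 1) (c := 2) (by decide) (by decide) (by decide) p
        ((FixedSig R W' X φ e).filter fun σ => σ 0 = p)
        (fun σ hσ => Finset.mem_filter.1 hσ)
      exact_mod_cast this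
    refine (Finset.sum_le_sum hb).trans ?_
    rw [Finset.sum_const, nsmul_eq_mul]
    have hcard : ((W'.filter (fun p => p ∉ X.image φ)).card : ℝ) ≤ (W.card : ℝ) := by
      exact_mod_cast Finset.card_le_card ((Finset.filter_subset _ _).trans hW)
    have h0 : (0 : ℝ) ≤ c * (W.card : ℝ) ^ 2 := by positivity
    calc ((W'.filter (fun p => p ∉ X.image φ)).card : ℝ) * (c * (W.card : ℝ) ^ 2)
        ≤ (W.card : ℝ) * (c * (W.card : ℝ) ^ 2) := mul_le_mul_of_nonneg_right hcard h0
      _ = c * (W.card : ℝ) ^ 3 := by ring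

/-- the number of blue images of an edge with a prescribed point in the image -/
theorem Fixed_Np {R : Finset α → Prop} {W W' : Finset α} (hW : W' ⊆ W) {X : Finset V}
    {φ : V → α} {e : Fin 3 → V} {c : ℝ}
    (h3 : ∀ p ∈ W', p ∉ X.image φ → ((bpairs R W p).card : ℝ) ≤ c * (W.card : ℝ) ^ 2)
    (p : α) (hp : p ∈ W') (hp' : p ∉ X.image φ) (Q : Finset (Fin 3 → α))
    (hQ : ∀ σ ∈ Q, σ ∈ FixedSig R W' X φ e ∧ ∃ j ∈ FixedFree X e, σ j = p) :
    ((FixedFree X e).card = 3 → (Q.card : ℝ) ≤ 3 * (c * (W.card : ℝ) ^ 2)) ∧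
    (Q.card : ℝ) ≤ 3 * (W.card : ℝ) ^ ((FixedFree X e).card - 1) := by
  classical
  have hle : (FixedFree X e).card ≤ 3 := by
    calc (FixedFree X e).card ≤ (Finset.univ : Finset (Fin 3)).card :=
          Finset.card_le_card (Finset.subset_univ _)
      _ = 3 := by simp
  have hsub : Q ⊆ (FixedFree X e).biUnion fun j => Q.filter fun σ => σ j = p := by
    intro σ hσ
    obtain ⟨-, j, hj, hj'⟩ := hQ σ hσ
    exact Finset.mem_biUnion.2 ⟨j, hj, Finset.mem_filter.2 ⟨hσ, hj'⟩⟩
  have hcard : (Q.card : ℝ) ≤ ∑ j ∈ FixedFree X e, ((Q.filter fun σ => σ j = p).card : ℝ) := by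
    have := (Finset.card_le_card hsub).trans Finset.card_biUnion_le
    exact_mod_cast this
  constructor
  · intro h
    refine hcard.trans ?_
    have hb : ∀ j ∈ FixedFree X e, ((Q.filter fun σ => σ j = p).card : ℝ) ≤
        c * (W.card : ℝ) ^ 2 := by
      intro j _
      obtain ⟨b, c', hbc, hbj, hcj⟩ := Fixed_other1 j
      refine le_trans ?_ (h3 p hp hp')
      have := Fixed_count2 hW hbj.symm hcj.symm hbc p (Q.filter fun σ => σ j = p)
        (fun σ hσ => ⟨(hQ σ (Finset.mem_filter.1 hσ).1).1, (Finset.mem_filter.1 hσ).2⟩)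
      exact_mod_cast this
    refine (Finset.sum_le_sum hb).trans ?_
    rw [Finset.sum_const, nsmul_eq_mul, h]
    norm_num
  · refine hcard.trans ?_
    have hb : ∀ j ∈ FixedFree X e, ((Q.filter fun σ => σ j = p).card : ℝ) ≤
        (W.card : ℝ) ^ ((FixedFree X e).card - 1) := by
      intro j hj
      have := Fixed_countJ (W := W) ((FixedFree X e).erase j)
        (fun i => if i = j then p else φ (e i)) (Q.filter fun σ => σ j = p) (by
          intro σ hσ
          rw [Finset.mem_filter] at hσ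
          have h1 := mem_FixedSig.1 (hQ σ hσ.1).1
          refine ⟨fun i => hW (h1.1 i), fun i hi => ?_⟩
          by_cases hij : i = j
          · rw [if_pos hij, hij, hσ.2]
          · rw [if_neg hij]
            apply h1.2.1 i
            by_contra hcon
            exact hi (Finset.mem_erase.2 ⟨hij, mem_FixedFree.2 hcon⟩))
      rw [Finset.card_erase_of_mem hj] at this
      exact_mod_cast this
    refine (Finset.sum_le_sum hb).trans ?_
    rw [Finset.sum_const, nsmul_eq_mul]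
    have h0 : (0 : ℝ) ≤ (W.card : ℝ) ^ ((FixedFree X e).card - 1) := by positivity
    refine mul_le_mul_of_nonneg_right ?_ h0
    exact_mod_cast hle

theorem Fixed_weight {w : ℝ} {m k : ℕ} (hw : 16 ≤ w) (hm : w / 4 ≤ m) (hk : k ≤ 3) :
    (1 : ℝ) / (m.descFactorial k : ℝ) ≤ (8 / w) ^ k := by
  have hm2 : 4 ≤ m := by
    have : (4 : ℝ) ≤ (m : ℝ) := by linarith
    exact_mod_cast this
  have h1 : (m + 1 - k) ^ k ≤ m.descFactorial k := Nat.pow_sub_le_descFactorial m k
  have h2 : w / 8 ≤ ((m + 1 - k : ℕ) : ℝ) := by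
    have : (m : ℝ) - 2 ≤ ((m + 1 - k : ℕ) : ℝ) := by
      have h3 : m - 2 ≤ m + 1 - k := by omega
      have h4 : ((m - 2 : ℕ) : ℝ) = (m : ℝ) - 2 := by
        rw [Nat.cast_sub (by omega)]
        norm_num
      rw [← h4]
      exact_mod_cast h3
    linarith
  have h5 : (w / 8) ^ k ≤ (m.descFactorial k : ℝ) := by
    calc (w / 8) ^ k ≤ ((m + 1 - k : ℕ) : ℝ) ^ k := pow_le_pow_left₀ (by linarith) h2 k
      _ ≤ (m.descFactorial k : ℝ) := by exact_mod_cast h1
  have h6 : (0 : ℝ) < (w / 8) ^ k := by positivity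
  calc (1 : ℝ) / (m.descFactorial k : ℝ) ≤ 1 / (w / 8) ^ k :=
        one_div_le_one_div_of_le h6 h5
    _ = (8 / w) ^ k := by
        rw [div_pow, div_pow]
        field_simp

theorem Fixed_r1 (c w : ℝ) (hw : 0 < w) :
    (3 * (c * w ^ 2)) * (8 / w) ^ 3 = 1536 * c / w := by
  field_simp
  ring

theorem Fixed_r2 (w : ℝ) (hw : 0 < w) : (3 * w ^ (1 - 1)) * (8 / w) ^ 1 ≤ 192 / w := by
  have h1 : (3 * w ^ (1 - 1)) * (8 / w) ^ 1 = 24 / w := by
    norm_num
    ring
  rw [h1]
  apply div_le_div_of_nonneg_right _ hw.le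
  norm_num

theorem Fixed_r3 (w : ℝ) (hw : 0 < w) : (3 * w ^ (2 - 1)) * (8 / w) ^ 2 ≤ 192 / w := by
  have h1 : (3 * w ^ (2 - 1)) * (8 / w) ^ 2 = 192 / w := by
    norm_num
    field_simp
    norm_num
  rw [h1]

theorem Fixed_r4 (c w : ℝ) (hc : 0 ≤ c) (hw : 0 < w) (k : ℕ) (hk : k ≤ 3) :
    (c * w ^ k) * (8 / w) ^ k ≤ 512 * c := by
  have h1 : w * (8 / w) = 8 := by field_simp
  calc (c * w ^ k) * (8 / w) ^ k = c * (w * (8 / w)) ^ k := by rw [mul_pow]; ring
    _ = c * 8 ^ k := by rw [h1]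
    _ ≤ c * 8 ^ 3 := by
        refine mul_le_mul_of_nonneg_left ?_ hc
        exact pow_le_pow_right₀ (by norm_num) hk
    _ = 512 * c := by ring

theorem Fixed_r5 (w c d : ℝ) (hw : 0 < w) : (d * w) * (1536 * c / w) = 1536 * (c * d) := by
  field_simp

theorem Fixed_r6 (w c d : ℝ) (hw : 0 < w) : (d * (c * w)) * (192 / w) = 192 * (c * d) := by
  field_simp

end

/-- `X` is the set of vertices whose images `φ x` are prescribed; the copy extends `φ` -/
theorem embed_ext (Δ : ℕ) :
    ∃ c : ℝ, 0 < c ∧ ∃ n₀ : ℕ, ∀ {V : Type*} {α : Type} [DecidableEq V] [DecidableEq α]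
      (S : Finset V) (E : Finset (Finset V)) (_ : Hyp S E Δ) (R : Finset α → Prop)
      (W W' : Finset α) (_ : W' ⊆ W) (_ : S.card ≤ W'.card)
      (_ : (W.card : ℝ) ≤ 2 * (W'.card : ℝ)) (_ : n₀ ≤ W.card)
      (X : Finset V) (_ : X ⊆ S) (φ : V → α) (_ : Set.InjOn φ X) (_ : ∀ x ∈ X, φ x ∈ W')
      (_ : (X.card : ℝ) ≤ c * (W.card : ℝ))
      (_ : ∀ f ∈ E, f ⊆ X → R (f.image φ))
      (_ : ∀ f ∈ E, ∀ x ∈ f, ∀ y ∈ f, ∀ z ∈ f, x ∈ X → y ∈ X → x ≠ y → z ∉ X →
        ((cod R W (φ x) (φ y)).card : ℝ) ≤ c * (W.card : ℝ))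
      (_ : ∀ f ∈ E, ∀ x ∈ f, x ∈ X → (∀ y ∈ f, y ≠ x → y ∉ X) →
        ((bpairs R W (φ x)).card : ℝ) ≤ c * (W.card : ℝ) ^ 2)
      (_ : ∀ p ∈ W', p ∉ X.image φ → ((bpairs R W p).card : ℝ) ≤ c * (W.card : ℝ) ^ 2),
      ∃ ψ : V → α, IsCopy R S E W' ψ ∧ ∀ x ∈ X, ψ x = φ x := by
  classical
  refine ⟨1 / (50000 * ((Δ : ℝ) + 1)), by positivity, 16, ?_⟩
  intro V α _ _ S E hH R W W' hW' hS hW2 hn X hX φ hinj hmap hXc hr3 hr2 hr1 hr0
  set c : ℝ := 1 / (50000 * ((Δ : ℝ) + 1)) with hcdef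
  have hΔ0 : (0 : ℝ) ≤ (Δ : ℝ) := Nat.cast_nonneg _
  have hc0 : 0 < c := by positivity
  have hcΔ : c * ((Δ : ℝ) + 1) = 1 / 50000 := by
    rw [hcdef]
    field_simp
  have hcd0 : 0 ≤ c * (Δ : ℝ) := mul_nonneg hc0.le hΔ0
  rw [mul_add, mul_one] at hcΔ
  have hc1 : c ≤ 1 / 50000 := by linarith only [hcΔ, hcd0]
  have hcD : c * (Δ : ℝ) ≤ 1 / 50000 := by linarith only [hcΔ, hc0]
  clear_value c
  set w : ℝ := (W.card : ℝ) with hwdef
  have hw16 : (16 : ℝ) ≤ w := by
    rw [hwdef]
    exact_mod_cast hn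
  have hw0 : 0 < w := by linarith only [hw16]
  have hw8 : ∀ k : ℕ, (0 : ℝ) ≤ (8 / w) ^ k := fun k =>
    pow_nonneg (div_nonneg (by norm_num) hw0.le) k
  have hwk : ∀ k : ℕ, (0 : ℝ) ≤ w ^ k := fun k => pow_nonneg hw0.le k
  have hcw : (0 : ℝ) ≤ 1536 * c / w := div_nonneg (mul_nonneg (by norm_num) hc0.le) hw0.le
  have h192 : (0 : ℝ) ≤ 192 / w := div_nonneg (by norm_num) hw0.le
  by_cases hV : Nonempty V
  swap
  · have hVe : IsEmpty V := not_nonempty_iff.1 hV
    have hE : ∀ f ∈ E, False := by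
      intro f hf
      have h1 := hH.three f hf
      rw [Finset.eq_empty_of_isEmpty f] at h1
      simp at h1
    exact ⟨φ, ⟨fun x => hVe.elim x, fun x => hVe.elim x, fun f hf => (hE f hf).elim⟩,
      fun _ _ => rfl⟩
  obtain ⟨en, hen⟩ := Fixed_en (V := V)
  -- the types
  let A := {x // x ∈ S \ X} ⊕ Fin (W'.card - S.card)
  let B := {p // p ∈ W' \ X.image φ}
  have hXS : X.card ≤ S.card := Finset.card_le_card hX
  have himg : (X.image φ).card = X.card := Finset.card_image_of_injOn hinj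
  have himgW : X.image φ ⊆ W' := by
    intro p hp
    obtain ⟨x, hx, rfl⟩ := Finset.mem_image.1 hp
    exact hmap x hx
  have hcA : Fintype.card A = W'.card - X.card := by
    simp only [A]
    rw [Fintype.card_sum, Fintype.card_coe, Fintype.card_fin, Finset.card_sdiff_of_subset hX]
    omega
  have hcB : Fintype.card B = W'.card - X.card := by
    simp only [B]
    rw [Fintype.card_coe, Finset.card_sdiff_of_subset himgW, himg]
  have hAB : Fintype.card A = Fintype.card B := by rw [hcA, hcB]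
  have hm : w / 4 ≤ ((Fintype.card A : ℕ) : ℝ) := by
    rw [hcA, Nat.cast_sub (hXS.trans hS)]
    have h1 : c * w ≤ 1 / 50000 * w := mul_le_mul_of_nonneg_right hc1 hw0.le
    linarith only [h1, hXc, hW2, hw16]
  have hApos : 0 < Fintype.card A := by
    have : (0 : ℝ) < ((Fintype.card A : ℕ) : ℝ) := by linarith only [hm, hw16]
    exact_mod_cast this
  have hAne : Nonempty A := Fintype.card_pos_iff.1 hApos
  have hBne : Nonempty B := Fintype.card_pos_iff.1 (hAB ▸ hApos)
  let toA : V → A := fun v => if h : v ∈ S \ X then Sum.inl ⟨v, h⟩ else Classical.arbitrary A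
  let toB : α → B := fun p => if h : p ∈ W' \ X.image φ then ⟨p, h⟩ else Classical.arbitrary B
  have toA_eq : ∀ v (h : v ∈ S \ X), toA v = Sum.inl ⟨v, h⟩ := fun v h => dif_pos h
  have toB_eq : ∀ p (h : p ∈ W' \ X.image φ), toB p = ⟨p, h⟩ := fun p h => dif_pos h
  -- the edges
  let E' := E.filter fun f => ¬ f ⊆ X
  have hE'E : ∀ f ∈ E', f ∈ E := fun f hf => (Finset.mem_filter.1 hf).1
  have hmemf : ∀ f ∈ E, ∀ j, en f j ∈ f := by
    intro f hf j
    have h1 := (hen f (hH.three f hf)).2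
    have h2 : en f j ∈ Finset.univ.image (en f) := Finset.mem_image_of_mem _ (Finset.mem_univ j)
    rwa [h1] at h2
  have hfree : ∀ f ∈ E, ∀ j ∈ FixedFree X (en f), en f j ∈ S \ X := by
    intro f hf j hj
    exact Finset.mem_sdiff.2 ⟨hH.sub f hf (hmemf f hf j), mem_FixedFree.1 hj⟩
  have hfne : ∀ f ∈ E', (FixedFree X (en f)).Nonempty := by
    intro f hf
    obtain ⟨hfE, hfX⟩ := Finset.mem_filter.1 hf
    rw [Finset.not_subset] at hfX
    obtain ⟨v, hvf, hvX⟩ := hfX
    have h1 := (hen f (hH.three f hfE)).2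
    rw [← h1] at hvf
    obtain ⟨j, -, rfl⟩ := Finset.mem_image.1 hvf
    exact ⟨j, mem_FixedFree.2 hvX⟩
  let T₀ : Finset V → Finset A := fun f => (FixedFree X (en f)).image fun j => toA (en f j)
  have hinjT : ∀ f ∈ E, Set.InjOn (fun j => toA (en f j)) (FixedFree X (en f)) := by
    intro f hf i hi j hj hij
    have h1 := hfree f hf i hi
    have h2 := hfree f hf j hj
    simp only at hij
    rw [toA_eq _ h1, toA_eq _ h2] at hij
    have h3 : en f i = en f j := congrArg Subtype.val (Sum.inl.inj hij)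
    exact (hen f (hH.three f hf)).1 h3
  have hcT : ∀ f ∈ E, (T₀ f).card = (FixedFree X (en f)).card := by
    intro f hf
    exact Finset.card_image_of_injOn (hinjT f hf)
  have hF3 : ∀ f, (FixedFree X (en f)).card ≤ 3 := by
    intro f
    calc (FixedFree X (en f)).card ≤ (Finset.univ : Finset (Fin 3)).card :=
          Finset.card_le_card (Finset.subset_univ _)
      _ = 3 := by simp
  let Idx := Σ _ : Finset V, (Fin 3 → α)
  let I : Finset Idx := E'.sigma fun f => FixedSig R W' X φ (en f)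
  let T : Idx → Finset A := fun i => T₀ i.1
  let τ : Idx → A → B := fun i x =>
    if h : ∃ j ∈ FixedFree X (en i.1), toA (en i.1 j) = x then toB (i.2 h.choose)
    else Classical.arbitrary B
  have hIE : ∀ i ∈ I, i.1 ∈ E' ∧ i.2 ∈ FixedSig R W' X φ (en i.1) := by
    intro i hi
    exact Finset.mem_sigma.1 hi
  have hτ : ∀ i ∈ I, ∀ j ∈ FixedFree X (en i.1), τ i (toA (en i.1 j)) = toB (i.2 j) := by
    intro i hi j hj
    have hex : ∃ j' ∈ FixedFree X (en i.1), toA (en i.1 j') = toA (en i.1 j) := ⟨j, hj, rfl⟩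
    have h1 : τ i (toA (en i.1 j)) = toB (i.2 hex.choose) := dif_pos hex
    have h2 := hex.choose_spec
    have h3 : hex.choose = j := hinjT i.1 (hE'E _ (hIE i hi).1) h2.1 hj h2.2
    rw [h1, h3]
  have hσB : ∀ i ∈ I, ∀ j ∈ FixedFree X (en i.1), i.2 j ∈ W' \ X.image φ := by
    intro i hi j hj
    have h1 := mem_FixedSig.1 (hIE i hi).2
    exact Finset.mem_sdiff.2 ⟨h1.1 j, h1.2.2.1 j (mem_FixedFree.1 hj)⟩
  have hT : ∀ i ∈ I, (T i).Nonempty ∧ (T i).card ≤ 3 := by
    intro i hi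
    have h1 := (hIE i hi).1
    refine ⟨(hfne _ h1).image _, ?_⟩
    simp only [T]
    rw [hcT _ (hE'E _ h1)]
    exact hF3 _
  have hinjτ : ∀ i ∈ I, Set.InjOn (τ i) (T i) := by
    intro i hi x hx y hy hxy
    obtain ⟨j, hj, rfl⟩ := Finset.mem_image.1 (Finset.mem_coe.1 hx)
    obtain ⟨k, hk, rfl⟩ := Finset.mem_image.1 (Finset.mem_coe.1 hy)
    rw [hτ i hi j hj, hτ i hi k hk, toB_eq _ (hσB i hi j hj), toB_eq _ (hσB i hi k hk)] at hxy
    have h1 : i.2 j = i.2 k := congrArg Subtype.val hxy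
    have h2 := (mem_FixedSig.1 (hIE i hi).2).2.2.2.1 h1
    rw [h2]
  -- number of blue images
  have hN : ∀ f ∈ E', ((FixedSig R W' X φ (en f)).card : ℝ) ≤
      c * w ^ (FixedFree X (en f)).card := by
    intro f hf
    have hfE := hE'E f hf
    refine Fixed_N hW' hc0 hr0 ?_ ?_ (hfne f hf)
    · intro j hj hj'
      refine hr1 f hfE (en f j) (hmemf f hfE j) hj ?_
      intro y hy hyne
      have h1 := (hen f (hH.three f hfE)).2
      rw [← h1] at hy
      obtain ⟨k, -, rfl⟩ := Finset.mem_image.1 hy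
      exact hj' k (fun h => hyne (by rw [h]))
    · intro i j k hi hj hij hk
      refine hr2 f hfE (en f i) (hmemf f hfE i) (en f j) (hmemf f hfE j) (en f k)
        (hmemf f hfE k) hi hj ?_ hk
      intro h
      exact hij ((hen f (hH.three f hfE)).1 h)
  have hwt : ∀ f ∈ E, (1 : ℝ) / ((Fintype.card A).descFactorial (T₀ f).card : ℝ) ≤
      (8 / w) ^ (FixedFree X (en f)).card := by
    intro f hf
    rw [hcT f hf]
    exact Fixed_weight hw16 hm (hF3 f)
  have hwt0 : ∀ f, (0 : ℝ) ≤ (1 : ℝ) / ((Fintype.card A).descFactorial (T₀ f).card : ℝ) :=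
    fun f => one_div_nonneg.2 (Nat.cast_nonneg _)
  -- the load of a vertex
  have hx : ∀ x, ∑ i ∈ I with x ∈ T i,
      (1 : ℝ) / ((Fintype.card A).descFactorial (T i).card : ℝ) ≤ 1 / 24 := by
    intro x
    rw [Finset.sum_filter, Finset.sum_sigma]
    have hb : ∀ f ∈ E', ∑ σ ∈ FixedSig R W' X φ (en f),
        (if x ∈ T ⟨f, σ⟩ then (1 : ℝ) / ((Fintype.card A).descFactorial (T ⟨f, σ⟩).card : ℝ)
          else 0) ≤ if x ∈ T₀ f then 512 * c else 0 := by
      intro f hf
      simp only [T]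
      rw [Finset.sum_const, nsmul_eq_mul]
      by_cases hxf : x ∈ T₀ f
      · rw [if_pos hxf, if_pos hxf]
        have h1 := hN f hf
        have h2 := hwt f (hE'E f hf)
        calc ((FixedSig R W' X φ (en f)).card : ℝ) *
              (1 / ((Fintype.card A).descFactorial (T₀ f).card : ℝ))
            ≤ (c * w ^ (FixedFree X (en f)).card) * (8 / w) ^ (FixedFree X (en f)).card :=
              mul_le_mul h1 h2 (hwt0 f) (mul_nonneg hc0.le (hwk _))
          _ ≤ 512 * c := Fixed_r4 c w hc0.le hw0 _ (hF3 f)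
      · rw [if_neg hxf, if_neg hxf, mul_zero]
    refine (Finset.sum_le_sum hb).trans ?_
    rw [← Finset.sum_filter, Finset.sum_const, nsmul_eq_mul]
    have hle : ((E'.filter fun f => x ∈ T₀ f).card : ℝ) ≤ (Δ : ℝ) := by
      have h1 : (E'.filter fun f => x ∈ T₀ f).card ≤ Δ := by
        rcases Finset.eq_empty_or_nonempty (E'.filter fun f => x ∈ T₀ f) with he | ⟨f₀, hf₀⟩
        · rw [he]
          simp
        · rw [Finset.mem_filter] at hf₀
          obtain ⟨j₀, hj₀, hj₀'⟩ := Finset.mem_image.1 hf₀.2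
          refine le_trans (Finset.card_le_card ?_) (hH.deg (en f₀ j₀))
          intro f hf
          rw [Finset.mem_filter] at hf
          obtain ⟨j, hj, hj'⟩ := Finset.mem_image.1 hf.2
          have hfE := hE'E f hf.1
          have hf₀E := hE'E f₀ hf₀.1
          rw [← hj₀', toA_eq _ (hfree f hfE j hj), toA_eq _ (hfree f₀ hf₀E j₀ hj₀)] at hj'
          have h3 : en f j = en f₀ j₀ := congrArg Subtype.val (Sum.inl.inj hj')
          refine Finset.mem_filter.2 ⟨hfE, ?_⟩
          rw [← h3]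
          exact hmemf f hfE j
      exact_mod_cast h1
    calc ((E'.filter fun f => x ∈ T₀ f).card : ℝ) * (512 * c) ≤ (Δ : ℝ) * (512 * c) :=
          mul_le_mul_of_nonneg_right hle (mul_nonneg (by norm_num) hc0.le)
      _ = 512 * (c * (Δ : ℝ)) := by ring
      _ ≤ 1 / 24 := by linarith only [hcD]
  -- the load of a point
  have hp : ∀ p, ∑ i ∈ I with p ∈ (T i).image (τ i),
      (1 : ℝ) / ((Fintype.card A).descFactorial (T i).card : ℝ) ≤ 1 / 24 := by
    intro p
    rw [Finset.sum_filter, Finset.sum_sigma]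
    have hpW : p.1 ∈ W' ∧ p.1 ∉ X.image φ := Finset.mem_sdiff.1 p.2
    have hb : ∀ f ∈ E', ∑ σ ∈ FixedSig R W' X φ (en f),
        (if p ∈ (T ⟨f, σ⟩).image (τ ⟨f, σ⟩) then
          (1 : ℝ) / ((Fintype.card A).descFactorial (T ⟨f, σ⟩).card : ℝ) else 0) ≤
        1536 * c / w + if ∃ x ∈ f, x ∈ X then 192 / w else 0 := by
      intro f hf
      have hfE := hE'E f hf
      set Q := (FixedSig R W' X φ (en f)).filter fun σ => p ∈ (T ⟨f, σ⟩).image (τ ⟨f, σ⟩)
        with hQdef
      have hsum : ∑ σ ∈ FixedSig R W' X φ (en f),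
          (if p ∈ (T ⟨f, σ⟩).image (τ ⟨f, σ⟩) then
            (1 : ℝ) / ((Fintype.card A).descFactorial (T ⟨f, σ⟩).card : ℝ) else 0) =
          (Q.card : ℝ) * ((1 : ℝ) / ((Fintype.card A).descFactorial (T₀ f).card : ℝ)) := by
        rw [← Finset.sum_filter]
        simp only [T]
        rw [Finset.sum_const, nsmul_eq_mul]
      rw [hsum]
      have hQ : ∀ σ ∈ Q, σ ∈ FixedSig R W' X φ (en f) ∧
          ∃ j ∈ FixedFree X (en f), σ j = p.1 := by
        intro σ hσ
        rw [hQdef, Finset.mem_filter] at hσ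
        refine ⟨hσ.1, ?_⟩
        have hi : (⟨f, σ⟩ : Idx) ∈ I := Finset.mem_sigma.2 ⟨hf, hσ.1⟩
        obtain ⟨x, hx', hxp⟩ := Finset.mem_image.1 hσ.2
        obtain ⟨j, hj, rfl⟩ := Finset.mem_image.1 hx'
        refine ⟨j, hj, ?_⟩
        have h1 := hτ ⟨f, σ⟩ hi j hj
        simp only at h1 hxp
        rw [h1, toB_eq _ (hσB ⟨f, σ⟩ hi j hj)] at hxp
        exact congrArg Subtype.val hxp
      obtain ⟨hQ3, hQ2⟩ := Fixed_Np hW' hr0 p.1 hpW.1 hpW.2 Q hQ
      have h2 := hwt f hfE
      have hFpos : 0 < (FixedFree X (en f)).card := Finset.card_pos.2 (hfne f hf)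
      by_cases h3 : (FixedFree X (en f)).card = 3
      · have h4 := hQ3 h3
        rw [h3] at h2
        have h5 : (0 : ℝ) ≤ if ∃ x ∈ f, x ∈ X then 192 / w else 0 := by
          split_ifs
          · exact h192
          · exact le_rfl
        have h6 : (Q.card : ℝ) * ((1 : ℝ) / ((Fintype.card A).descFactorial (T₀ f).card : ℝ)) ≤
            (3 * (c * w ^ 2)) * (8 / w) ^ 3 :=
          mul_le_mul h4 h2 (hwt0 f) (mul_nonneg (by norm_num) (mul_nonneg hc0.le (hwk _)))
        have h7 := Fixed_r1 c w hw0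
        linarith only [h5, h6, h7]
      · have hex : ∃ x ∈ f, x ∈ X := by
          by_contra hcon
          push Not at hcon
          apply h3
          have : FixedFree X (en f) = Finset.univ := by
            rw [Finset.eq_univ_iff_forall]
            intro j
            exact mem_FixedFree.2 (hcon _ (hmemf f hfE j))
          rw [this]
          simp
        rw [if_pos hex]
        have hF := hF3 f
        obtain h1 | h1 : (FixedFree X (en f)).card = 1 ∨ (FixedFree X (en f)).card = 2 := by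
          omega
        · rw [h1] at h2 hQ2
          have h6 : (Q.card : ℝ) * ((1 : ℝ) / ((Fintype.card A).descFactorial (T₀ f).card : ℝ)) ≤
              (3 * w ^ (1 - 1)) * (8 / w) ^ 1 :=
            mul_le_mul hQ2 h2 (hwt0 f) (mul_nonneg (by norm_num) (hwk _))
          have h7 := Fixed_r2 w hw0
          linarith only [h6, h7, hcw]
        · rw [h1] at h2 hQ2
          have h6 : (Q.card : ℝ) * ((1 : ℝ) / ((Fintype.card A).descFactorial (T₀ f).card : ℝ)) ≤
              (3 * w ^ (2 - 1)) * (8 / w) ^ 2 :=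
            mul_le_mul hQ2 h2 (hwt0 f) (mul_nonneg (by norm_num) (hwk _))
          have h7 := Fixed_r3 w hw0
          linarith only [h6, h7, hcw]
    refine (Finset.sum_le_sum hb).trans ?_
    rw [Finset.sum_add_distrib, ← Finset.sum_filter, Finset.sum_const, Finset.sum_const,
      nsmul_eq_mul, nsmul_eq_mul]
    have hEc : (E'.card : ℝ) ≤ (Δ : ℝ) * w := by
      have h1 : E' ⊆ S.biUnion fun v => edgesAt E v := by
        intro f hf
        have hfE := hE'E f hf
        refine Finset.mem_biUnion.2 ⟨en f 0, hH.sub f hfE (hmemf f hfE 0), ?_⟩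
        exact Finset.mem_filter.2 ⟨hfE, hmemf f hfE 0⟩
      have h2 : E'.card ≤ S.card * Δ :=
        (Finset.card_le_card h1).trans (Finset.card_biUnion_le_card_mul _ _ _
          fun v _ => hH.deg v)
      have h3 : (S.card : ℝ) ≤ w := by
        rw [hwdef]
        exact_mod_cast hS.trans (Finset.card_le_card hW')
      have h4 : (E'.card : ℝ) ≤ (S.card : ℝ) * (Δ : ℝ) := by exact_mod_cast h2
      have h5 := mul_le_mul_of_nonneg_right h3 hΔ0
      rw [mul_comm (Δ : ℝ) w]
      exact h4.trans h5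
    have hEX : ((E'.filter fun f => ∃ x ∈ f, x ∈ X).card : ℝ) ≤ (Δ : ℝ) * (c * w) := by
      have h1 : (E'.filter fun f => ∃ x ∈ f, x ∈ X) ⊆ X.biUnion fun v => edgesAt E v := by
        intro f hf
        obtain ⟨hfE', x, hxf, hxX⟩ := Finset.mem_filter.1 hf
        exact Finset.mem_biUnion.2 ⟨x, hxX, Finset.mem_filter.2 ⟨hE'E f hfE', hxf⟩⟩
      have h2 : (E'.filter fun f => ∃ x ∈ f, x ∈ X).card ≤ X.card * Δ :=
        (Finset.card_le_card h1).trans (Finset.card_biUnion_le_card_mul _ _ _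
          fun v _ => hH.deg v)
      have h4 : ((E'.filter fun f => ∃ x ∈ f, x ∈ X).card : ℝ) ≤ (X.card : ℝ) * (Δ : ℝ) := by
        exact_mod_cast h2
      have h5 := mul_le_mul_of_nonneg_right hXc hΔ0
      rw [mul_comm (Δ : ℝ) (c * w)]
      exact h4.trans h5
    have h10 : (E'.card : ℝ) * (1536 * c / w) ≤ ((Δ : ℝ) * w) * (1536 * c / w) :=
      mul_le_mul_of_nonneg_right hEc hcw
    have h11 : ((E'.filter fun f => ∃ x ∈ f, x ∈ X).card : ℝ) * (192 / w) ≤
        ((Δ : ℝ) * (c * w)) * (192 / w) :=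
      mul_le_mul_of_nonneg_right hEX h192
    have h12 := Fixed_r5 w c (Δ : ℝ) hw0
    have h13 := Fixed_r6 w c (Δ : ℝ) hw0
    linarith only [h10, h11, h12, h13, hcD]
  -- the bijection
  obtain ⟨g, hg⟩ := pack hAB I T τ hT hinjτ hx hp
  refine ⟨fun v => if v ∈ X then φ v else (g (toA v)).1, ⟨?_, ?_, ?_⟩,
    fun x hx1 => if_pos hx1⟩
  · intro u hu v hv huv
    have hu' : u ∈ S := hu
    have hv' : v ∈ S := hv
    simp only at huv
    have hgim : ∀ v, (g (toA v)).1 ∉ X.image φ := fun v =>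
      (Finset.mem_sdiff.1 (g (toA v)).2).2
    by_cases hu1 : u ∈ X <;> by_cases hv1 : v ∈ X
    · rw [if_pos hu1, if_pos hv1] at huv
      exact hinj hu1 hv1 huv
    · rw [if_pos hu1, if_neg hv1] at huv
      exact absurd (huv ▸ Finset.mem_image_of_mem φ hu1) (hgim v)
    · rw [if_neg hu1, if_pos hv1] at huv
      exact absurd (huv ▸ Finset.mem_image_of_mem φ hv1) (huv ▸ hgim u)
    · rw [if_neg hu1, if_neg hv1] at huv
      have h1 : toA u = toA v := g.injective (Subtype.ext huv)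
      rw [toA_eq u (Finset.mem_sdiff.2 ⟨hu', hu1⟩), toA_eq v (Finset.mem_sdiff.2 ⟨hv', hv1⟩)]
        at h1
      exact congrArg Subtype.val (Sum.inl.inj h1)
  · intro v hv
    by_cases hv1 : v ∈ X
    · simp only [if_pos hv1]
      exact hmap v hv1
    · simp only [if_neg hv1]
      exact (Finset.mem_sdiff.1 (g (toA v)).2).1
  · intro f hf
    set ψ : V → α := fun v => if v ∈ X then φ v else (g (toA v)).1 with hψ
    by_cases hfX : f ⊆ X
    · have : f.image ψ = f.image φ := by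
        apply Finset.image_congr
        intro v hv
        simp only [hψ]
        rw [if_pos (hfX hv)]
      rw [this]
      exact hr3 f hf hfX
    · by_contra hcon
      have hfE' : f ∈ E' := Finset.mem_filter.2 ⟨hf, hfX⟩
      have hen2 := hen f (hH.three f hf)
      have hψX : ∀ v, v ∈ X → ψ v = φ v := fun v hv => if_pos hv
      have hψn : ∀ v, v ∉ X → ψ v = (g (toA v)).1 := fun v hv => if_neg hv
      have hψinj : ∀ u ∈ S, ∀ v ∈ S, ψ u = ψ v → u = v := by
        intro u hu' v hv' huv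
        have hgim : ∀ v, (g (toA v)).1 ∉ X.image φ := fun v =>
          (Finset.mem_sdiff.1 (g (toA v)).2).2
        by_cases hu1 : u ∈ X <;> by_cases hv1 : v ∈ X
        · rw [hψX u hu1, hψX v hv1] at huv
          exact hinj hu1 hv1 huv
        · rw [hψX u hu1, hψn v hv1] at huv
          exact absurd (huv ▸ Finset.mem_image_of_mem φ hu1) (hgim v)
        · rw [hψn u hu1, hψX v hv1] at huv
          exact absurd (huv ▸ Finset.mem_image_of_mem φ hv1) (huv ▸ hgim u)
        · rw [hψn u hu1, hψn v hv1] at huv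
          have h1 : toA u = toA v := g.injective (Subtype.ext huv)
          rw [toA_eq u (Finset.mem_sdiff.2 ⟨hu', hu1⟩),
            toA_eq v (Finset.mem_sdiff.2 ⟨hv', hv1⟩)] at h1
          exact congrArg Subtype.val (Sum.inl.inj h1)
      have hsig : (fun j => ψ (en f j)) ∈ FixedSig R W' X φ (en f) := by
        rw [mem_FixedSig]
        refine ⟨?_, ?_, ?_, ?_, ?_⟩
        · intro j
          by_cases h1 : en f j ∈ X
          · rw [hψX _ h1]
            exact hmap _ h1
          · rw [hψn _ h1]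
            exact (Finset.mem_sdiff.1 (g (toA (en f j))).2).1
        · intro j h1
          exact hψX _ h1
        · intro j h1
          rw [hψn _ h1]
          exact (Finset.mem_sdiff.1 (g (toA (en f j))).2).2
        · intro i j hij
          apply hen2.1
          exact hψinj _ (hH.sub f hf (hmemf f hf i)) _ (hH.sub f hf (hmemf f hf j)) hij
        · have h1 : (Finset.univ.image fun j => ψ (en f j)) = f.image ψ := by
            conv_rhs => rw [← hen2.2]
            rw [Finset.image_image]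
            rfl
          rw [h1]
          exact hcon
      have hiI : (⟨f, fun j => ψ (en f j)⟩ : Idx) ∈ I := Finset.mem_sigma.2 ⟨hfE', hsig⟩
      obtain ⟨x, hx1, hx2⟩ := hg _ hiI
      obtain ⟨j, hj, rfl⟩ := Finset.mem_image.1 hx1
      apply hx2
      have h1 := hτ _ hiI j hj
      simp only at h1 ⊢
      rw [h1]
      have h2 := hσB _ hiI j hj
      simp only at h2
      rw [toB_eq _ h2]
      apply Subtype.ext
      simp only
      exact (hψn _ (mem_FixedFree.1 hj)).symm

/-- `X` is the set of vertices whose images `φ x` are prescribed -/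
theorem embed_fixed (Δ : ℕ) :
    ∃ c : ℝ, 0 < c ∧ ∃ n₀ : ℕ, ∀ {V : Type*} {α : Type} [DecidableEq V] [DecidableEq α]
      (S : Finset V) (E : Finset (Finset V)) (_ : Hyp S E Δ) (R : Finset α → Prop)
      (W W' : Finset α) (_ : W' ⊆ W) (_ : S.card ≤ W'.card)
      (_ : (W.card : ℝ) ≤ 2 * (W'.card : ℝ)) (_ : n₀ ≤ W.card)
      (X : Finset V) (_ : X ⊆ S) (φ : V → α) (_ : Set.InjOn φ X) (_ : ∀ x ∈ X, φ x ∈ W')
      (_ : (X.card : ℝ) ≤ c * (W.card : ℝ))
      (_ : ∀ f ∈ E, f ⊆ X → R (f.image φ))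
      (_ : ∀ f ∈ E, ∀ x ∈ f, ∀ y ∈ f, ∀ z ∈ f, x ∈ X → y ∈ X → x ≠ y → z ∉ X →
        ((cod R W (φ x) (φ y)).card : ℝ) ≤ c * (W.card : ℝ))
      (_ : ∀ f ∈ E, ∀ x ∈ f, x ∈ X → (∀ y ∈ f, y ≠ x → y ∉ X) →
        ((bpairs R W (φ x)).card : ℝ) ≤ c * (W.card : ℝ) ^ 2)
      (_ : ∀ p ∈ W', p ∉ X.image φ → ((bpairs R W p).card : ℝ) ≤ c * (W.card : ℝ) ^ 2),
      HasRed R S E W' := by
  obtain ⟨c, hc, n₀, h⟩ := embed_ext Δ
  refine ⟨c, hc, n₀, ?_⟩
  intro V α _ _ S E hH R W W' hW' hS hW2 hn X hX φ hinj hmap hXc hr3 hr2 hr1 hr0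
  obtain ⟨ψ, hψ, -⟩ := h S E hH R W W' hW' hS hW2 hn X hX φ hinj hmap hXc hr3 hr2 hr1 hr0
  exact ⟨ψ, hψ⟩

end Pool.MP7783b9
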