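import Pool.Agent.H.MP_7783b9_co.B.Far

/-!
# The prescribed part of the embedding
-/

set_option autoImplicit false

open Finset

namespace Pool.MP7783b9

theorem Presc_mem_nbc {V : Type*} [DecidableEq V] {E : Finset (Finset V)} {x y : V}
    {f : Finset V} (hf : f ∈ E) (hx : x ∈ f) (hy : y ∈ f) : y ∈ nbc E x := by
  unfold nbc edgesAt
  rw [Finset.mem_insert, Finset.mem_biUnion]
  exact Or.inr ⟨f, Finset.mem_filter.2 ⟨hf, hx⟩, hy⟩

theorem Presc_self_mem {V : Type*} [DecidableEq V] (E : Finset (Finset V)) (x : V) :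
    x ∈ nbc E x := by
  unfold nbc
  exact Finset.mem_insert_self _ _

theorem Presc_nbc_sub {V : Type*} [DecidableEq V] {S : Finset V} {E : Finset (Finset V)} {Δ : ℕ}
    (hH : Hyp S E Δ) {x : V} (hx : x ∈ S) : nbc E x ⊆ S := by
  intro y hy
  unfold nbc edgesAt at hy
  rw [Finset.mem_insert, Finset.mem_biUnion] at hy
  rcases hy with rfl | ⟨f, hf, hyf⟩
  · exact hx
  · exact hH.sub f (Finset.mem_filter.1 hf).1 hyf

theorem Presc_inj {V α : Type*} [DecidableEq V] [DecidableEq α] [Nonempty α] {S : Finset V}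
    {E : Finset (Finset V)} {Δ : ℕ} (hH : Hyp S E Δ) (x : V) (Y : Finset α)
    (hY : Y.card = 2 * Δ) (v : α) (hv : v ∉ Y) :
    ∃ ψ : V → α, ψ x = v ∧ (∀ y ∈ nbo E x, ψ y ∈ Y) ∧ Set.InjOn ψ (nbc E x) := by
  classical
  have hc : (nbo E x).card ≤ Y.card := by
    unfold nbo
    rw [Finset.card_erase_of_mem (Presc_self_mem E x), hY]
    have := nbc_card hH x
    omega
  obtain ⟨Y', hY'sub, hY'c⟩ := Finset.exists_subset_card_eq hc
  have e : (nbo E x) ≃ Y' := Finset.equivOfCardEq hY'c.symm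
  refine ⟨fun y => if h : y ∈ nbo E x then (e ⟨y, h⟩ : α) else v, ?_, ?_, ?_⟩
  · have h : x ∉ nbo E x := by
      unfold nbo; simp
    simp only [h, dif_neg, not_false_eq_true]
  · intro y hy
    simp only [hy, dif_pos]
    exact hY'sub (e ⟨y, hy⟩).2
  · intro y hy z hz hyz
    have hout : ∀ y ∈ nbc E x, y ∉ nbo E x → y = x := by
      intro y hy hn
      by_contra hne
      exact hn (Finset.mem_erase.2 ⟨hne, hy⟩)
    have hyz' : (if h : y ∈ nbo E x then (e ⟨y, h⟩ : α) else v) =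
      (if h : z ∈ nbo E x then (e ⟨z, h⟩ : α) else v) := hyz
    by_cases h1 : y ∈ nbo E x
    · by_cases h2 : z ∈ nbo E x
      · rw [dif_pos h1, dif_pos h2] at hyz'
        have := e.injective (Subtype.ext hyz')
        exact congrArg Subtype.val this
      · rw [dif_pos h1, dif_neg h2] at hyz'
        exact absurd (hyz' ▸ hY'sub (e ⟨y, h1⟩).2) hv
    · by_cases h2 : z ∈ nbo E x
      · rw [dif_neg h1, dif_pos h2] at hyz'
        exact absurd (hyz' ▸ hY'sub (e ⟨z, h2⟩).2) hv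
      · rw [hout y hy h1, hout z hz h2]

/-- the prescribed part: far apart vertices `x v` go to the dense vertices `v ∈ D`, their
neighbourhoods to nice sets -/
theorem prescribe2 {V α : Type*} [DecidableEq V] [DecidableEq α] [Nonempty α] {S : Finset V}
    {E : Finset (Finset V)} {Δ : ℕ} (hH : Hyp S E Δ) (R : Finset α → Prop) (W : Finset α)
    (ε η : ℝ) (D : Finset α) (x : α → V) (hx : ∀ i ∈ D, x i ∈ S)
    (hfar : ∀ i ∈ D, ∀ j ∈ D, i ≠ j → Disjoint (nbc E (x i)) (nbc E (x j)) ∧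
      ∀ f ∈ E, ∀ y ∈ f, ∀ z ∈ f, y ∈ nbc E (x i) → z ∉ nbc E (x j))
    (Y : α → Finset α) (hY : ∀ v ∈ D, Nice R W ε η (Y v) ∧ (Y v).card = 2 * Δ ∧
      Disjoint (Y v) D ∧ RedTo R v (Y v))
    (hdisj : ∀ v ∈ D, ∀ v' ∈ D, v ≠ v' → Disjoint (Y v) (Y v')) :
    ∃ (X : Finset V) (φ : V → α), X ⊆ S ∧ Set.InjOn φ X ∧
      (∀ y ∈ X, φ y ∈ D ∪ D.biUnion Y) ∧ D ⊆ X.image φ ∧
      X.card ≤ (2 * Δ + 1) * D.card ∧
      (∀ f ∈ E, f ⊆ X → R (f.image φ)) ∧
      (∀ f ∈ E, ∀ x ∈ f, ∀ y ∈ f, ∀ z ∈ f, x ∈ X → y ∈ X → x ≠ y → z ∉ X →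
        ((cod R W (φ x) (φ y)).card : ℝ) < η * (W.card : ℝ)) ∧
      (∀ f ∈ E, ∀ x ∈ f, x ∈ X → (∀ y ∈ f, y ≠ x → y ∉ X) →
        ((bpairs R W (φ x)).card : ℝ) < ε * (W.card : ℝ) ^ 2) ∧
      (∀ f ∈ E, ∀ y ∈ f, y ∈ X → ¬ f ⊆ X → φ y ∈ D.biUnion Y) := by
  classical
  have hψ : ∀ v ∈ D, ∃ ψ : V → α, ψ (x v) = v ∧ (∀ y ∈ nbo E (x v), ψ y ∈ Y v) ∧
      Set.InjOn ψ (nbc E (x v)) := fun v hv =>
    Presc_inj hH (x v) (Y v) (hY v hv).2.1 v (hY v hv).2.2.2.1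
  choose! ψ hψ1 hψ2 hψ3 using hψ
  -- the bag of a vertex
  have hbag : ∀ y, ∃ v, (∃ w ∈ D, y ∈ nbc E (x w)) → v ∈ D ∧ y ∈ nbc E (x v) := by
    intro y
    by_cases h : ∃ w ∈ D, y ∈ nbc E (x w)
    · obtain ⟨w, hw, hyw⟩ := h
      exact ⟨w, fun _ => ⟨hw, hyw⟩⟩
    · exact ⟨Classical.arbitrary α, fun h' => absurd h' h⟩
  choose b hb using hbag
  have huniq : ∀ y, ∀ v ∈ D, y ∈ nbc E (x v) → b y = v := by
    intro y v hv hy
    obtain ⟨h1, h2⟩ := hb y ⟨v, hv, hy⟩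
    by_contra hne
    exact (Finset.disjoint_left.1 (hfar _ h1 v hv hne).1 h2) hy
  have hX : ∀ y, y ∈ D.biUnion (fun v => nbc E (x v)) ↔ ∃ v ∈ D, y ∈ nbc E (x v) := fun y =>
    Finset.mem_biUnion
  have hφ : ∀ v ∈ D, ∀ y ∈ nbc E (x v), ψ (b y) y = ψ v y := by
    intro v hv y hy
    rw [huniq y v hv hy]
  -- either the centre or in `Y v`
  have hcase : ∀ v ∈ D, ∀ y ∈ nbc E (x v), (y = x v ∧ ψ v y = v) ∨
      (y ∈ nbo E (x v) ∧ ψ v y ∈ Y v) := by
    intro v hv y hy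
    by_cases h : y = x v
    · left
      exact ⟨h, by rw [h]; exact hψ1 v hv⟩
    · right
      have : y ∈ nbo E (x v) := Finset.mem_erase.2 ⟨h, hy⟩
      exact ⟨this, hψ2 v hv y this⟩
  have hval : ∀ v ∈ D, ∀ y ∈ nbc E (x v), ψ v y ∈ insert v (Y v) := by
    intro v hv y hy
    rcases hcase v hv y hy with h | h
    · rw [h.2]; exact Finset.mem_insert_self _ _
    · exact Finset.mem_insert_of_mem h.2
  have hsets : ∀ v ∈ D, ∀ v' ∈ D, v ≠ v' → Disjoint (insert v (Y v)) (insert v' (Y v')) := by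
    intro v hv v' hv' hne
    rw [Finset.disjoint_left]
    intro z hz hz'
    rw [Finset.mem_insert] at hz hz'
    rcases hz with rfl | hz
    · rcases hz' with rfl | hz'
      · exact hne rfl
      · exact Finset.disjoint_left.1 (hY v' hv').2.2.1 hz' hv
    · rcases hz' with rfl | hz'
      · exact Finset.disjoint_left.1 (hY v hv).2.2.1 hz hv'
      · exact Finset.disjoint_left.1 (hdisj v hv v' hv' hne) hz hz'
  -- edges which meet the prescribed set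
  have hedge : ∀ f ∈ E, ∀ v ∈ D, ∀ y ∈ f, y ∈ nbc E (x v) → ∀ z ∈ f,
      z ∈ D.biUnion (fun v => nbc E (x v)) → z ∈ nbc E (x v) := by
    intro f hf v hv y hy hyv z hz hzX
    obtain ⟨w, hw, hzw⟩ := (hX z).1 hzX
    by_cases h : v = w
    · rw [h]; exact hzw
    · exact absurd hzw ((hfar v hv w hw h).2 f hf y hy z hz hyv)
  refine ⟨D.biUnion fun v => nbc E (x v), fun y => ψ (b y) y, ?_, ?_, ?_, ?_, ?_, ?_, ?_, ?_, ?_⟩
  · intro y hy
    obtain ⟨v, hv, hyv⟩ := (hX y).1 hy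
    exact Presc_nbc_sub hH (hx v hv) hyv
  · intro y hy z hz hyz
    obtain ⟨v, hv, hyv⟩ := (hX y).1 hy
    obtain ⟨w, hw, hzw⟩ := (hX z).1 hz
    have hyz' : ψ (b y) y = ψ (b z) z := hyz
    rw [hφ v hv y hyv, hφ w hw z hzw] at hyz'
    by_cases h : v = w
    · subst h
      exact hψ3 v hv hyv hzw hyz'
    · exact absurd (hyz' ▸ hval w hw z hzw)
        (Finset.disjoint_left.1 (hsets v hv w hw h) (hval v hv y hyv))
  · intro y hy
    obtain ⟨v, hv, hyv⟩ := (hX y).1 hy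
    show ψ (b y) y ∈ D ∪ D.biUnion Y
    rw [hφ v hv y hyv, Finset.mem_union]
    rcases hcase v hv y hyv with h | h
    · left; rw [h.2]; exact hv
    · right; exact Finset.mem_biUnion.2 ⟨v, hv, h.2⟩
  · intro v hv
    rw [Finset.mem_image]
    refine ⟨x v, (hX _).2 ⟨v, hv, Presc_self_mem E (x v)⟩, ?_⟩
    rw [hφ v hv (x v) (Presc_self_mem E (x v)), hψ1 v hv]
  · have h1 := Finset.card_biUnion_le_card_mul D (fun v => nbc E (x v)) (2 * Δ + 1)
      fun v _ => nbc_card hH (x v)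
    rw [mul_comm]
    exact h1
  · intro f hf hfX
    have hf3 := hH.three f hf
    obtain ⟨y, hy⟩ : f.Nonempty := by
      rw [← Finset.card_pos, hf3]; norm_num
    obtain ⟨v, hv, hyv⟩ := (hX y).1 (hfX hy)
    have hall : ∀ z ∈ f, z ∈ nbc E (x v) := fun z hz => hedge f hf v hv y hy hyv z hz (hfX hz)
    have himg : f.image (fun y => ψ (b y) y) = f.image (ψ v) :=
      Finset.image_congr fun z hz => hφ v hv z (hall z hz)
    rw [himg]
    have hinj : Set.InjOn (ψ v) f := fun z hz w hw h => hψ3 v hv (hall z hz) (hall w hw) h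
    by_cases hc : x v ∈ f
    · have hcard : (f.erase (x v)).card = 2 := by
        rw [Finset.card_erase_of_mem hc, hf3]
      obtain ⟨p, q, hpq, hpqe⟩ := Finset.card_eq_two.1 hcard
      have hfe : f = {x v, p, q} := by
        rw [← Finset.insert_erase hc, hpqe]
      have hp : p ∈ f ∧ p ≠ x v := by
        have : p ∈ f.erase (x v) := by rw [hpqe]; simp
        exact ⟨Finset.mem_of_mem_erase this, Finset.ne_of_mem_erase this⟩
      have hq : q ∈ f ∧ q ≠ x v := by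
        have : q ∈ f.erase (x v) := by rw [hpqe]; simp
        exact ⟨Finset.mem_of_mem_erase this, Finset.ne_of_mem_erase this⟩
      have hpY : ψ v p ∈ Y v := hψ2 v hv p (Finset.mem_erase.2 ⟨hp.2, hall p hp.1⟩)
      have hqY : ψ v q ∈ Y v := hψ2 v hv q (Finset.mem_erase.2 ⟨hq.2, hall q hq.1⟩)
      have hne : ψ v p ≠ ψ v q := fun h => hpq (hinj hp.1 hq.1 h)
      have := (hY v hv).2.2.2.2 _ hpY _ hqY hne
      rw [hfe, Finset.image_insert, Finset.image_insert, Finset.image_singleton, hψ1 v hv]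
      exact this
    · refine (hY v hv).1.red _ ?_ ?_
      · intro z hz
        obtain ⟨w, hw, rfl⟩ := Finset.mem_image.1 hz
        have hne : w ≠ x v := fun h => hc (h ▸ hw)
        exact hψ2 v hv w (Finset.mem_erase.2 ⟨hne, hall w hw⟩)
      · rw [Finset.card_image_of_injOn hinj, hf3]
  · intro f hf y hy z hz w hw hyX hzX hyz hwX
    obtain ⟨v, hv, hyv⟩ := (hX y).1 hyX
    have hzv := hedge f hf v hv y hy hyv z hz hzX
    have hcen : ∀ u ∈ f, u ≠ x v := by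
      intro u hu h
      apply hwX
      rw [hX]
      exact ⟨v, hv, Presc_mem_nbc hf (h ▸ hu) hw⟩
    show ((cod R W (ψ (b y) y) (ψ (b z) z)).card : ℝ) < η * (W.card : ℝ)
    rw [hφ v hv y hyv, hφ v hv z hzv]
    refine (hY v hv).1.cod _ (hψ2 v hv y (Finset.mem_erase.2 ⟨hcen y hy, hyv⟩)) _
      (hψ2 v hv z (Finset.mem_erase.2 ⟨hcen z hz, hzv⟩)) ?_
    exact fun h => hyz (hψ3 v hv hyv hzv h)
  · intro f hf y hy hyX hoth
    obtain ⟨v, hv, hyv⟩ := (hX y).1 hyX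
    have hf3 := hH.three f hf
    have hne : y ≠ x v := by
      intro h
      obtain ⟨w, hw, hwy⟩ : ∃ w ∈ f, w ≠ y := by
        by_contra hcon
        push Not at hcon
        have : f ⊆ {y} := fun w hw => Finset.mem_singleton.2 (hcon w hw)
        have := Finset.card_le_card this
        rw [hf3, Finset.card_singleton] at this
        omega
      apply hoth w hw hwy
      rw [hX]
      exact ⟨v, hv, Presc_mem_nbc hf (h ▸ hy) hw⟩
    show ((bpairs R W (ψ (b y) y)).card : ℝ) < ε * (W.card : ℝ) ^ 2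
    rw [hφ v hv y hyv]
    exact (hY v hv).1.deg _ (hψ2 v hv y (Finset.mem_erase.2 ⟨hne, hyv⟩))
  · intro f hf y hy hyX hfX
    obtain ⟨v, hv, hyv⟩ := (hX y).1 hyX
    have hne : y ≠ x v := by
      intro h
      apply hfX
      intro w hw
      rw [hX]
      exact ⟨v, hv, Presc_mem_nbc hf (h ▸ hy) hw⟩
    show ψ (b y) y ∈ D.biUnion Y
    rw [hφ v hv y hyv]
    exact Finset.mem_biUnion.2 ⟨v, hv, hψ2 v hv y (Finset.mem_erase.2 ⟨hne, hyv⟩)⟩

/-- the prescribed part: far apart vertices `x v` go to the dense vertices `v ∈ D`, their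
neighbourhoods to nice sets -/
theorem prescribe {V α : Type*} [DecidableEq V] [DecidableEq α] [Nonempty α] {S : Finset V}
    {E : Finset (Finset V)} {Δ : ℕ} (hH : Hyp S E Δ) (R : Finset α → Prop) (W : Finset α)
    (ε η : ℝ) (D : Finset α) (x : α → V) (hx : ∀ i ∈ D, x i ∈ S)
    (hfar : ∀ i ∈ D, ∀ j ∈ D, i ≠ j → Disjoint (nbc E (x i)) (nbc E (x j)) ∧
      ∀ f ∈ E, ∀ y ∈ f, ∀ z ∈ f, y ∈ nbc E (x i) → z ∉ nbc E (x j))
    (Y : α → Finset α) (hY : ∀ v ∈ D, Nice R W ε η (Y v) ∧ (Y v).card = 2 * Δ ∧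
      Disjoint (Y v) D ∧ RedTo R v (Y v))
    (hdisj : ∀ v ∈ D, ∀ v' ∈ D, v ≠ v' → Disjoint (Y v) (Y v')) :
    ∃ (X : Finset V) (φ : V → α), X ⊆ S ∧ Set.InjOn φ X ∧
      (∀ y ∈ X, φ y ∈ D ∪ D.biUnion Y) ∧ D ⊆ X.image φ ∧
      X.card ≤ (2 * Δ + 1) * D.card ∧
      (∀ f ∈ E, f ⊆ X → R (f.image φ)) ∧
      (∀ f ∈ E, ∀ x ∈ f, ∀ y ∈ f, ∀ z ∈ f, x ∈ X → y ∈ X → x ≠ y → z ∉ X →
        ((cod R W (φ x) (φ y)).card : ℝ) < η * (W.card : ℝ)) ∧
      (∀ f ∈ E, ∀ x ∈ f, x ∈ X → (∀ y ∈ f, y ≠ x → y ∉ X) →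
        ((bpairs R W (φ x)).card : ℝ) < ε * (W.card : ℝ) ^ 2) := by
  obtain ⟨X, φ, h1, h2, h3, h4, h5, h6, h7, h8, -⟩ :=
    prescribe2 hH R W ε η D x hx hfar Y hY hdisj
  exact ⟨X, φ, h1, h2, h3, h4, h5, h6, h7, h8⟩

end Pool.MP7783b9
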