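import Pool.Agent.H.MP_7783b9_co.B.Unusable
import Pool.Agent.H.MP_7783b9_co.B.Presc
import Pool.Agent.H.MP_7783b9_co.B.Fixed

/-!
# The embedding of all of `H` into a set in which blue triples are rare
-/

set_option autoImplicit false

open Finset

namespace Pool.MP7783b9

theorem core (Δ s : ℕ) :
    ∃ c : ℝ, 0 < c ∧ ∃ n₀ r : ℕ, ∀ (ε η τ φ κ : ℝ), 0 < ε → ε ≤ c → 0 < η → η ≤ c → 0 ≤ τ →
      τ ≤ c → κ ≤ 1 / 2 → 0 ≤ κ → (2 * (Δ : ℝ) + 2) * τ + κ ≤ φ →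
      ∀ {V : Type*} {α : Type} [DecidableEq V] [DecidableEq α]
      (S : Finset V) (E : Finset (Finset V)) (_ : Hyp S E Δ) (R : Finset α → Prop)
      (W : Finset α) (a : α) (_ : a ∉ W) (_ : ¬ BlueFano R (insert a W))
      (_ : n₀ ≤ W.card) (_ : S.card ≤ W.card)
      (_ : (W.card : ℝ) - (S.card : ℝ) ≤ κ * (W.card : ℝ))
      (_ : ((dense R W ε).card : ℝ) ≤ τ * (W.card : ℝ))
      (_ : ∀ Φ : Finset α, (Φ.card : ℝ) ≤ 3 * φ * (W.card : ℝ) + 3 →
        ∃ X, Nice R W ε η X ∧ X.card = r ∧ Disjoint X Φ ∧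
          ∀ A ⊆ X, A.card = s → HasPair R a A)
      (_ : ∀ U ⊆ W, U.card + S.card = W.card + 1 → RedClique R U → HasPair R a U),
      HasRed R S E W := by
  classical
  obtain ⟨r, hr⟩ := unusable_red s (2 * Δ)
  obtain ⟨c', hc', n₀, hemb⟩ := embed_fixed Δ
  have hΔ : (0 : ℝ) < 2 * (Δ : ℝ) + 1 := by positivity
  have hΔ3 : (0 : ℝ) < 2 * (2 * (Δ : ℝ) + 1) ^ 3 := by positivity
  refine ⟨min (c' / (2 * (Δ : ℝ) + 1)) (min c' (1 / (2 * (2 * (Δ : ℝ) + 1) ^ 3))),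
    lt_min (div_pos hc' hΔ) (lt_min hc' (one_div_pos.2 hΔ3)), n₀, r, ?_⟩
  intro ε η τ φ κ hε hεc hη hηc hτ hτc hκ1 hκ0 hφ V α _ _ S E hH R W a haW hF hn₀ hSW hSκ hdense
    hnice hred
  have hne : Nonempty α := ⟨a⟩
  have hε' : ε ≤ c' := hεc.trans ((min_le_right _ _).trans (min_le_left _ _))
  have hη' : η ≤ c' := hηc.trans ((min_le_right _ _).trans (min_le_left _ _))
  have hτ1 : (2 * (Δ : ℝ) + 1) * τ ≤ c' := by
    have h1 : τ ≤ c' / (2 * (Δ : ℝ) + 1) := hτc.trans (min_le_left _ _)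
    rw [le_div_iff₀ hΔ] at h1
    linarith
  have hτ2 : (2 * (Δ : ℝ) + 1) ^ 3 * τ ≤ 1 / 2 := by
    have h1 : τ ≤ 1 / (2 * (2 * (Δ : ℝ) + 1) ^ 3) :=
      hτc.trans ((min_le_right _ _).trans (min_le_right _ _))
    rw [le_div_iff₀ hΔ3] at h1
    linarith
  have hw0 : (0 : ℝ) ≤ (W.card : ℝ) := Nat.cast_nonneg _
  have hΔ0 : (0 : ℝ) ≤ (Δ : ℝ) := Nat.cast_nonneg _
  have hφ0 : 0 ≤ φ := by
    have : 0 ≤ (2 * (Δ : ℝ) + 2) * τ := mul_nonneg (by positivity) hτ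
    linarith
  -- the unusable vertices
  set U₀ : Finset α := W.filter fun v => ¬ Usable R W ε η φ (2 * Δ) v with hU₀
  obtain ⟨hU1, hU2⟩ := hr R W a haW hF ε η φ hφ0 hnice U₀ (Finset.filter_subset _ _)
    (fun v hv => (Finset.mem_filter.1 hv).2)
  have hUcard : U₀.card + S.card ≤ W.card := by
    by_contra hcon
    have hlt : W.card + 1 - S.card ≤ U₀.card := by omega
    obtain ⟨U, hUU, hUc⟩ := Finset.exists_subset_card_eq hlt
    obtain ⟨p, hp, q, hq, hpq, hR⟩ := hred U (hUU.trans (Finset.filter_subset _ _)) (by omega)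
      (fun f hf => hU1 f (hf.trans hUU))
    exact hR (hU2.2 p (hUU hp) q (hUU hq) hpq)
  have hsub : U₀ ⊆ W := Finset.filter_subset _ _
  have hWU : S.card ≤ (W \ U₀).card := by
    rw [Finset.card_sdiff_of_subset hsub]
    omega
  obtain ⟨W', hW'sub, hW'card⟩ := Finset.exists_subset_card_eq hWU
  have hW'W : W' ⊆ W := hW'sub.trans Finset.sdiff_subset
  have hus : ∀ v ∈ W', Usable R W ε η φ (2 * Δ) v := by
    intro v hv
    have h1 := Finset.mem_sdiff.1 (hW'sub hv)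
    by_contra hcon
    exact h1.2 (Finset.mem_filter.2 ⟨h1.1, hcon⟩)
  set D : Finset α := dense R W ε ∩ W' with hD
  have hDW' : D ⊆ W' := Finset.inter_subset_right
  have hDcard : (D.card : ℝ) ≤ τ * (W.card : ℝ) := by
    have : (D.card : ℝ) ≤ ((dense R W ε).card : ℝ) := by
      exact_mod_cast Finset.card_le_card Finset.inter_subset_left
    linarith
  have hShalf : (W.card : ℝ) / 2 ≤ (S.card : ℝ) := by
    have : κ * (W.card : ℝ) ≤ 1 / 2 * (W.card : ℝ) := mul_le_mul_of_nonneg_right hκ1 hw0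
    linarith
  have hfarc : D.card * (2 * Δ + 1) ^ 3 ≤ S.card := by
    have h1 : (D.card : ℝ) * (2 * (Δ : ℝ) + 1) ^ 3 ≤ (S.card : ℝ) := by
      have h2 : (D.card : ℝ) * (2 * (Δ : ℝ) + 1) ^ 3 ≤
          τ * (W.card : ℝ) * (2 * (Δ : ℝ) + 1) ^ 3 :=
        mul_le_mul_of_nonneg_right hDcard (by positivity)
      have h3 : τ * (W.card : ℝ) * (2 * (Δ : ℝ) + 1) ^ 3 =
          ((2 * (Δ : ℝ) + 1) ^ 3 * τ) * (W.card : ℝ) := by ring
      have h4 : ((2 * (Δ : ℝ) + 1) ^ 3 * τ) * (W.card : ℝ) ≤ 1 / 2 * (W.card : ℝ) :=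
        mul_le_mul_of_nonneg_right hτ2 hw0
      linarith
    exact_mod_cast h1
  rcases isEmpty_or_nonempty V with hV | hV
  · refine ⟨fun _ => a, fun v _ => hV.elim v, fun v _ => hV.elim v, fun f hf => ?_⟩
    have h3 := hH.three f hf
    rw [Finset.eq_empty_of_isEmpty f] at h3
    simp at h3
  obtain ⟨x, hxS, hfar⟩ := exists_far hH D hfarc
  have hΦ : ((((W \ W') ∪ D).card : ℕ) : ℝ) + ((2 * Δ : ℕ) : ℝ) * D.card ≤
      φ * (W.card : ℝ) := by
    have h1 : ((((W \ W') ∪ D).card : ℕ) : ℝ) ≤ ((W \ W').card : ℝ) + (D.card : ℝ) := by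
      exact_mod_cast Finset.card_union_le _ _
    have h2 : ((W \ W').card : ℝ) = (W.card : ℝ) - (S.card : ℝ) := by
      rw [Finset.card_sdiff_of_subset hW'W, hW'card, Nat.cast_sub hSW]
    have h3 : ((2 * Δ : ℕ) : ℝ) * D.card ≤ ((2 * Δ : ℕ) : ℝ) * (τ * (W.card : ℝ)) :=
      mul_le_mul_of_nonneg_left hDcard (Nat.cast_nonneg _)
    have h4 : ((2 * Δ : ℕ) : ℝ) = 2 * (Δ : ℝ) := by push_cast; ring
    have h5 : ((2 * (Δ : ℝ) + 2) * τ + κ) * (W.card : ℝ) ≤ φ * (W.card : ℝ) :=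
      mul_le_mul_of_nonneg_right hφ hw0
    have h6 : 0 ≤ τ * (W.card : ℝ) := mul_nonneg hτ hw0
    rw [h4] at h3 ⊢
    nlinarith
  obtain ⟨Y, hY, hYd⟩ := exists_sets R W ε η φ (2 * Δ) D ((W \ W') ∪ D)
    (fun v hv => hus v (hDW' hv)) hΦ
  obtain ⟨X, f, hXS, hinj, himg, hDimg, hXc, he1, he2, he3⟩ := prescribe hH R W ε η D x hxS hfar Y
    (fun v hv => ⟨(hY v hv).1, (hY v hv).2.1,
      Finset.disjoint_of_subset_right Finset.subset_union_right (hY v hv).2.2.1,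
      (hY v hv).2.2.2⟩) hYd
  have hres : HasRed R S E W' := by
    refine hemb S E hH R W W' hW'W hW'card.ge ?_ hn₀ X hXS f hinj ?_ ?_ he1 ?_ ?_ ?_
    · rw [hW'card]
      linarith
    · intro y hy
      rcases Finset.mem_union.1 (himg y hy) with h | h
      · exact hDW' h
      · obtain ⟨v, hv, hyv⟩ := Finset.mem_biUnion.1 h
        have hyW : f y ∈ W := (hY v hv).1.sub hyv
        by_contra hcon
        exact Finset.disjoint_left.1 (hY v hv).2.2.1 hyv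
          (Finset.mem_union_left _ (Finset.mem_sdiff.2 ⟨hyW, hcon⟩))
    · have h1 : (X.card : ℝ) ≤ (2 * (Δ : ℝ) + 1) * (D.card : ℝ) := by exact_mod_cast hXc
      have h2 : (2 * (Δ : ℝ) + 1) * (D.card : ℝ) ≤ (2 * (Δ : ℝ) + 1) * (τ * (W.card : ℝ)) :=
        mul_le_mul_of_nonneg_left hDcard hΔ.le
      have h3 : (2 * (Δ : ℝ) + 1) * τ * (W.card : ℝ) ≤ c' * (W.card : ℝ) :=
        mul_le_mul_of_nonneg_right hτ1 hw0
      linarith
    · intro g hg u hu y hy z hz huX hyX huy hzX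
      have h1 := he2 g hg u hu y hy z hz huX hyX huy hzX
      have h2 : η * (W.card : ℝ) ≤ c' * (W.card : ℝ) := mul_le_mul_of_nonneg_right hη' hw0
      linarith
    · intro g hg u hu huX hall
      have h1 := he3 g hg u hu huX hall
      have h2 : ε * (W.card : ℝ) ^ 2 ≤ c' * (W.card : ℝ) ^ 2 :=
        mul_le_mul_of_nonneg_right hε' (by positivity)
      linarith
    · intro p hp hpX
      have hpD : p ∉ D := fun h => hpX (hDimg h)
      have hpd : p ∉ dense R W ε := fun h => hpD (Finset.mem_inter.2 ⟨h, hp⟩)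
      have h1 : ¬ ε * (W.card : ℝ) ^ 2 ≤ ((bpairs R W p).card : ℝ) := fun h =>
        hpd (mem_dense.2 ⟨hW'W hp, h⟩)
      have h2 : ε * (W.card : ℝ) ^ 2 ≤ c' * (W.card : ℝ) ^ 2 :=
        mul_le_mul_of_nonneg_right hε' (by positivity)
      linarith [not_le.1 h1]
  obtain ⟨g, h1, h2, h3⟩ := hres
  exact ⟨g, h1, fun v hv => hW'W (h2 v hv), h3⟩

end Pool.MP7783b9
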