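import Pool.Agent.H.MP_7783b9_co.B.Basic

/-!
# Vertices of a hypergraph of bounded degree that are far apart; choice of disjoint nice sets
-/

set_option autoImplicit false

open Finset

namespace Pool.MP7783b9

theorem Far_mem_nbc {V : Type*} [DecidableEq V] (E : Finset (Finset V)) (x y : V) :
    y ∈ nbc E x ↔ y = x ∨ ∃ f ∈ E, x ∈ f ∧ y ∈ f := by
  unfold nbc edgesAt
  simp only [Finset.mem_insert, Finset.mem_biUnion, Finset.mem_filter, id]
  constructor
  · rintro (h | ⟨f, ⟨h1, h2⟩, h3⟩)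
    · exact Or.inl h
    · exact Or.inr ⟨f, h1, h2, h3⟩
  · rintro (h | ⟨f, h1, h2, h3⟩)
    · exact Or.inl h
    · exact Or.inr ⟨f, ⟨h1, h2⟩, h3⟩

theorem nbc_card {V : Type*} [DecidableEq V] {S : Finset V} {E : Finset (Finset V)} {Δ : ℕ}
    (h : Hyp S E Δ) (x : V) : (nbc E x).card ≤ 2 * Δ + 1 := by
  have hsub : nbc E x ⊆ insert x ((edgesAt E x).biUnion fun f => f.erase x) := by
    intro y hy
    unfold nbc at hy
    rw [Finset.mem_insert, Finset.mem_biUnion] at hy
    rw [Finset.mem_insert, Finset.mem_biUnion]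
    by_cases hyx : y = x
    · exact Or.inl hyx
    · rcases hy with hy | ⟨f, hf, hyf⟩
      · exact Or.inl hy
      · exact Or.inr ⟨f, hf, Finset.mem_erase.2 ⟨hyx, hyf⟩⟩
  have h1 : ((edgesAt E x).biUnion fun f => f.erase x).card ≤ (edgesAt E x).card * 2 := by
    apply Finset.card_biUnion_le_card_mul
    intro f hf
    unfold edgesAt at hf
    rw [Finset.mem_filter] at hf
    rw [Finset.card_erase_of_mem hf.2, h.three f hf.1]
  calc (nbc E x).card ≤ _ := Finset.card_le_card hsub
    _ ≤ ((edgesAt E x).biUnion fun f => f.erase x).card + 1 := Finset.card_insert_le _ _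
    _ ≤ (edgesAt E x).card * 2 + 1 := by omega
    _ ≤ 2 * Δ + 1 := by
      have := h.deg x
      omega

theorem mem_nbc_symm {V : Type*} [DecidableEq V] (E : Finset (Finset V)) (x y : V) :
    y ∈ nbc E x ↔ x ∈ nbc E y := by
  rw [Far_mem_nbc, Far_mem_nbc]
  constructor
  · rintro (h | ⟨f, h1, h2, h3⟩)
    · exact Or.inl h.symm
    · exact Or.inr ⟨f, h1, h3, h2⟩
  · rintro (h | ⟨f, h1, h2, h3⟩)
    · exact Or.inl h.symm
    · exact Or.inr ⟨f, h1, h3, h2⟩

/-- the ball of radius `3` -/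
def Far_B3 {V : Type*} [DecidableEq V] (E : Finset (Finset V)) (x : V) : Finset V :=
  (nbc E x).biUnion fun y => (nbc E y).biUnion fun z => nbc E z

theorem Far_mem_B3 {V : Type*} [DecidableEq V] (E : Finset (Finset V)) (x w : V) :
    w ∈ Far_B3 E x ↔ ∃ y ∈ nbc E x, ∃ z ∈ nbc E y, w ∈ nbc E z := by
  unfold Far_B3
  simp only [Finset.mem_biUnion]

theorem Far_B3_symm {V : Type*} [DecidableEq V] (E : Finset (Finset V)) (x w : V) :
    w ∈ Far_B3 E x ↔ x ∈ Far_B3 E w := by
  rw [Far_mem_B3, Far_mem_B3]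
  constructor
  · rintro ⟨y, hy, z, hz, hw⟩
    exact ⟨z, (mem_nbc_symm E z w).1 hw, y, (mem_nbc_symm E y z).1 hz, (mem_nbc_symm E x y).1 hy⟩
  · rintro ⟨y, hy, z, hz, hw⟩
    exact ⟨z, (mem_nbc_symm E z x).1 hw, y, (mem_nbc_symm E y z).1 hz, (mem_nbc_symm E w y).1 hy⟩

theorem Far_B3_card {V : Type*} [DecidableEq V] {S : Finset V} {E : Finset (Finset V)} {Δ : ℕ}
    (h : Hyp S E Δ) (x : V) : (Far_B3 E x).card ≤ (2 * Δ + 1) ^ 3 := by
  unfold Far_B3
  have h1 : ∀ y, ((nbc E y).biUnion fun z => nbc E z).card ≤ (2 * Δ + 1) * (2 * Δ + 1) := by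
    intro y
    calc ((nbc E y).biUnion fun z => nbc E z).card ≤ (nbc E y).card * (2 * Δ + 1) :=
          Finset.card_biUnion_le_card_mul _ _ _ fun z _ => nbc_card h z
      _ ≤ (2 * Δ + 1) * (2 * Δ + 1) := Nat.mul_le_mul_right _ (nbc_card h y)
  calc _ ≤ (nbc E x).card * ((2 * Δ + 1) * (2 * Δ + 1)) :=
        Finset.card_biUnion_le_card_mul _ _ _ fun y _ => h1 y
    _ ≤ (2 * Δ + 1) * ((2 * Δ + 1) * (2 * Δ + 1)) := Nat.mul_le_mul_right _ (nbc_card h x)
    _ = (2 * Δ + 1) ^ 3 := by ring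

/-- outside the ball of radius `3` the neighbourhoods are far apart -/
theorem Far_sep {V : Type*} [DecidableEq V] (E : Finset (Finset V)) {x w : V}
    (h : w ∉ Far_B3 E x) : Disjoint (nbc E x) (nbc E w) ∧
      ∀ f ∈ E, ∀ y ∈ f, ∀ z ∈ f, y ∈ nbc E x → z ∉ nbc E w := by
  have key : ∀ y z, z ∈ nbc E y → y ∈ nbc E x → z ∉ nbc E w := by
    intro y z hzy hy hz
    apply h
    rw [Far_mem_B3]
    exact ⟨y, hy, z, hzy, (mem_nbc_symm E w z).1 hz⟩
  constructor
  · rw [Finset.disjoint_left]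
    intro y hy hy'
    exact key y y ((Far_mem_nbc E y y).2 (Or.inl rfl)) hy hy'
  · intro f hf y hy z hz hyx
    exact key y z ((Far_mem_nbc E y z).2 (Or.inr ⟨f, hf, hy, hz⟩)) hyx

theorem exists_far {V β : Type*} [Nonempty V] [DecidableEq V] [DecidableEq β] {S : Finset V}
    {E : Finset (Finset V)} {Δ : ℕ} (h : Hyp S E Δ) (D : Finset β)
    (hD : D.card * (2 * Δ + 1) ^ 3 ≤ S.card) :
    ∃ x : β → V, (∀ i ∈ D, x i ∈ S) ∧ ∀ i ∈ D, ∀ j ∈ D, i ≠ j →
      Disjoint (nbc E (x i)) (nbc E (x j)) ∧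
      ∀ f ∈ E, ∀ y ∈ f, ∀ z ∈ f, y ∈ nbc E (x i) → z ∉ nbc E (x j) := by
  have main : ∃ x : β → V, (∀ i ∈ D, x i ∈ S) ∧ ∀ i ∈ D, ∀ j ∈ D, i ≠ j →
      x j ∉ Far_B3 E (x i) := by
    induction D using Finset.induction_on with
    | empty =>
      obtain ⟨v⟩ := ‹Nonempty V›
      exact ⟨fun _ => v, fun i hi => absurd hi (Finset.notMem_empty i),
        fun i hi => absurd hi (Finset.notMem_empty i)⟩
    | insert j D hj ih =>
      rw [Finset.card_insert_of_notMem hj, add_mul, one_mul] at hD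
      obtain ⟨x, hx1, hx2⟩ := ih (by omega)
      have hpos : 0 < (2 * Δ + 1) ^ 3 := by positivity
      have hlt : (D.biUnion fun i => Far_B3 E (x i)).card < S.card := by
        calc (D.biUnion fun i => Far_B3 E (x i)).card ≤ D.card * (2 * Δ + 1) ^ 3 :=
              Finset.card_biUnion_le_card_mul _ _ _ fun i _ => Far_B3_card h (x i)
          _ < S.card := by omega
      obtain ⟨v, hvS, hv⟩ := Finset.exists_mem_notMem_of_card_lt_card hlt
      have hv' : ∀ i ∈ D, v ∉ Far_B3 E (x i) := by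
        intro i hi hvi
        exact hv (Finset.mem_biUnion.2 ⟨i, hi, hvi⟩)
      have hne : ∀ i ∈ D, i ≠ j := fun i hi hij => hj (hij ▸ hi)
      refine ⟨Function.update x j v, ?_, ?_⟩
      · intro i hi
        rcases Finset.mem_insert.1 hi with rfl | hi
        · rw [Function.update_self]
          exact hvS
        · rw [Function.update_of_ne (hne i hi)]
          exact hx1 i hi
      · intro i hi k hk hik
        rcases Finset.mem_insert.1 hi with hi1 | hi1
        · rcases Finset.mem_insert.1 hk with hk1 | hk1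
          · exact absurd (hi1.trans hk1.symm) hik
          · rw [hi1, Function.update_self, Function.update_of_ne (hne k hk1), Far_B3_symm]
            exact hv' k hk1
        · rcases Finset.mem_insert.1 hk with hk1 | hk1
          · rw [hk1, Function.update_self, Function.update_of_ne (hne i hi1)]
            exact hv' i hi1
          · rw [Function.update_of_ne (hne i hi1), Function.update_of_ne (hne k hk1)]
            exact hx2 i hi1 k hk1 hik
  obtain ⟨x, hx1, hx2⟩ := main
  exact ⟨x, hx1, fun i hi j hj hij => Far_sep E (hx2 i hi j hj hij)⟩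

/-- disjoint nice sets for the usable vertices in `D` -/
theorem exists_sets {α : Type*} [DecidableEq α] (R : Finset α → Prop) (W : Finset α)
    (ε η φ : ℝ) (t : ℕ) (D Φ : Finset α) (hD : ∀ v ∈ D, Usable R W ε η φ t v)
    (h : (Φ.card : ℝ) + t * D.card ≤ φ * (W.card : ℝ)) :
    ∃ Y : α → Finset α, (∀ v ∈ D, Nice R W ε η (Y v) ∧ (Y v).card = t ∧ Disjoint (Y v) Φ ∧
      RedTo R v (Y v)) ∧ ∀ v ∈ D, ∀ v' ∈ D, v ≠ v' → Disjoint (Y v) (Y v') := by
  induction D using Finset.induction_on with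
  | empty =>
    exact ⟨fun _ => ∅, fun v hv => absurd hv (Finset.notMem_empty v),
      fun v hv => absurd hv (Finset.notMem_empty v)⟩
  | insert w D hw ih =>
    rw [Finset.card_insert_of_notMem hw] at h
    push_cast at h
    have ht : (0 : ℝ) ≤ t := Nat.cast_nonneg t
    obtain ⟨Y, hY1, hY2⟩ := ih (fun v hv => hD v (Finset.mem_insert_of_mem hv)) (by linarith)
    have hcard : ((Φ ∪ D.biUnion Y).card : ℝ) ≤ φ * (W.card : ℝ) := by
      have h1 : (D.biUnion Y).card ≤ D.card * t :=
        Finset.card_biUnion_le_card_mul _ _ _ fun v hv => (hY1 v hv).2.1.le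
      have h2 : (Φ ∪ D.biUnion Y).card ≤ Φ.card + D.card * t :=
        (Finset.card_union_le _ _).trans (by omega)
      have h3 : ((Φ ∪ D.biUnion Y).card : ℝ) ≤ Φ.card + D.card * t := by exact_mod_cast h2
      linarith
    obtain ⟨Z, hZ1, hZ2, hZ3, hZ4⟩ := hD w (Finset.mem_insert_self w D) _ hcard
    rw [Finset.disjoint_union_right] at hZ3
    have hZD : ∀ v ∈ D, Disjoint Z (Y v) := fun v hv =>
      hZ3.2.mono_right (Finset.subset_biUnion_of_mem Y hv)
    have hne : ∀ v ∈ D, v ≠ w := fun v hv hvw => hw (hvw ▸ hv)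
    refine ⟨Function.update Y w Z, ?_, ?_⟩
    · intro v hv
      rcases Finset.mem_insert.1 hv with rfl | hv
      · rw [Function.update_self]
        exact ⟨hZ1, hZ2, hZ3.1, hZ4⟩
      · rw [Function.update_of_ne (hne v hv)]
        exact hY1 v hv
    · intro v hv v' hv' hvv
      rcases Finset.mem_insert.1 hv with hv1 | hv1
      · rcases Finset.mem_insert.1 hv' with hv2 | hv2
        · exact absurd (hv1.trans hv2.symm) hvv
        · rw [hv1, Function.update_self, Function.update_of_ne (hne v' hv2)]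
          exact hZD v' hv2
      · rcases Finset.mem_insert.1 hv' with hv2 | hv2
        · rw [hv2, Function.update_self, Function.update_of_ne (hne v hv1)]
          exact (hZD v hv1).symm
        · rw [Function.update_of_ne (hne v hv1), Function.update_of_ne (hne v' hv2)]
          exact hY2 v hv1 v' hv2 hvv

end Pool.MP7783b9
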