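import Mathlib

/-!
# The lopsided local lemma, counting version
-/

set_option autoImplicit false

open Finset

namespace Pool.MP7783b9

/-- the points that avoid all events of `S` -/
def avoid {Ω ι : Type*} [Fintype Ω] [DecidableEq Ω] (A : ι → Finset Ω) (S : Finset ι) :
    Finset Ω := Finset.univ.filter fun ω => ∀ j ∈ S, ω ∉ A j

private theorem Lop_mem {Ω ι : Type*} [Fintype Ω] [DecidableEq Ω] (A : ι → Finset Ω)
    (S : Finset ι) (ω : Ω) : ω ∈ avoid A S ↔ ∀ j ∈ S, ω ∉ A j := by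
  simp [avoid]

private theorem Lop_anti {Ω ι : Type*} [Fintype Ω] [DecidableEq Ω] (A : ι → Finset Ω)
    {S T : Finset ι} (h : T ⊆ S) : avoid A S ⊆ avoid A T := by
  intro ω hω
  rw [Lop_mem] at hω ⊢
  exact fun j hj => hω j (h hj)

/-- `|avoid T| ≤ |avoid S| + ∑_{j ∈ S \ T} |A j ∩ avoid T|`, with a set `U` such that
`S ⊆ U ∪ T`. -/
private theorem Lop_split {Ω ι : Type*} [Fintype Ω] [DecidableEq Ω] [DecidableEq ι]
    (A : ι → Finset Ω) {S T U : Finset ι} (h : S ⊆ U ∪ T) :
    (avoid A T).card ≤ (avoid A S).card + ∑ j ∈ U, (A j ∩ avoid A T).card := by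
  have h1 : avoid A T ⊆ avoid A S ∪ U.biUnion fun j => A j ∩ avoid A T := by
    intro ω hω
    rw [mem_union, mem_biUnion, Lop_mem]
    by_cases h2 : ∃ j ∈ U, ω ∈ A j
    · obtain ⟨j, hj, hj'⟩ := h2
      exact Or.inr ⟨j, hj, mem_inter.2 ⟨hj', hω⟩⟩
    · left
      intro j hj hj'
      rcases mem_union.1 (h hj) with h3 | h3
      · exact h2 ⟨j, h3, hj'⟩
      · exact (Lop_mem A T ω).1 hω j h3 hj'
  exact (card_le_card h1).trans ((card_union_le _ _).trans
    (Nat.add_le_add_left card_biUnion_le _))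

private theorem Lop_key {Ω ι : Type*} [Fintype Ω] [DecidableEq Ω] [Nonempty Ω] [DecidableEq ι]
    (I : Finset ι) (A : ι → Finset Ω) (Γ : ι → Finset ι)
    (hneg : ∀ i ∈ I, ∀ S ⊆ I \ Γ i,
      ((A i ∩ avoid A S).card : ℝ) * (Fintype.card Ω : ℝ) ≤
        ((A i).card : ℝ) * ((avoid A S).card : ℝ))
    (hsum : ∀ i ∈ I, ∑ j ∈ I ∩ Γ i, ((A j).card : ℝ) / (Fintype.card Ω : ℝ) ≤ 1 / 4) :
    ∀ (n : ℕ) (S : Finset ι), S.card = n → S ⊆ I → ∀ i ∈ I,
      ((A i ∩ avoid A S).card : ℝ) ≤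
        2 * (((A i).card : ℝ) / (Fintype.card Ω : ℝ)) * ((avoid A S).card : ℝ) := by
  have hN : (0 : ℝ) < (Fintype.card Ω : ℝ) := by exact_mod_cast Fintype.card_pos
  intro n
  induction n using Nat.strong_induction_on with
  | _ n ih =>
    intro S hS hSI i hi
    have h1 : S \ Γ i ⊆ I \ Γ i := sdiff_subset_sdiff hSI subset_rfl
    have h2 := hneg i hi _ h1
    have h3 : ((A i ∩ avoid A (S \ Γ i)).card : ℝ) ≤
        (((A i).card : ℝ) / (Fintype.card Ω : ℝ)) * ((avoid A (S \ Γ i)).card : ℝ) := by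
      rw [div_mul_eq_mul_div, le_div_iff₀ hN]
      exact h2
    have h4 : ((A i ∩ avoid A S).card : ℝ) ≤ ((A i ∩ avoid A (S \ Γ i)).card : ℝ) := by
      exact_mod_cast card_le_card (inter_subset_inter subset_rfl (Lop_anti A sdiff_subset))
    have hp : (0 : ℝ) ≤ ((A i).card : ℝ) / (Fintype.card Ω : ℝ) := by positivity
    have h5 : ((avoid A (S \ Γ i)).card : ℝ) ≤ 2 * ((avoid A S).card : ℝ) := by
      rcases (S ∩ Γ i).eq_empty_or_nonempty with h6 | h6
      · have h7 : S \ Γ i = S := by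
          rw [Finset.sdiff_eq_self_iff_disjoint, disjoint_iff_inter_eq_empty]
          exact h6
        rw [h7]
        have : (0 : ℝ) ≤ ((avoid A S).card : ℝ) := by positivity
        linarith
      · have h7 : (S \ Γ i).card < n := by
          rw [← hS]
          apply card_lt_card
          rw [Finset.ssubset_iff_subset_ne]
          refine ⟨sdiff_subset, fun h8 => ?_⟩
          obtain ⟨x, hx⟩ := h6
          have hx' := mem_inter.1 hx
          have h9 := hx'.1
          rw [← h8] at h9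
          exact (mem_sdiff.1 h9).2 hx'.2
        have h8 : S ⊆ (S ∩ Γ i) ∪ (S \ Γ i) := by
          intro x hx
          by_cases hxi : x ∈ Γ i
          · exact mem_union_left _ (mem_inter.2 ⟨hx, hxi⟩)
          · exact mem_union_right _ (mem_sdiff.2 ⟨hx, hxi⟩)
        have h9 := Lop_split A h8
        have h10 : ((avoid A (S \ Γ i)).card : ℝ) ≤ ((avoid A S).card : ℝ)
            + ∑ j ∈ S ∩ Γ i, ((A j ∩ avoid A (S \ Γ i)).card : ℝ) := by exact_mod_cast h9
        have h11 : ∑ j ∈ S ∩ Γ i, ((A j ∩ avoid A (S \ Γ i)).card : ℝ) ≤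
            ∑ j ∈ S ∩ Γ i, 2 * (((A j).card : ℝ) / (Fintype.card Ω : ℝ))
              * ((avoid A (S \ Γ i)).card : ℝ) := by
          apply sum_le_sum
          intro j hj
          exact ih _ h7 _ rfl (sdiff_subset.trans hSI) j (hSI (mem_inter.1 hj).1)
        rw [← sum_mul, ← mul_sum] at h11
        have h12 : ∑ j ∈ S ∩ Γ i, ((A j).card : ℝ) / (Fintype.card Ω : ℝ) ≤ 1 / 4 := by
          refine le_trans ?_ (hsum i hi)
          apply sum_le_sum_of_subset_of_nonneg (inter_subset_inter hSI subset_rfl)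
          intro j _ _
          positivity
        have h13 : (0 : ℝ) ≤ ((avoid A (S \ Γ i)).card : ℝ) := by positivity
        have h14 := mul_le_mul_of_nonneg_right h12 h13
        linarith
    calc ((A i ∩ avoid A S).card : ℝ) ≤ _ := h4
      _ ≤ _ := h3
      _ ≤ (((A i).card : ℝ) / (Fintype.card Ω : ℝ)) * (2 * ((avoid A S).card : ℝ)) :=
          mul_le_mul_of_nonneg_left h5 hp
      _ = _ := by ring

theorem lop_local {Ω ι : Type*} [Fintype Ω] [DecidableEq Ω] [Nonempty Ω] [DecidableEq ι]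
    (I : Finset ι) (A : ι → Finset Ω) (Γ : ι → Finset ι)
    (hneg : ∀ i ∈ I, ∀ S ⊆ I \ Γ i,
      ((A i ∩ avoid A S).card : ℝ) * (Fintype.card Ω : ℝ) ≤
        ((A i).card : ℝ) * ((avoid A S).card : ℝ))
    (hsum : ∀ i ∈ I, ∑ j ∈ I ∩ Γ i, ((A j).card : ℝ) / (Fintype.card Ω : ℝ) ≤ 1 / 4)
    (hself : ∀ i ∈ I, ((A i).card : ℝ) / (Fintype.card Ω : ℝ) ≤ 1 / 4) :
    ∃ ω : Ω, ∀ i ∈ I, ω ∉ A i := by
  have key := Lop_key I A Γ hneg hsum
  have hpos : ∀ S : Finset ι, S ⊆ I → 0 < (avoid A S).card := by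
    intro S
    induction S using Finset.induction_on with
    | empty =>
      intro _
      rw [card_pos]
      obtain ⟨ω⟩ := (inferInstance : Nonempty Ω)
      exact ⟨ω, (Lop_mem A _ ω).2 (by simp)⟩
    | insert i S hiS ih =>
      intro hSI
      have hS : S ⊆ I := (subset_insert i S).trans hSI
      have hi : i ∈ I := hSI (mem_insert_self i S)
      have h0 := ih hS
      have h1 := key _ S rfl hS i hi
      have h2 : insert i S ⊆ {i} ∪ S := by
        rw [insert_eq]
      have h3 := Lop_split A h2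
      rw [sum_singleton] at h3
      have h4 : ((avoid A S).card : ℝ) ≤ ((avoid A (insert i S)).card : ℝ)
          + ((A i ∩ avoid A S).card : ℝ) := by exact_mod_cast h3
      have h5 : (0 : ℝ) < ((avoid A S).card : ℝ) := by exact_mod_cast h0
      have h6 := mul_le_mul_of_nonneg_right (hself i hi) h5.le
      have h7 : (0 : ℝ) < ((avoid A (insert i S)).card : ℝ) := by
        linarith
      exact_mod_cast h7
  obtain ⟨ω, hω⟩ := card_pos.1 (hpos I subset_rfl)
  exact ⟨ω, (Lop_mem A I ω).1 hω⟩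

end Pool.MP7783b9
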