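import Pool.Agent.H.MP_7783b9_co.B.Lop

/-!
# Random bijections: canonical events
-/

set_option autoImplicit false

open Finset

namespace Pool.MP7783b9

section

variable {A B : Type*} [Fintype A] [Fintype B] [DecidableEq A] [DecidableEq B]

/-- the bijections that extend the map `τ` on `T` -/
def ext (T : Finset A) (τ : A → B) : Finset (A ≃ B) :=
  Finset.univ.filter fun g => ∀ x ∈ T, g x = τ x

theorem Perm_mem_ext {T : Finset A} {τ : A → B} {g : A ≃ B} :
    g ∈ ext T τ ↔ ∀ x ∈ T, g x = τ x := by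
  simp [ext]

theorem Perm_mem_avoid {ι : Type*} {E : ι → Finset (A ≃ B)} {S : Finset ι} {g : A ≃ B} :
    g ∈ avoid E S ↔ ∀ j ∈ S, g ∉ E j := by
  simp [avoid]

omit [Fintype A] [Fintype B] [DecidableEq A] in
/-- a permutation of `B` which takes `τ` to `τ'` on `T` and moves no other points -/
theorem Perm_exists {T : Finset A} {τ τ' : A → B} (hτ : Set.InjOn τ T) (hτ' : Set.InjOn τ' T) :
    ∃ ρ : Equiv.Perm B, (∀ x ∈ T, ρ (τ x) = τ' x) ∧
      ∀ p, (∀ x ∈ T, p ≠ τ x) → (∀ x ∈ T, p ≠ τ' x) → ρ p = p := by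
  classical
  induction T using Finset.induction_on with
  | empty => exact ⟨1, by simp, by simp⟩
  | insert a T ha ih =>
    rw [coe_insert] at hτ hτ'
    obtain ⟨ρ, h1, h2⟩ := ih (hτ.mono (Set.subset_insert _ _)) (hτ'.mono (Set.subset_insert _ _))
    have hne : ∀ x ∈ T, x ≠ a := fun x hx h => ha (h ▸ hx)
    refine ⟨Equiv.swap (ρ (τ a)) (τ' a) * ρ, ?_, ?_⟩
    · intro x hx
      rw [Equiv.Perm.mul_apply]
      rcases mem_insert.1 hx with rfl | hx
      · exact Equiv.swap_apply_left _ _
      · rw [h1 x hx]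
        apply Equiv.swap_apply_of_ne_of_ne
        · rw [← h1 x hx]
          intro h
          exact hne x hx (hτ (Set.mem_insert_of_mem _ hx) (Set.mem_insert _ _) (ρ.injective h))
        · intro h
          exact hne x hx (hτ' (Set.mem_insert_of_mem _ hx) (Set.mem_insert _ _) h)
    · intro p hp hp'
      rw [Equiv.Perm.mul_apply, h2 p (fun x hx => hp x (mem_insert_of_mem hx))
        (fun x hx => hp' x (mem_insert_of_mem hx))]
      apply Equiv.swap_apply_of_ne_of_ne
      · intro h
        have h3 := h2 p (fun x hx => hp x (mem_insert_of_mem hx))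
          (fun x hx => hp' x (mem_insert_of_mem hx))
        rw [h] at h3
        exact hp a (mem_insert_self _ _) (h.trans (ρ.injective h3))
      · exact hp' a (mem_insert_self _ _)

/-- comparison of two canonical events on the same vertices -/
theorem Perm_key {ι : Type*} (T : Finset A) {τ₀ τ₁ : A → B}
    (h₀ : Set.InjOn τ₀ T) (h₁ : Set.InjOn τ₁ T) (S : Finset ι) (T' : ι → Finset A)
    (τ' : ι → A → B)
    (h : ∀ j ∈ S, Disjoint T (T' j) ∧ Disjoint (T.image τ₀) ((T' j).image (τ' j))) :
    (ext T τ₀ ∩ avoid (fun j => ext (T' j) (τ' j)) S).card ≤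
      (ext T τ₁ ∩ avoid (fun j => ext (T' j) (τ' j)) S).card := by
  obtain ⟨ρ, hρ, hρ'⟩ := Perm_exists h₀ h₁
  refine card_le_card_of_injOn (fun g => g.trans ρ) (fun g hg => ?_) (fun g _ g' _ hgg' => ?_)
  · rw [mem_coe, mem_inter, Perm_mem_ext, Perm_mem_avoid] at hg
    rw [mem_coe, mem_inter, Perm_mem_ext, Perm_mem_avoid]
    obtain ⟨hg1, hg2⟩ := hg
    refine ⟨fun x hx => ?_, fun j hj hgj => hg2 j hj ?_⟩
    · rw [Equiv.trans_apply, hg1 x hx, hρ x hx]
    · obtain ⟨d1, d2⟩ := h j hj
      rw [Perm_mem_ext] at hgj ⊢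
      intro x hx
      have h3 := hgj x hx
      rw [Equiv.trans_apply] at h3
      have h4 : ∀ y ∈ T, τ' j x ≠ τ₀ y := by
        intro y hy h5
        refine (disjoint_left.1 d2) (mem_image_of_mem _ hy) ?_
        rw [← h5]
        exact mem_image_of_mem _ hx
      have h5 : ∀ y ∈ T, τ' j x ≠ τ₁ y := by
        intro y hy h6
        rw [← hρ y hy, ← hg1 y hy, ← h3] at h6
        have h7 : x = y := g.injective (ρ.injective h6)
        exact (disjoint_left.1 d1) hy (h7 ▸ hx)
      have h6 := hρ' _ h4 h5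
      rw [← h6] at h3
      exact ρ.injective h3
  · apply Equiv.ext
    intro x
    have h3 : (g.trans ρ) x = (g'.trans ρ) x := by
      have h4 : g.trans ρ = g'.trans ρ := hgg'
      rw [h4]
    rw [Equiv.trans_apply, Equiv.trans_apply] at h3
    exact ρ.injective h3

/-- extension of an embedding of `T` to a map -/
def Perm_tau (T : Finset A) (τ : A → B) (e : T ↪ B) : A → B :=
  fun x => if h : x ∈ T then e ⟨x, h⟩ else τ x

omit [Fintype A] [Fintype B] [DecidableEq B] in
theorem Perm_tau_inj (T : Finset A) (τ : A → B) (e : T ↪ B) : Set.InjOn (Perm_tau T τ e) T := by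
  intro x hx y hy hxy
  unfold Perm_tau at hxy
  rw [dif_pos (mem_coe.1 hx), dif_pos (mem_coe.1 hy)] at hxy
  exact congrArg Subtype.val (e.injective hxy)

/-- the bijections are partitioned by their restriction to `T` -/
theorem Perm_sum (T : Finset A) (τ : A → B) (X : Finset (A ≃ B)) :
    ∑ e : T ↪ B, (ext T (Perm_tau T τ e) ∩ X).card = X.card := by
  rw [card_eq_sum_card_fiberwise (s := X) (t := (univ : Finset (T ↪ B)))
    (f := fun g => (Function.Embedding.subtype (· ∈ T)).trans g.toEmbedding)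
    (fun _ _ => mem_coe.2 (mem_univ _))]
  refine sum_congr rfl fun e _ => ?_
  congr 1
  ext g
  rw [mem_inter, mem_filter, Perm_mem_ext, and_comm]
  refine and_congr_right fun _ => ?_
  constructor
  · intro h
    apply Function.Embedding.ext
    rintro ⟨x, hx⟩
    have h1 := h x hx
    unfold Perm_tau at h1
    rw [dif_pos hx] at h1
    exact h1
  · intro h x hx
    unfold Perm_tau
    rw [dif_pos hx, ← h]
    rfl

/-- all canonical events on `T` have the same size -/
theorem Perm_card_eq (T : Finset A) {τ₀ τ₁ : A → B}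
    (h₀ : Set.InjOn τ₀ T) (h₁ : Set.InjOn τ₁ T) : (ext T τ₀).card = (ext T τ₁).card := by
  have e : ∀ τ : A → B, ext T τ ∩ avoid (fun _ : Unit => ext T τ) ∅ = ext T τ := by
    intro τ
    ext g
    simp [Perm_mem_avoid]
  have e' : ∀ τ σ : A → B, ext T τ ∩ avoid (fun _ : Unit => ext T σ) ∅ = ext T τ := by
    intro τ σ
    ext g
    simp [Perm_mem_avoid]
  have h2 := Perm_key T h₀ h₁ (∅ : Finset Unit) (fun _ => T) (fun _ => τ₀) (by simp)
  have h3 := Perm_key T h₁ h₀ (∅ : Finset Unit) (fun _ => T) (fun _ => τ₀) (by simp)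
  rw [e', e'] at h2 h3
  exact le_antisymm h2 h3

theorem Perm_card_mul (T : Finset A) (τ : A → B) (hτ : Set.InjOn τ T) :
    Fintype.card (T ↪ B) * (ext T τ).card = Fintype.card (A ≃ B) := by
  have h1 := Perm_sum T τ (univ : Finset (A ≃ B))
  rw [card_univ] at h1
  rw [← h1]
  have h2 : ∀ e : T ↪ B, (ext T (Perm_tau T τ e) ∩ univ).card = (ext T τ).card := by
    intro e
    rw [inter_univ]
    exact Perm_card_eq T (Perm_tau_inj T τ e) hτ
  rw [sum_congr rfl fun e _ => h2 e, sum_const, card_univ, smul_eq_mul]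

/-- probability of a canonical event -/
theorem card_ext (hAB : Fintype.card A = Fintype.card B) (T : Finset A) (τ : A → B)
    (hτ : Set.InjOn τ T) :
    (ext T τ).card * (Fintype.card A).descFactorial T.card = Fintype.card (A ≃ B) := by
  have h1 := Perm_card_mul T τ hτ
  rw [Fintype.card_embedding_eq, Fintype.card_coe] at h1
  rw [hAB, mul_comm]
  exact h1

/-- negative dependency: the event `ext T τ` and the avoidance of events on other vertices and other
images -/
theorem neg_dep {ι : Type*} (hAB : Fintype.card A = Fintype.card B) (T : Finset A) (τ : A → B)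
    (hτ : Set.InjOn τ T) (S : Finset ι) (T' : ι → Finset A) (τ' : ι → A → B)
    (h : ∀ j ∈ S, Disjoint T (T' j) ∧ Disjoint (T.image τ) ((T' j).image (τ' j))) :
    (ext T τ ∩ avoid (fun j => ext (T' j) (τ' j)) S).card * Fintype.card (A ≃ B) ≤
      (ext T τ).card * (avoid (fun j => ext (T' j) (τ' j)) S).card := by
  have h1 : Fintype.card (T ↪ B) * (ext T τ ∩ avoid (fun j => ext (T' j) (τ' j)) S).card ≤
      (avoid (fun j => ext (T' j) (τ' j)) S).card := by
    rw [← Perm_sum T τ (avoid (fun j => ext (T' j) (τ' j)) S)]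
    have h2 : ∑ _e : T ↪ B, (ext T τ ∩ avoid (fun j => ext (T' j) (τ' j)) S).card =
        Fintype.card (T ↪ B) * (ext T τ ∩ avoid (fun j => ext (T' j) (τ' j)) S).card := by
      rw [sum_const, card_univ, smul_eq_mul]
    rw [← h2]
    exact sum_le_sum fun e _ => Perm_key T hτ (Perm_tau_inj T τ e) S T' τ' h
  rw [← Perm_card_mul T τ hτ]
  calc (ext T τ ∩ avoid (fun j => ext (T' j) (τ' j)) S).card *
        (Fintype.card (T ↪ B) * (ext T τ).card)
      = (ext T τ).card *
          (Fintype.card (T ↪ B) *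
            (ext T τ ∩ avoid (fun j => ext (T' j) (τ' j)) S).card) := by ring
    _ ≤ _ := Nat.mul_le_mul_left _ h1

end

end Pool.MP7783b9
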