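import Pool.Agent.H.MP_7783b9_co.B.Basic

/-!
# Ramsey numbers
-/

set_option autoImplicit false

open Finset

namespace Pool.MP7783b9

theorem Ram_seq (κ : Type) [Fintype κ] [DecidableEq κ] [Nonempty κ] (m : ℕ) :
    ∃ R : ℕ, ∀ {α : Type} [DecidableEq α] (s : Finset α) (f : α → α → κ), R ≤ #s →
      ∃ (a : Fin m → α) (g : Fin m → κ), Function.Injective a ∧ (∀ i, a i ∈ s) ∧
        ∀ i j, i < j → f (a i) (a j) = g i := by
  induction m with
  | zero =>
    refine ⟨0, fun s f _ => ⟨Fin.elim0, Fin.elim0, ?_, ?_, ?_⟩⟩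
    · intro i; exact i.elim0
    · intro i; exact i.elim0
    · intro i; exact i.elim0
  | succ m ih =>
    obtain ⟨R, hR⟩ := ih
    refine ⟨Fintype.card κ * R + 1, ?_⟩
    intro α _ s f hs
    have hne : s.Nonempty := by
      rw [← Finset.card_pos]; omega
    obtain ⟨x, hx⟩ := hne
    have hcard : Fintype.card κ * R ≤ #(s.erase x) := by
      rw [Finset.card_erase_of_mem hx]; omega
    obtain ⟨k, -, hk⟩ := Finset.exists_le_card_fiber_of_mul_le_card_of_maps_to
      (s := s.erase x) (t := (Finset.univ : Finset κ)) (f := fun y => f x y) (n := R)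
      (fun _ _ => Finset.mem_univ _) Finset.univ_nonempty (by rw [Finset.card_univ]; exact hcard)
    obtain ⟨a, g, hinj, hmem, hfg⟩ := hR _ f hk
    have hmem' : ∀ i, a i ≠ x ∧ a i ∈ s ∧ f x (a i) = k := by
      intro i
      have := hmem i
      rw [Finset.mem_filter, Finset.mem_erase] at this
      exact ⟨this.1.1, this.1.2, this.2⟩
    refine ⟨Fin.cons x a, Fin.cons k g, ?_, ?_, ?_⟩
    · rw [Fin.cons_injective_iff]
      refine ⟨?_, hinj⟩
      rintro ⟨i, hi⟩
      exact (hmem' i).1 hi
    · intro i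
      refine Fin.cases ?_ ?_ i
      · exact hx
      · intro j
        rw [Fin.cons_succ]
        exact (hmem' j).2.1
    · intro i j
      refine Fin.cases ?_ ?_ i
      · refine Fin.cases ?_ ?_ j
        · intro h; exact absurd h (lt_irrefl _)
        · intro j' _
          rw [Fin.cons_zero, Fin.cons_succ, Fin.cons_zero]
          exact (hmem' j').2.2
      · intro i'
        refine Fin.cases ?_ ?_ j
        · intro h; exact absurd h (by simp)
        · intro j' h
          rw [Fin.cons_succ, Fin.cons_succ, Fin.cons_succ]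
          exact hfg i' j' (by simpa using h)

theorem Ram_pairs (κ : Type) [Fintype κ] [DecidableEq κ] [Nonempty κ] (k : ℕ) :
    ∃ R : ℕ, ∀ {α : Type} [DecidableEq α] (s : Finset α) (f : α → α → κ),
      (∀ x y, f x y = f y x) → R ≤ #s →
      ∃ (a : Fin k → α) (c : κ), Function.Injective a ∧ (∀ i, a i ∈ s) ∧
        ∀ i j, i ≠ j → f (a i) (a j) = c := by
  obtain ⟨R, hR⟩ := Ram_seq κ (Fintype.card κ * k)
  refine ⟨R, ?_⟩
  intro α _ s f hsymm hs
  obtain ⟨a, g, hinj, hmem, hfg⟩ := hR s f hs
  obtain ⟨c, -, hc⟩ := Finset.exists_le_card_fiber_of_mul_le_card_of_maps_to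
    (s := (Finset.univ : Finset (Fin (Fintype.card κ * k)))) (t := (Finset.univ : Finset κ))
    (f := g) (n := k)
    (fun _ _ => Finset.mem_univ _) Finset.univ_nonempty (by simp)
  obtain ⟨T, hT, hTcard⟩ := Finset.exists_subset_card_eq hc
  let e : Fin k ≃ T := (T.equivFinOfCardEq hTcard).symm
  have hg : ∀ i, g (e i : Fin (Fintype.card κ * k)) = c := by
    intro i
    have := hT (e i).2
    exact (Finset.mem_filter.1 this).2
  refine ⟨fun i => a (e i), c, ?_, ?_, ?_⟩
  · intro i j hij
    exact e.injective (Subtype.ext (hinj hij))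
  · intro i; exact hmem _
  · intro i j hij
    have hne : (e i : Fin (Fintype.card κ * k)) ≠ e j := by
      intro h; exact hij (e.injective (Subtype.ext h))
    rcases lt_or_gt_of_ne hne with h | h
    · rw [hfg _ _ h, hg]
    · rw [hsymm, hfg _ _ h, hg]

/-- Ramsey's theorem for pairs and finitely many colours -/
theorem ram2 (κ : Type) [Fintype κ] [DecidableEq κ] [Nonempty κ] (k : ℕ) :
    ∃ r : ℕ, ∀ {α : Type} [DecidableEq α] (X : Finset α) (f : α → α → κ),
      (∀ x y, f x y = f y x) → r ≤ X.card →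
      ∃ Y ⊆ X, Y.card = k ∧ ∃ c, ∀ x ∈ Y, ∀ y ∈ Y, x ≠ y → f x y = c := by
  obtain ⟨r, hr⟩ := Ram_pairs κ k
  refine ⟨r, fun {α} _ X f hf hX => ?_⟩
  obtain ⟨a, c, hinj, hmem, hfa⟩ := hr X f hf hX
  refine ⟨univ.image a, ?_, ?_, c, ?_⟩
  · intro x hx
    obtain ⟨i, -, rfl⟩ := mem_image.1 hx
    exact hmem i
  · rw [card_image_of_injective _ hinj, card_univ, Fintype.card_fin]
  · intro x hx y hy hxy
    obtain ⟨i, -, rfl⟩ := mem_image.1 hx
    obtain ⟨j, -, rfl⟩ := mem_image.1 hy
    exact hfa i j fun h => hxy (by rw [h])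

/-- in a large set there is a long sequence where the colour of a triple is determined by its
first element -/
theorem Ram_tri (m : ℕ) :
    ∃ N : ℕ, ∀ {α : Type} [DecidableEq α] (R : Finset α → Prop) (X : Finset α),
      N ≤ X.card → ∃ (a : Fin m → α) (g : Fin m → Bool), Function.Injective a ∧ (∀ i, a i ∈ X) ∧
        ∀ i j l, i < j → j < l → (R {a i, a j, a l} ↔ g i = true) := by
  induction m with
  | zero =>
    refine ⟨0, fun s f _ => ⟨Fin.elim0, Fin.elim0, ?_, ?_, ?_⟩⟩
    · intro i; exact i.elim0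
    · intro i; exact i.elim0
    · intro i; exact i.elim0
  | succ m ih =>
    obtain ⟨N, hN⟩ := ih
    obtain ⟨r, hr⟩ := ram2 Bool N
    refine ⟨r + 1, ?_⟩
    intro α _ R X hX
    classical
    have hne : X.Nonempty := by
      rw [← Finset.card_pos]; omega
    obtain ⟨x, hx⟩ := hne
    have hcard : r ≤ (X.erase x).card := by
      rw [Finset.card_erase_of_mem hx]; omega
    obtain ⟨Y, hY, hYc, c, hc⟩ := hr (X.erase x) (fun y z => decide (R {x, y, z}))
      (fun y z => by rw [Finset.pair_comm y z]) hcard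
    obtain ⟨a, g, hinj, hmem, hfg⟩ := hN R Y hYc.ge
    have hmem' : ∀ i, a i ≠ x ∧ a i ∈ X := by
      intro i
      have := hY (hmem i)
      rwa [Finset.mem_erase] at this
    refine ⟨Fin.cons x a, Fin.cons c g, ?_, ?_, ?_⟩
    · rw [Fin.cons_injective_iff]
      refine ⟨?_, hinj⟩
      rintro ⟨i, hi⟩
      exact (hmem' i).1 hi
    · intro i
      refine Fin.cases ?_ ?_ i
      · exact hx
      · intro j
        rw [Fin.cons_succ]
        exact (hmem' j).2
    · intro i j l hij hjl
      obtain ⟨j', rfl⟩ := Fin.exists_succ_eq.2 (Fin.ne_zero_of_lt hij)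
      obtain ⟨l', rfl⟩ := Fin.exists_succ_eq.2 (Fin.ne_zero_of_lt hjl)
      have hjl' : j' < l' := by simpa using hjl
      revert hij
      refine Fin.cases ?_ ?_ i
      · intro _
        rw [Fin.cons_zero, Fin.cons_succ, Fin.cons_succ, Fin.cons_zero]
        have h1 := hc (a j') (hmem j') (a l') (hmem l') fun h => hjl'.ne (hinj h)
        rw [← h1, decide_eq_true_iff]
      · intro i' hij
        rw [Fin.cons_succ, Fin.cons_succ, Fin.cons_succ, Fin.cons_succ]
        exact hfg i' j' l' (by simpa using hij) hjl'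

theorem Ram_fano : ∀ f ∈ fano, f.card = 3 := by
  intro f hf
  simp only [fano, mem_insert, mem_singleton] at hf
  rcases hf with rfl | rfl | rfl | rfl | rfl | rfl | rfl <;> rfl

/-- a large set contains a blue Fano plane or a large red clique -/
theorem ram3 (k : ℕ) :
    ∃ s : ℕ, ∀ {α : Type} [DecidableEq α] (R : Finset α → Prop) (X : Finset α),
      s ≤ X.card → BlueFano R X ∨ ∃ K ⊆ X, K.card = k ∧ RedClique R K := by
  obtain ⟨N, hN⟩ := Ram_tri (2 * max k 7)
  refine ⟨N, fun {α} _ R X hX => ?_⟩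
  obtain ⟨a, g, hinj, hmem, hfg⟩ := hN R X hX
  obtain ⟨c, -, hc⟩ := Finset.exists_le_card_fiber_of_mul_le_card_of_maps_to
    (s := (Finset.univ : Finset (Fin (2 * max k 7)))) (t := (Finset.univ : Finset Bool))
    (f := g) (n := max k 7)
    (fun _ _ => Finset.mem_univ _) Finset.univ_nonempty (by simp)
  have hg : ∀ i ∈ univ.filter (fun i => g i = c), g i = c := fun i hi => (mem_filter.1 hi).2
  generalize univ.filter (fun i => g i = c) = T at hc hg
  have key : ∀ f ⊆ T.image a, f.card = 3 → (R f ↔ c = true) := by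
    intro f hf h3
    obtain ⟨T', hT', rfl⟩ := subset_image_iff.1 hf
    rw [card_image_of_injective _ hinj] at h3
    have h4 := Finset.image_orderEmbOfFin_univ T' h3
    have h5 : T' = {T'.orderEmbOfFin h3 0, T'.orderEmbOfFin h3 1, T'.orderEmbOfFin h3 2} := by
      conv_lhs => rw [← h4]
      ext z
      simp only [mem_image, mem_univ, true_and, mem_insert, mem_singleton, Fin.exists_fin_succ]
      simp [eq_comm]
    have h6 : T'.image a = {a (T'.orderEmbOfFin h3 0), a (T'.orderEmbOfFin h3 1),
        a (T'.orderEmbOfFin h3 2)} := by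
      conv_lhs => rw [h5]
      rw [image_insert, image_insert, image_singleton]
    rw [h6, hfg _ _ _ ((T'.orderEmbOfFin h3).strictMono (by decide))
      ((T'.orderEmbOfFin h3).strictMono (by decide)),
      hg _ (hT' (T'.orderEmbOfFin_mem h3 0))]
  have hsub : T.image a ⊆ X := fun x hx => by
    obtain ⟨i, -, rfl⟩ := mem_image.1 hx
    exact hmem i
  have hTc : max k 7 ≤ (T.image a).card := by rwa [card_image_of_injective _ hinj]
  cases c with
  | true =>
    right
    obtain ⟨K, hK, hKc⟩ := exists_subset_card_eq ((le_max_left k 7).trans hTc)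
    exact ⟨K, hK.trans hsub, hKc, fun f hf h3 => (key f (hf.trans hK) h3).2 rfl⟩
  | false =>
    left
    obtain ⟨K, hK, hKc⟩ := exists_subset_card_eq ((le_max_right k 7).trans hTc)
    let e : Fin 7 ≃ K := (K.equivFinOfCardEq hKc).symm
    have hψ : Function.Injective fun i => (e i : α) := fun i j h => e.injective (Subtype.ext h)
    refine ⟨fun i => e i, hψ, fun i => hsub (hK (e i).2), fun f hf hR => ?_⟩
    have h1 := (key (f.image fun i => (e i : α)) (fun x hx => by
      obtain ⟨i, -, rfl⟩ := mem_image.1 hx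
      exact hK (e i).2) (by rw [card_image_of_injective _ hψ, Ram_fano f hf])).1 hR
    exact absurd h1 (by decide)

end Pool.MP7783b9
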