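import Pool.Agent.H.MP_7783b9_co.B.Basic

/-!
# A Fano plane from its lines; the pigeonhole lemma for pairs of large sets
-/

set_option autoImplicit false

open Finset

namespace Pool.MP7783b9

/-- seven blue lines -/
theorem fano_pairs {α : Type*} [DecidableEq α] (R : Finset α → Prop) (U : Finset α)
    {a u v q q' r r' : α} (ha : a ∈ U) (hu : u ∈ U) (hv : v ∈ U) (hq : q ∈ U) (hq' : q' ∈ U)
    (hr : r ∈ U) (hr' : r' ∈ U) (h1 : Blue3 R a u v) (h2 : Blue3 R a q q') (h3 : Blue3 R a r r')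
    (h4 : Blue3 R u q r) (h5 : Blue3 R u q' r') (h6 : Blue3 R v q r') (h7 : Blue3 R v q' r) :
    BlueFano R U := by
  refine ⟨![a, u, r, v, q, q', r'], ?_, ?_, ?_⟩
  · have hinj : [a, u, r, v, q, q', r'].Nodup := by
      simp only [List.nodup_cons, List.mem_cons, List.not_mem_nil, or_false, not_or,
        List.nodup_nil, and_true, not_false_eq_true]
      exact ⟨⟨h1.1, h3.1, h1.2.1, h2.1, h2.2.1, h3.2.1⟩,
        ⟨h4.2.1, h1.2.2.1, h4.1, h5.1, h5.2.1⟩,
        ⟨h7.2.1.symm, h4.2.2.1.symm, h7.2.2.1.symm, h3.2.2.1⟩,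
        ⟨h6.1, h7.1, h6.2.1⟩, ⟨h2.2.2.1, h6.2.2.1⟩, h5.2.2.1⟩
    have := List.nodup_iff_injective_get.mp hinj
    intro i j hij
    apply this
    fin_cases i <;> fin_cases j <;> exact hij
  · intro i
    fin_cases i
    · exact ha
    · exact hu
    · exact hr
    · exact hv
    · exact hq
    · exact hq'
    · exact hr'
  · intro f hf
    simp only [fano, Finset.mem_insert, Finset.mem_singleton] at hf
    rcases hf with rfl | rfl | rfl | rfl | rfl | rfl | rfl
    · have : Finset.image ![a, u, r, v, q, q', r'] ({0, 1, 3} : Finset (Fin 7)) = {a, u, v} := by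
        simp [Finset.image_insert]
      rw [this]
      exact h1.2.2.2
    · have : Finset.image ![a, u, r, v, q, q', r'] ({1, 2, 4} : Finset (Fin 7)) = {u, r, q} := by
        simp [Finset.image_insert]
      rw [this]
      exact h4.swap.2.2.2
    · have : Finset.image ![a, u, r, v, q, q', r'] ({2, 3, 5} : Finset (Fin 7)) = {r, v, q'} := by
        simp [Finset.image_insert]
      rw [this]
      exact h7.rot.rot.2.2.2
    · have : Finset.image ![a, u, r, v, q, q', r'] ({3, 4, 6} : Finset (Fin 7)) = {v, q, r'} := by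
        simp [Finset.image_insert]
      rw [this]
      exact h6.2.2.2
    · have : Finset.image ![a, u, r, v, q, q', r'] ({4, 5, 0} : Finset (Fin 7)) = {q, q', a} := by
        simp [Finset.image_insert]
      rw [this]
      exact h2.rot.2.2.2
    · have : Finset.image ![a, u, r, v, q, q', r'] ({5, 6, 1} : Finset (Fin 7)) = {q', r', u} := by
        simp [Finset.image_insert]
      rw [this]
      exact h5.rot.2.2.2
    · have : Finset.image ![a, u, r, v, q, q', r'] ({6, 0, 2} : Finset (Fin 7)) = {r', a, r} := by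
        simp [Finset.image_insert]
      rw [this]
      exact h3.rot.rot.2.2.2

/-- among finitely many subsets of `U` whose sizes are large on average, two have a large
intersection -/
theorem pigeon {ι β : Type*} [DecidableEq ι] [DecidableEq β] (M : Finset ι) (U : Finset β)
    (X : ι → Finset β) (hX : ∀ i ∈ M, X i ⊆ U) (hM : M.Nonempty) (hU : U.Nonempty)
    (h : ∀ i ∈ M, 2 * (U.card : ℝ) ≤ (M.card : ℝ) * ((X i).card : ℝ)) :
    ∃ i ∈ M, ∃ j ∈ M, i ≠ j ∧
      2 * (U.card : ℝ) ≤ (M.card : ℝ) ^ 2 * (((X i) ∩ (X j)).card : ℝ) := by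
  by_contra hcon
  push Not at hcon
  have hm0 : (0 : ℝ) < (M.card : ℝ) := by exact_mod_cast hM.card_pos
  have hN0 : (0 : ℝ) < (U.card : ℝ) := by exact_mod_cast hU.card_pos
  have hc2 : ∀ i ∈ M, ∀ j ∈ M, (((X i) ∩ (X j)).card : ℝ) =
      ∑ x ∈ U, (if x ∈ X i then (1 : ℝ) else 0) * (if x ∈ X j then (1 : ℝ) else 0) := by
    intro i hi j hj
    have : ∀ x ∈ U, (if x ∈ X i then (1 : ℝ) else 0) * (if x ∈ X j then (1 : ℝ) else 0) =
        if x ∈ X i ∩ X j then (1 : ℝ) else 0 := by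
      intro x _
      by_cases h1 : x ∈ X i <;> by_cases h2 : x ∈ X j <;> simp [h1, h2]
    rw [Finset.sum_congr rfl this, Finset.sum_boole]
    congr 2
    ext x
    simp only [Finset.mem_inter, Finset.mem_filter]
    exact ⟨fun hx => ⟨hX i hi hx.1, hx⟩, fun hx => hx.2⟩
  have hc1 : ∀ i ∈ M, ((X i).card : ℝ) = ∑ x ∈ U, (if x ∈ X i then (1 : ℝ) else 0) := by
    intro i hi
    rw [Finset.sum_boole]
    congr 2
    ext x
    simp only [Finset.mem_filter]
    exact ⟨fun hx => ⟨hX i hi hx, hx⟩, fun hx => hx.2⟩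
  have hd : ∀ x : β, (0 : ℝ) ≤ ((∑ i ∈ M, (if x ∈ X i then (1 : ℝ) else 0)) - 1) *
      ((∑ i ∈ M, (if x ∈ X i then (1 : ℝ) else 0)) - 2) := by
    intro x
    rw [Finset.sum_boole]
    generalize (Finset.filter (fun i => x ∈ X i) M).card = n
    rcases Nat.lt_or_ge n 2 with hn | hn
    · have h1 : (n : ℝ) ≤ 1 := by exact_mod_cast Nat.lt_succ_iff.mp hn
      nlinarith
    · have h1 : (2 : ℝ) ≤ n := by exact_mod_cast hn
      nlinarith
  have hs1 : 2 * (U.card : ℝ) ≤ ∑ x ∈ U, ∑ i ∈ M, (if x ∈ X i then (1 : ℝ) else 0) := by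
    rw [Finset.sum_comm]
    have h2 : ∑ i ∈ M, (2 * (U.card : ℝ)) ≤ ∑ i ∈ M, (M.card : ℝ) * ((X i).card : ℝ) :=
      Finset.sum_le_sum h
    rw [Finset.sum_const, nsmul_eq_mul, ← Finset.mul_sum] at h2
    have h3 := le_of_mul_le_mul_left h2 hm0
    rw [Finset.sum_congr rfl hc1] at h3
    exact h3
  have hs2 : ∑ i ∈ M, ∑ j ∈ M.erase i, ((X i ∩ X j).card : ℝ) =
      ∑ x ∈ U, ((∑ i ∈ M, (if x ∈ X i then (1 : ℝ) else 0)) ^ 2 -
        ∑ i ∈ M, (if x ∈ X i then (1 : ℝ) else 0)) := by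
    have h4 : ∀ i ∈ M, ∑ j ∈ M.erase i, ((X i ∩ X j).card : ℝ) =
        (∑ j ∈ M, ((X i ∩ X j).card : ℝ)) - ((X i).card : ℝ) := by
      intro i hi
      have := Finset.add_sum_erase M (fun j => ((X i ∩ X j).card : ℝ)) hi
      simp only [Finset.inter_self] at this
      linarith
    rw [Finset.sum_congr rfl h4, Finset.sum_sub_distrib, Finset.sum_sub_distrib]
    congr 1
    · have h5 : ∀ i ∈ M, ∑ j ∈ M, ((X i ∩ X j).card : ℝ) = ∑ j ∈ M, ∑ x ∈ U,
          (if x ∈ X i then (1 : ℝ) else 0) * (if x ∈ X j then (1 : ℝ) else 0) := by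
        intro i hi
        exact Finset.sum_congr rfl (hc2 i hi)
      rw [Finset.sum_congr rfl h5]
      have h6 : ∀ i ∈ M, ∑ j ∈ M, ∑ x ∈ U,
          (if x ∈ X i then (1 : ℝ) else 0) * (if x ∈ X j then (1 : ℝ) else 0) =
          ∑ x ∈ U, ∑ j ∈ M,
          (if x ∈ X i then (1 : ℝ) else 0) * (if x ∈ X j then (1 : ℝ) else 0) := by
        intro i _
        exact Finset.sum_comm
      rw [Finset.sum_congr rfl h6, Finset.sum_comm]
      refine Finset.sum_congr rfl fun x _ => ?_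
      rw [sq, Finset.sum_mul_sum]
    · rw [Finset.sum_congr rfl hc1, Finset.sum_comm]
  have hs3 : 2 * (U.card : ℝ) ≤ ∑ i ∈ M, ∑ j ∈ M.erase i, ((X i ∩ X j).card : ℝ) := by
    rw [hs2]
    have h7 : ∑ x ∈ U, (2 * (∑ i ∈ M, (if x ∈ X i then (1 : ℝ) else 0)) - 2) ≤
        ∑ x ∈ U, ((∑ i ∈ M, (if x ∈ X i then (1 : ℝ) else 0)) ^ 2 -
        ∑ i ∈ M, (if x ∈ X i then (1 : ℝ) else 0)) := by
      refine Finset.sum_le_sum fun x _ => ?_
      have := hd x
      nlinarith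
    rw [Finset.sum_sub_distrib, ← Finset.mul_sum, Finset.sum_const, nsmul_eq_mul] at h7
    linarith
  have hs4 : (M.card : ℝ) ^ 2 * ∑ i ∈ M, ∑ j ∈ M.erase i, ((X i ∩ X j).card : ℝ) ≤
      ∑ i ∈ M, ∑ j ∈ M.erase i, (2 * (U.card : ℝ)) := by
    rw [Finset.mul_sum]
    refine Finset.sum_le_sum fun i hi => ?_
    rw [Finset.mul_sum]
    refine Finset.sum_le_sum fun j hj => ?_
    rw [Finset.mem_erase] at hj
    exact (hcon i hi j hj.2 hj.1.symm).le
  have hs5 : ∑ i ∈ M, ∑ j ∈ M.erase i, (2 * (U.card : ℝ)) =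
      (M.card : ℝ) * (((M.card : ℝ) - 1) * (2 * (U.card : ℝ))) := by
    have h8 : ∀ i ∈ M, ∑ j ∈ M.erase i, (2 * (U.card : ℝ)) =
        ((M.card : ℝ) - 1) * (2 * (U.card : ℝ)) := by
      intro i hi
      rw [Finset.sum_const, nsmul_eq_mul, Finset.card_erase_of_mem hi,
        Nat.cast_sub (Finset.card_pos.mpr ⟨i, hi⟩), Nat.cast_one]
    rw [Finset.sum_congr rfl h8, Finset.sum_const, nsmul_eq_mul]
  rw [hs5] at hs4
  have h9 : (M.card : ℝ) ^ 2 * (2 * (U.card : ℝ)) ≤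
      (M.card : ℝ) ^ 2 * ∑ i ∈ M, ∑ j ∈ M.erase i, ((X i ∩ X j).card : ℝ) :=
    mul_le_mul_of_nonneg_left hs3 (by positivity)
  have h10 : 0 < (M.card : ℝ) * (U.card : ℝ) := mul_pos hm0 hN0
  nlinarith

end Pool.MP7783b9
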