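import Pool.Agent.H.MP_7783b9_co.B.Ram
import Pool.Agent.H.MP_7783b9_co.B.Rules

/-!
# The unusable vertices form a red clique which is red to `a`
-/

set_option autoImplicit false

open Finset

namespace Pool.MP7783b9

private theorem Unusable_kill {α : Type} [DecidableEq α] {R : Finset α → Prop} {W : Finset α}
    {ε η : ℝ} {t : ℕ} {u : α} {X Y Φ Φ' : Finset α} (hX : Nice R W ε η X) (hYX : Y ⊆ X)
    (hXΦ : Disjoint X Φ) (hsub : Φ' ⊆ Φ) (hu : u ∈ Φ) (ht : t ≤ Y.card)
    (hbad : ∀ Z, Nice R W ε η Z → Z.card = t → Disjoint Z Φ' → ¬ RedTo R u Z)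
    (hred : ∀ p ∈ Y, ∀ q ∈ Y, p ≠ q → R {u, p, q}) : False := by
  obtain ⟨Z, hZY, hZ⟩ := Finset.exists_subset_card_eq ht
  have hZX : Z ⊆ X := hZY.trans hYX
  have hdis : Disjoint Z Φ := Finset.disjoint_of_subset_left hZX hXΦ
  refine hbad Z (hX.subset hZX) hZ (Finset.disjoint_of_subset_right hsub hdis) ⟨?_, ?_⟩
  · intro h
    exact (Finset.disjoint_left.mp hdis h) hu
  · intro p hp q hq hpq
    exact hred p (hZY hp) q (hZY hq) hpq

theorem unusable_red (s t : ℕ) :
    ∃ r : ℕ, ∀ {α : Type} [DecidableEq α] (R : Finset α → Prop) (W : Finset α) (a : α)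
      (_ : a ∉ W) (_ : ¬ BlueFano R (insert a W)) (ε η φ : ℝ) (_ : 0 ≤ φ)
      (_ : ∀ Φ : Finset α, (Φ.card : ℝ) ≤ 3 * φ * (W.card : ℝ) + 3 →
        ∃ X, Nice R W ε η X ∧ X.card = r ∧ Disjoint X Φ ∧
          ∀ A ⊆ X, A.card = s → HasPair R a A)
      (U : Finset α), U ⊆ W → (∀ v ∈ U, ¬ Usable R W ε η φ t v) →
        RedClique R U ∧ RedTo R a U := by
  classical
  obtain ⟨r1, hr1⟩ := ram2 (Bool × Bool) (max t (2 * s))
  obtain ⟨r2, hr2⟩ := ram2 (Bool × Bool × Bool) (max t 4)
  refine ⟨max r1 r2, ?_⟩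
  intro α _ R W a haW hF ε η φ hφ hX U hUW hU
  have hW0 : (0 : ℝ) ≤ φ * (W.card : ℝ) := mul_nonneg hφ (Nat.cast_nonneg _)
  -- the bad sets
  have hbad : ∀ v ∈ U, ∃ Φ : Finset α, (Φ.card : ℝ) ≤ φ * (W.card : ℝ) ∧
      ∀ Z, Nice R W ε η Z → Z.card = t → Disjoint Z Φ → ¬ RedTo R v Z := by
    intro v hv
    have h := hU v hv
    unfold Usable at h
    push Not at h
    obtain ⟨Φ, h1, h2⟩ := h
    exact ⟨Φ, h1, fun Z a b c => h2 Z a b c⟩
  have hmem : ∀ v ∈ U, a ≠ v := by
    rintro v hv rfl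
    exact haW (hUW hv)
  refine ⟨?_, ⟨fun h => haW (hUW h), ?_⟩⟩
  · -- triples
    intro f hf hcard
    obtain ⟨u, v, w, huv, huw, hvw, rfl⟩ := Finset.card_eq_three.mp hcard
    have hu : u ∈ U := hf (by simp)
    have hv : v ∈ U := hf (by simp)
    have hw : w ∈ U := hf (by simp)
    by_contra hR
    obtain ⟨Φu, hu1, hu2⟩ := hbad u hu
    obtain ⟨Φv, hv1, hv2⟩ := hbad v hv
    obtain ⟨Φw, hw1, hw2⟩ := hbad w hw
    have hc : ((((Φu ∪ Φv) ∪ Φw) ∪ {u, v, w} : Finset α).card : ℝ) ≤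
        3 * φ * (W.card : ℝ) + 3 := by
      have e1 : (((Φu ∪ Φv) ∪ Φw) ∪ {u, v, w} : Finset α).card ≤
          Φu.card + Φv.card + Φw.card + 3 := by
        calc (((Φu ∪ Φv) ∪ Φw) ∪ {u, v, w} : Finset α).card
            ≤ ((Φu ∪ Φv) ∪ Φw).card + ({u, v, w} : Finset α).card := Finset.card_union_le _ _
          _ ≤ ((Φu ∪ Φv).card + Φw.card) + 3 := by
              gcongr
              · exact Finset.card_union_le _ _
              · exact Finset.card_le_three
          _ ≤ ((Φu.card + Φv.card) + Φw.card) + 3 := by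
              gcongr
              exact Finset.card_union_le _ _
      have e2 : ((((Φu ∪ Φv) ∪ Φw) ∪ {u, v, w} : Finset α).card : ℝ) ≤
          (Φu.card : ℝ) + Φv.card + Φw.card + 3 := by exact_mod_cast e1
      linarith
    obtain ⟨X, hXn, hXc, hXd, -⟩ := hX _ hc
    obtain ⟨Y, hYX, hYc, c, hYcol⟩ := hr2 X
      (fun p q => (decide (R {u, p, q}), decide (R {v, p, q}), decide (R {w, p, q})))
      (by intro x y; simp only [Finset.pair_comm x y]) (by rw [hXc]; exact le_max_right _ _)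
    have htY : t ≤ Y.card := by rw [hYc]; exact le_max_left _ _
    have h4Y : 4 ≤ Y.card := by rw [hYc]; exact le_max_right _ _
    obtain ⟨c1, c2, c3⟩ := c
    have hcol : ∀ p ∈ Y, ∀ q ∈ Y, p ≠ q → decide (R {u, p, q}) = c1 ∧
        decide (R {v, p, q}) = c2 ∧ decide (R {w, p, q}) = c3 := by
      intro p hp q hq hpq
      have := hYcol p hp q hq hpq
      simp only [Prod.mk.injEq] at this
      exact this
    have hc1 : c1 = false := by
      by_contra h
      have h' : c1 = true := by simpa using h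
      refine Unusable_kill hXn hYX hXd (Φ' := Φu) ?_ (u := u) (by simp) htY hu2 ?_
      · intro z hz; simp [hz]
      · intro p hp q hq hpq
        have := (hcol p hp q hq hpq).1
        rw [h'] at this
        exact of_decide_eq_true this
    have hc2 : c2 = false := by
      by_contra h
      have h' : c2 = true := by simpa using h
      refine Unusable_kill hXn hYX hXd (Φ' := Φv) ?_ (u := v) (by simp) htY hv2 ?_
      · intro z hz; simp [hz]
      · intro p hp q hq hpq
        have := (hcol p hp q hq hpq).2.1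
        rw [h'] at this
        exact of_decide_eq_true this
    have hc3 : c3 = false := by
      by_contra h
      have h' : c3 = true := by simpa using h
      refine Unusable_kill hXn hYX hXd (Φ' := Φw) ?_ (u := w) (by simp) htY hw2 ?_
      · intro z hz; simp [hz]
      · intro p hp q hq hpq
        have := (hcol p hp q hq hpq).2.2
        rw [h'] at this
        exact of_decide_eq_true this
    have hYd : Disjoint Y (((Φu ∪ Φv) ∪ Φw) ∪ {u, v, w}) :=
      Finset.disjoint_of_subset_left hYX hXd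
    have hne : ∀ z ∈ Y, u ≠ z ∧ v ≠ z ∧ w ≠ z := by
      intro z hz
      have h := Finset.disjoint_left.mp hYd hz
      refine ⟨?_, ?_, ?_⟩ <;> rintro rfl <;> exact h (by simp)
    have hbu : ∀ p ∈ Y, ∀ q ∈ Y, p ≠ q → Blue3 R u p q := by
      intro p hp q hq hpq
      refine ⟨(hne p hp).1, (hne q hq).1, hpq, ?_⟩
      have := (hcol p hp q hq hpq).1
      rw [hc1] at this
      exact of_decide_eq_false this
    have hbv : ∀ p ∈ Y, ∀ q ∈ Y, p ≠ q → Blue3 R v p q := by
      intro p hp q hq hpq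
      refine ⟨(hne p hp).2.1, (hne q hq).2.1, hpq, ?_⟩
      have := (hcol p hp q hq hpq).2.1
      rw [hc2] at this
      exact of_decide_eq_false this
    have hbw : ∀ p ∈ Y, ∀ q ∈ Y, p ≠ q → Blue3 R w p q := by
      intro p hp q hq hpq
      refine ⟨(hne p hp).2.2, (hne q hq).2.2, hpq, ?_⟩
      have := (hcol p hp q hq hpq).2.2
      rw [hc3] at this
      exact of_decide_eq_false this
    obtain ⟨Z, hZY, hZ4⟩ := Finset.exists_subset_card_eq h4Y
    obtain ⟨p, q, r, w', hpq, hpr, hpw, hqr, hqw, hrw, rfl⟩ := Finset.card_eq_four.mp hZ4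
    have hp : p ∈ Y := hZY (by simp)
    have hq : q ∈ Y := hZY (by simp)
    have hr : r ∈ Y := hZY (by simp)
    have hw' : w' ∈ Y := hZY (by simp)
    have hYW : ∀ z ∈ Y, z ∈ insert a W := fun z hz =>
      Finset.mem_insert_of_mem (hXn.sub (hYX hz))
    have hUW' : ∀ z ∈ U, z ∈ insert a W := fun z hz => Finset.mem_insert_of_mem (hUW hz)
    exact hF (fano_pairs R (insert a W) (hUW' u hu) (hUW' v hv) (hUW' w hw) (hYW p hp)
      (hYW q hq) (hYW r hr) (hYW w' hw') ⟨huv, huw, hvw, hR⟩ (hbu p hp q hq hpq)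
      (hbu r hr w' hw' hrw) (hbv p hp r hr hpr) (hbv q hq w' hw' hqw) (hbw p hp w' hw' hpw)
      (hbw q hq r hr hqr))
  · -- pairs
    intro u hu v hv huv
    by_contra hR
    obtain ⟨Φu, hu1, hu2⟩ := hbad u hu
    obtain ⟨Φv, hv1, hv2⟩ := hbad v hv
    have hc : (((Φu ∪ Φv) ∪ {u, v} : Finset α).card : ℝ) ≤ 3 * φ * (W.card : ℝ) + 3 := by
      have e1 : ((Φu ∪ Φv) ∪ {u, v} : Finset α).card ≤ Φu.card + Φv.card + 2 := by
        calc ((Φu ∪ Φv) ∪ {u, v} : Finset α).card
            ≤ (Φu ∪ Φv).card + ({u, v} : Finset α).card := Finset.card_union_le _ _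
          _ ≤ (Φu.card + Φv.card) + 2 := by
              gcongr
              · exact Finset.card_union_le _ _
              · exact Finset.card_le_two
      have e2 : (((Φu ∪ Φv) ∪ {u, v} : Finset α).card : ℝ) ≤
          (Φu.card : ℝ) + Φv.card + 2 := by exact_mod_cast e1
      linarith
    obtain ⟨X, hXn, hXc, hXd, hXs⟩ := hX _ hc
    obtain ⟨Y, hYX, hYc, c, hYcol⟩ := hr1 X
      (fun p q => (decide (R {u, p, q}), decide (R {v, p, q})))
      (by intro x y; simp only [Finset.pair_comm x y]) (by rw [hXc]; exact le_max_left _ _)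
    have htY : t ≤ Y.card := by rw [hYc]; exact le_max_left _ _
    have hsY : 2 * s ≤ Y.card := by rw [hYc]; exact le_max_right _ _
    obtain ⟨c1, c2⟩ := c
    have hcol : ∀ p ∈ Y, ∀ q ∈ Y, p ≠ q → decide (R {u, p, q}) = c1 ∧
        decide (R {v, p, q}) = c2 := by
      intro p hp q hq hpq
      have := hYcol p hp q hq hpq
      simp only [Prod.mk.injEq] at this
      exact this
    have hc1 : c1 = false := by
      by_contra h
      have h' : c1 = true := by simpa using h
      refine Unusable_kill hXn hYX hXd (Φ' := Φu) ?_ (u := u) (by simp) htY hu2 ?_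
      · intro z hz; simp [hz]
      · intro p hp q hq hpq
        have := (hcol p hp q hq hpq).1
        rw [h'] at this
        exact of_decide_eq_true this
    have hc2 : c2 = false := by
      by_contra h
      have h' : c2 = true := by simpa using h
      refine Unusable_kill hXn hYX hXd (Φ' := Φv) ?_ (u := v) (by simp) htY hv2 ?_
      · intro z hz; simp [hz]
      · intro p hp q hq hpq
        have := (hcol p hp q hq hpq).2
        rw [h'] at this
        exact of_decide_eq_true this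
    have hYd : Disjoint Y ((Φu ∪ Φv) ∪ {u, v}) := Finset.disjoint_of_subset_left hYX hXd
    have hne : ∀ z ∈ Y, u ≠ z ∧ v ≠ z ∧ a ≠ z := by
      intro z hz
      have h := Finset.disjoint_left.mp hYd hz
      refine ⟨?_, ?_, ?_⟩
      · rintro rfl; exact h (by simp)
      · rintro rfl; exact h (by simp)
      · rintro rfl; exact haW (hXn.sub (hYX hz))
    have hbu : ∀ p ∈ Y, ∀ q ∈ Y, p ≠ q → Blue3 R u p q := by
      intro p hp q hq hpq
      refine ⟨(hne p hp).1, (hne q hq).1, hpq, ?_⟩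
      have := (hcol p hp q hq hpq).1
      rw [hc1] at this
      exact of_decide_eq_false this
    have hbv : ∀ p ∈ Y, ∀ q ∈ Y, p ≠ q → Blue3 R v p q := by
      intro p hp q hq hpq
      refine ⟨(hne p hp).2.1, (hne q hq).2.1, hpq, ?_⟩
      have := (hcol p hp q hq hpq).2
      rw [hc2] at this
      exact of_decide_eq_false this
    obtain ⟨A1, hA1Y, hA1⟩ := Finset.exists_subset_card_eq (show s ≤ Y.card by omega)
    have hdiff : s ≤ (Y \ A1).card := by
      rw [Finset.card_sdiff_of_subset hA1Y]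
      omega
    obtain ⟨A2, hA2Y, hA2⟩ := Finset.exists_subset_card_eq hdiff
    obtain ⟨q, hq, q', hq', hqq, hbq⟩ := hXs A1 (hA1Y.trans hYX) hA1
    obtain ⟨r, hr, r', hr', hrr, hbr⟩ := hXs A2 ((hA2Y.trans Finset.sdiff_subset).trans hYX) hA2
    have hqY : q ∈ Y := hA1Y hq
    have hq'Y : q' ∈ Y := hA1Y hq'
    have hrY : r ∈ Y := (Finset.mem_sdiff.mp (hA2Y hr)).1
    have hr'Y : r' ∈ Y := (Finset.mem_sdiff.mp (hA2Y hr')).1
    have hsep : ∀ x ∈ A1, ∀ y ∈ A2, x ≠ y := by
      rintro x hx y hy rfl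
      exact (Finset.mem_sdiff.mp (hA2Y hy)).2 hx
    have hYW : ∀ z ∈ Y, z ∈ insert a W := fun z hz =>
      Finset.mem_insert_of_mem (hXn.sub (hYX hz))
    have hUW' : ∀ z ∈ U, z ∈ insert a W := fun z hz => Finset.mem_insert_of_mem (hUW hz)
    exact hF (fano_pairs R (insert a W) (Finset.mem_insert_self a W) (hUW' u hu) (hUW' v hv)
      (hYW q hqY) (hYW q' hq'Y) (hYW r hrY) (hYW r' hr'Y)
      ⟨hmem u hu, hmem v hv, huv, hR⟩
      ⟨(hne q hqY).2.2, (hne q' hq'Y).2.2, hqq, hbq⟩
      ⟨(hne r hrY).2.2, (hne r' hr'Y).2.2, hrr, hbr⟩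
      (hbu q hqY r hrY (hsep q hq r hr)) (hbu q' hq'Y r' hr'Y (hsep q' hq' r' hr'))
      (hbv q hqY r' hr'Y (hsep q hq r' hr')) (hbv q' hq'Y r hrY (hsep q' hq' r hr)))

end Pool.MP7783b9
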